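import Pool.Agent.H89LinF.Defs

/-!
# From an assignment of rows and columns to a special super edge-magic labeling
-/

set_option autoImplicit false

namespace Pool.Agent.H89LinF

open Finset

theorem bijOn_of_card {V : Type*} [Fintype V] {f : V → ℕ} {a b : ℕ} (hf : Function.Injective f)
    (hmem : ∀ v, f v ∈ Set.Ico a b) (hc : Fintype.card V = b - a) :
    Set.BijOn f Set.univ (Set.Ico a b) := by
  classical
  refine ⟨fun v _ => hmem v, hf.injOn, ?_⟩
  intro t ht
  have h1 : univ.image f = Finset.Ico a b := by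
    refine Finset.eq_of_subset_of_card_le ?_ ?_
    · intro x hx
      rw [mem_image] at hx
      obtain ⟨v, -, rfl⟩ := hx
      simpa using hmem v
    · rw [card_image_of_injective _ hf, card_univ, Nat.card_Ico, hc]
  have h2 : t ∈ univ.image f := by
    rw [h1]
    simpa using ht
  rw [mem_image] at h2
  obtain ⟨v, -, rfl⟩ := h2
  exact ⟨v, Set.mem_univ _, rfl⟩

theorem assemble {ι : Type} [Fintype ι] (n' : ι → ℕ) (gg : ι → ℕ → Bool × ℕ) (R C s0 : ℕ)
    (hinj : ∀ i j q q', q < n' i → q' < n' j → gg i q = gg j q' → i = j ∧ q = q')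
    (hpos : ∀ i q, q < n' i → 1 ≤ (gg i q).2)
    (hR : ∀ i q, q < n' i → (gg i q).1 = true → (gg i q).2 ≤ R)
    (hC : ∀ i q, q < n' i → (gg i q).1 = false → (gg i q).2 ≤ C)
    (hcard : ∑ i, n' i = R + C)
    (hbip : ∀ i q, q + 1 < n' i → (gg i q).1 ≠ (gg i (q + 1)).1)
    (hlo : ∀ i q, q + 1 < n' i → s0 ≤ (gg i q).2 + (gg i (q + 1)).2)
    (hhi : ∀ i q, q + 1 < n' i → (gg i q).2 + (gg i (q + 1)).2 < s0 + ∑ i, (n' i - 1))
    (hsinj : ∀ i j q q', q + 1 < n' i → q' + 1 < n' j →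
      (gg i q).2 + (gg i (q + 1)).2 = (gg j q').2 + (gg j (q' + 1)).2 → i = j ∧ q = q') :
    SpecialSEM (linForest n') := by
  classical
  let V := Σ i, Fin (n' i)
  let g : V → Bool × ℕ := fun v => gg v.1 v.2
  let f : V → ℕ := fun v => if (g v).1 = true then (g v).2 else R + (g v).2
  have ft : ∀ v, (g v).1 = true → f v = (g v).2 := fun v h => if_pos h
  have ff : ∀ v, (g v).1 = false → f v = R + (g v).2 := fun v h => if_neg (by rw [h]; decide)
  have ginj : Function.Injective g := by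
    rintro ⟨i, q⟩ ⟨j, q'⟩ h
    obtain ⟨rfl, h2⟩ := hinj i j q q' q.2 q'.2 h
    have : q = q' := Fin.ext h2
    rw [this]
  have hcV : Fintype.card V = R + C := by
    rw [Fintype.card_sigma]
    simp only [Fintype.card_fin]
    exact hcard
  have p1 : ∀ v : V, 1 ≤ (g v).2 := fun v => hpos v.1 v.2 v.2.2
  have p2 : ∀ v : V, (g v).1 = true → (g v).2 ≤ R := fun v => hR v.1 v.2 v.2.2
  have p3 : ∀ v : V, (g v).1 = false → (g v).2 ≤ C := fun v => hC v.1 v.2 v.2.2
  have finj : Function.Injective f := by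
    intro u v h
    rcases hu : (g u).1 with _ | _ <;> rcases hv : (g v).1 with _ | _
    · rw [ff u hu, ff v hv] at h
      exact ginj (Prod.ext (hu.trans hv.symm) (by omega))
    · rw [ff u hu, ft v hv] at h
      have := p2 v hv
      have := p1 u
      omega
    · rw [ft u hu, ff v hv] at h
      have := p2 u hu
      have := p1 v
      omega
    · rw [ft u hu, ft v hv] at h
      exact ginj (Prod.ext (hu.trans hv.symm) h)
  have fmem : ∀ v, f v ∈ Set.Ico 1 (R + C + 1) := by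
    intro v
    have h1 := p1 v
    rcases hv : (g v).1 with _ | _
    · have := p3 v hv
      rw [Set.mem_Ico, ff v hv]
      omega
    · have := p2 v hv
      rw [Set.mem_Ico, ft v hv]
      omega
  have hbij : Set.BijOn f Set.univ (Set.Ico 1 (R + C + 1)) :=
    bijOn_of_card finj fmem (by rw [hcV]; omega)
  have hIcc : ∀ a b : ℕ, Set.Ico a (b + 1) = Set.Icc a b := by
    intro a b
    ext x
    rw [Set.mem_Ico, Set.mem_Icc]
    omega
  -- the edges
  let P := Σ i, Fin (n' i - 1)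
  have q0 : ∀ p : P, (p.2 : ℕ) < n' p.1 := fun p => by have := p.2.2; omega
  have q1 : ∀ p : P, (p.2 : ℕ) + 1 < n' p.1 := fun p => by have := p.2.2; omega
  let e : P → Sym2 V := fun p => s(⟨p.1, ⟨p.2, q0 p⟩⟩, ⟨p.1, ⟨p.2 + 1, q1 p⟩⟩)
  have he : (linForest n').edgeSet = Set.range e := by
    ext x
    induction x with
    | _ u v =>
      rw [SimpleGraph.mem_edgeSet]
      constructor
      · rintro ⟨h1, h2⟩
        obtain ⟨i, q, hq⟩ := u
        obtain ⟨j, q', hq'⟩ := v
        obtain rfl : i = j := h1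
        rcases h2 with h2 | h2
        · change q + 1 = q' at h2
          subst h2
          exact ⟨⟨i, ⟨q, by omega⟩⟩, rfl⟩
        · change q' + 1 = q at h2
          subst h2
          exact ⟨⟨i, ⟨q', by omega⟩⟩, Sym2.eq_swap⟩
      · rintro ⟨p, hp⟩
        have h3 := Sym2.eq_iff.1 hp
        rcases h3 with ⟨rfl, rfl⟩ | ⟨rfl, rfl⟩
        · exact ⟨rfl, Or.inl rfl⟩
        · exact ⟨rfl, Or.inr rfl⟩
  have hsum : ∀ p : P, edgeSum f (e p) =
      R + ((gg p.1 p.2).2 + (gg p.1 (p.2 + 1)).2) := by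
    intro p
    have h1 : edgeSum f (e p) = f ⟨p.1, ⟨p.2, q0 p⟩⟩ + f ⟨p.1, ⟨p.2 + 1, q1 p⟩⟩ := rfl
    have h2 := hbip p.1 p.2 (q1 p)
    rw [h1]
    rcases hu : (gg p.1 p.2).1 with _ | _ <;> rcases hv : (gg p.1 (p.2 + 1)).1 with _ | _
    · exact absurd (hu.trans hv.symm) h2
    · rw [ff ⟨p.1, ⟨p.2, q0 p⟩⟩ hu, ft ⟨p.1, ⟨p.2 + 1, q1 p⟩⟩ hv]
      change R + (gg p.1 p.2).2 + (gg p.1 (p.2 + 1)).2 = _
      omega
    · rw [ft ⟨p.1, ⟨p.2, q0 p⟩⟩ hu, ff ⟨p.1, ⟨p.2 + 1, q1 p⟩⟩ hv]
      change (gg p.1 p.2).2 + (R + (gg p.1 (p.2 + 1)).2) = _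
      omega
    · exact absurd (hu.trans hv.symm) h2
  have hφinj : Function.Injective fun p : P => edgeSum f (e p) := by
    intro p p' h
    simp only [hsum] at h
    obtain ⟨i, q⟩ := p
    obtain ⟨j, q'⟩ := p'
    obtain ⟨h1, h2⟩ := hsinj i j q q' (q1 ⟨i, q⟩) (q1 ⟨j, q'⟩) (by simpa using h)
    obtain rfl := h1
    rw [Fin.ext h2]
  have heinj : Function.Injective e := fun p p' h => hφinj (by simp only [h])
  have hcP : Fintype.card P = ∑ i, (n' i - 1) := by
    rw [Fintype.card_sigma]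
    simp only [Fintype.card_fin]
  have hncard : (linForest n').edgeSet.ncard = ∑ i, (n' i - 1) := by
    rw [he, ← Set.image_univ, Set.ncard_image_of_injective _ heinj, Set.ncard_univ,
      Nat.card_eq_fintype_card, hcP]
  have hφ : Set.BijOn (fun p : P => edgeSum f (e p)) Set.univ
      (Set.Ico (s0 + R) (s0 + R + ∑ i, (n' i - 1))) := by
    refine bijOn_of_card hφinj (fun p => ?_) (by rw [hcP]; omega)
    have h1 := hlo p.1 p.2 (q1 p)
    have h2 := hhi p.1 p.2 (q1 p)
    rw [Set.mem_Ico, hsum]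
    omega
  refine ⟨{v | (g v).1 = true}, f, ?_, ?_, ?_, s0 + R, ?_⟩
  · rw [hcV, ← hIcc]
    exact hbij
  · rintro ⟨i, q, hq⟩ ⟨j, q', hq'⟩ ⟨h1, h2⟩
    obtain rfl : i = j := h1
    change (gg i q).1 = true ↔ ¬ (gg i q').1 = true
    rcases h2 with h2 | h2
    · change q + 1 = q' at h2
      subst h2
      have h3 := hbip i q hq'
      revert h3
      cases (gg i q).1 <;> cases (gg i (q + 1)).1 <;> simp
    · change q' + 1 = q at h2
      subst h2
      have h3 := hbip i q' hq
      revert h3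
      cases (gg i q').1 <;> cases (gg i (q' + 1)).1 <;> simp
  · have h1 : f '' {v | (g v).1 = true} = Set.Icc 1 R := by
      ext t
      constructor
      · rintro ⟨v, hv, rfl⟩
        rw [Set.mem_Icc, ft v hv]
        exact ⟨p1 v, p2 v hv⟩
      · intro ht
        rw [Set.mem_Icc] at ht
        obtain ⟨v, -, rfl⟩ := hbij.surjOn (show t ∈ Set.Ico 1 (R + C + 1) by
          rw [Set.mem_Ico]
          omega)
        refine ⟨v, ?_, rfl⟩
        by_contra hv
        have hv' : (g v).1 = false := by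
          rcases h : (g v).1 with _ | _
          · rfl
          · exact absurd h hv
        rw [ff v hv'] at ht
        have := p1 v
        omega
    have h2 : ({v | (g v).1 = true} : Set V).ncard = R := by
      rw [← Set.ncard_image_of_injective _ finj, h1, ← Nat.card_coe_set_eq,
        Nat.card_eq_fintype_card]
      simp
    rw [h1, h2]
  · rw [hncard, he]
    refine ⟨?_, ?_, ?_⟩
    · rintro _ ⟨p, rfl⟩
      exact hφ.mapsTo (Set.mem_univ p)
    · rintro _ ⟨p, rfl⟩ _ ⟨p', rfl⟩ h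
      rw [hφinj h]
    · intro t ht
      obtain ⟨p, -, hp⟩ := hφ.surjOn ht
      exact ⟨e p, ⟨p, rfl⟩, hp⟩

end Pool.Agent.H89LinF
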