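import Pool.Agent.H89LinF.Stars

/-!
# An odd number of components of orders two and three
-/

set_option autoImplicit false

namespace Pool.Agent.H89LinF

open Finset

/-- `2h + 1` components, `w` of them of order three, and `s` isolated vertices -/
theorem caseA (h w s : ℕ) (hw : w ≤ 2 * h + 1) :
    ∃ (three : ℕ → Prop) (_ : DecidablePred three),
      ((range (2 * h + 1)).filter three).card = w ∧
      SpecialSEM (linForest (Sum.elim (fun i : Fin (2 * h + 1) => if three i then 3 else 2)
        (fun _ : Fin s => 1))) := by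
  let three : ℕ → Prop := fun i => h ≤ i + w / 2 ∧ i ≤ h + w / 2 ∧ (i ≠ h ∨ w % 2 = 1)
  have hdec : DecidablePred three := fun i => by
    unfold three
    infer_instance
  have hT : ((range (2 * h + 1)).filter three).card = w := by
    rcases Nat.mod_two_eq_zero_or_one w with h2 | h2
    · have : (range (2 * h + 1)).filter three = (Icc (h - w / 2) (h + w / 2)).erase h := by
        ext i
        rw [mem_filter, mem_range, mem_erase, mem_Icc]
        constructor
        · rintro ⟨h3, h4, h5, h6⟩
          omega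
        · rintro ⟨h3, h4⟩
          refine ⟨by omega, by omega, by omega, by omega⟩
      rw [this, card_erase_of_mem (by rw [mem_Icc]; omega), Nat.card_Icc]
      omega
    · have : (range (2 * h + 1)).filter three = Icc (h - w / 2) (h + w / 2) := by
        ext i
        rw [mem_filter, mem_range, mem_Icc]
        constructor
        · rintro ⟨h3, h4, h5, h6⟩
          omega
        · rintro ⟨h3, h4⟩
          refine ⟨by omega, by omega, by omega, by omega⟩
      rw [this, Nat.card_Icc]
      omega
  refine ⟨three, hdec, hT, ?_⟩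
  obtain ⟨A, hA⟩ : ∃ A : ℕ → Bool × ℕ, ∀ i, A i = (true, if i < h then i + h + 2 else i + 1 - h) :=
    ⟨_, fun _ => rfl⟩
  obtain ⟨B, hB⟩ : ∃ B : ℕ → Bool × ℕ, ∀ i, B i = (false, i + 1) := ⟨_, fun _ => rfl⟩
  obtain ⟨D, hD⟩ : ∃ D : ℕ → Bool × ℕ, ∀ i, D i =
      (true, if h ≤ i then h + 1 + i + w % 2 else h + i + 2 + w) := ⟨_, fun _ => rfl⟩
  refine stars (2 * h + 1) three A B D w (2 * h + 1 + w + s) (2 * h + 1) (h + 2) s hT (by omega)
    ?_ ?_ ?_ ?_ ?_ ?_ ?_ ?_ ?_ ?_ ?_ ?_ ?_ ?_ ?_ ?_
  · intro i hi
    simp [hA, hB]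
  · intro i hi h3
    simp [hB, hD]
  · intro i j hi hj h1
    simp only [hA, Prod.mk.injEq, true_and] at h1
    split_ifs at h1 <;> omega
  · intro i j hi hj h1
    simp only [hB, Prod.mk.injEq, true_and] at h1
    omega
  · intro i j hi hj h3 h3' h1
    simp only [hD, Prod.mk.injEq, true_and] at h1
    obtain ⟨h4, h5, h6⟩ := h3
    obtain ⟨h4', h5', h6'⟩ := h3'
    split_ifs at h1 <;> omega
  · intro i j hi hj
    simp [hA, hB]
  · intro i j hi hj h3
    simp only [hA, hD, ne_eq, Prod.mk.injEq, true_and]
    split_ifs <;> omega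
  · intro i j hi hj h3
    simp [hB, hD]
  · intro i hi
    simp only [hA]
    refine ⟨?_, fun _ => ?_, fun h => absurd h (by simp)⟩
    · split_ifs <;> omega
    · split_ifs <;> omega
  · intro i hi
    simp only [hB]
    exact ⟨by omega, fun h => absurd h (by simp), fun _ => by omega⟩
  · intro i hi h3
    simp only [hD]
    obtain ⟨h4, h5, h6⟩ := h3
    refine ⟨?_, fun _ => ?_, fun h => absurd h (by simp)⟩
    · split_ifs <;> omega
    · split_ifs <;> omega
  · intro i hi
    simp only [hA, hB]
    split_ifs <;> omega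
  · intro i hi h3
    simp only [hB, hD]
    obtain ⟨h4, h5, h6⟩ := h3
    split_ifs <;> omega
  · intro i j hi hj h1
    simp only [hA, hB] at h1
    split_ifs at h1 <;> omega
  · intro i j hi hj h3 h3' h1
    simp only [hB, hD] at h1
    obtain ⟨h4, h5, h6⟩ := h3
    obtain ⟨h4', h5', h6'⟩ := h3'
    split_ifs at h1 <;> omega
  · intro i j hi hj h3 h1
    simp only [hA, hB, hD] at h1
    obtain ⟨h4, h5, h6⟩ := h3
    split_ifs at h1 <;> omega

end Pool.Agent.H89LinF
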