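import Pool.Agent.H89LinF.Stars

/-!
# An even number of components of orders two and three
-/

set_option autoImplicit false

namespace Pool.Agent.H89LinF

open Finset

/-- `2h` components, `w + 2` of them of order three (`w` odd), and `s` isolated vertices -/
theorem caseB1 (h w s : ℕ) (hw : w + 3 ≤ 2 * h) (hw2 : w % 2 = 1) :
    ∃ (three : ℕ → Prop) (_ : DecidablePred three),
      ((range (2 * h)).filter three).card = w + 2 ∧
      SpecialSEM (linForest (Sum.elim (fun i : Fin (2 * h) => if three i then 3 else 2)
        (fun _ : Fin s => 1))) := by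
  let three : ℕ → Prop := fun i => i = 0 ∨ i + 1 = 2 * h ∨ (h ≤ i + w / 2 ∧ i ≤ h + w / 2)
  have hdec : DecidablePred three := fun i => by
    unfold three
    infer_instance
  have hT : ((range (2 * h)).filter three).card = w + 2 := by
    have : (range (2 * h)).filter three =
        insert 0 (insert (2 * h - 1) (Icc (h - w / 2) (h + w / 2))) := by
      ext i
      rw [mem_filter, mem_range, mem_insert, mem_insert, mem_Icc]
      constructor
      · rintro ⟨h3, h4 | h4 | ⟨h4, h5⟩⟩
        · omega
        · omega
        · omega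
      · rintro (h3 | h3 | ⟨h3, h4⟩)
        · exact ⟨by omega, Or.inl h3⟩
        · exact ⟨by omega, Or.inr (Or.inl (by omega))⟩
        · exact ⟨by omega, Or.inr (Or.inr ⟨by omega, by omega⟩)⟩
    rw [this, card_insert_of_notMem, card_insert_of_notMem, Nat.card_Icc]
    · omega
    · rw [mem_Icc]
      omega
    · rw [mem_insert, mem_Icc]
      omega
  refine ⟨three, hdec, hT, ?_⟩
  obtain ⟨A, hA⟩ : ∃ A : ℕ → Bool × ℕ, ∀ i, A i =
      if i + 1 = 2 * h then (false, 2 * h) else if i + 1 < h then (true, i + h + 2)
      else if i + 1 = h then (true, 1) else if i = h then (true, 2 * h + 1)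
      else (true, i + 1 - h) := ⟨_, fun _ => rfl⟩
  obtain ⟨B, hB⟩ : ∃ B : ℕ → Bool × ℕ, ∀ i, B i =
      if i + 1 = 2 * h then (true, h) else (false, i + 1) := ⟨_, fun _ => rfl⟩
  obtain ⟨D, hD⟩ : ∃ D : ℕ → Bool × ℕ, ∀ i, D i =
      if i + 1 = 2 * h then (false, 2 * h + 1) else if i = 0 then (true, h + 1)
      else if h ≤ i then (true, h + i + 2) else (true, h + i + 2 + w) := ⟨_, fun _ => rfl⟩
  refine stars (2 * h) three A B D (w + 2) (2 * h + 1 + w + s) (2 * h + 1) (h + 1) s hT
    (by omega) ?_ ?_ ?_ ?_ ?_ ?_ ?_ ?_ ?_ ?_ ?_ ?_ ?_ ?_ ?_ ?_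
  · intro i hi
    rw [hA, hB]
    split_ifs <;> simp
  · intro i hi h3
    rw [hB, hD]
    split_ifs <;> simp
  · intro i j hi hj h1
    rw [hA, hA] at h1
    split_ifs at h1 <;> simp only [Prod.mk.injEq, true_and, reduceCtorEq, false_and] at h1 <;> omega
  · intro i j hi hj h1
    rw [hB, hB] at h1
    split_ifs at h1 <;> simp only [Prod.mk.injEq, true_and, reduceCtorEq, false_and] at h1 <;> omega
  · intro i j hi hj h3 h3' h1
    rw [hD, hD] at h1
    simp only [three] at h3 h3'
    split_ifs at h1 <;> simp only [Prod.mk.injEq, true_and, reduceCtorEq, false_and] at h1 <;> omega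
  · intro i j hi hj h1
    rw [hA, hB] at h1
    split_ifs at h1 <;> simp only [Prod.mk.injEq, true_and, reduceCtorEq, false_and] at h1 <;> omega
  · intro i j hi hj h3 h1
    rw [hA, hD] at h1
    simp only [three] at h3
    split_ifs at h1 <;> simp only [Prod.mk.injEq, true_and, reduceCtorEq, false_and] at h1 <;> omega
  · intro i j hi hj h3 h1
    rw [hB, hD] at h1
    simp only [three] at h3
    split_ifs at h1 <;> simp only [Prod.mk.injEq, true_and, reduceCtorEq, false_and] at h1 <;> omega
  · intro i hi
    rw [hA]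
    split_ifs <;> simp <;> omega
  · intro i hi
    rw [hB]
    split_ifs <;> simp <;> omega
  · intro i hi h3
    rw [hD]
    simp only [three] at h3
    split_ifs <;> simp <;> omega
  · intro i hi
    rw [hA, hB]
    split_ifs <;> simp only [] <;> omega
  · intro i hi h3
    rw [hB, hD]
    simp only [three] at h3
    split_ifs <;> simp only [] <;> omega
  · intro i j hi hj h1
    rw [hA, hB, hA, hB] at h1
    split_ifs at h1 <;> simp only [] at h1 <;> omega
  · intro i j hi hj h3 h3' h1
    rw [hB, hD, hB, hD] at h1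
    simp only [three] at h3 h3'
    split_ifs at h1 <;> simp only [] at h1 <;> omega
  · intro i j hi hj h3 h1
    rw [hA, hB, hB, hD] at h1
    simp only [three] at h3
    split_ifs at h1 <;> simp only [] at h1 <;> omega

end Pool.Agent.H89LinF
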