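import Pool.Agent.H89LinF.Stars

/-!
# The exceptional forests with an isolated vertex
-/

set_option autoImplicit false

namespace Pool.Agent.H89LinF

open Finset

/-- `2k` components of order two and `s ≥ 1` isolated vertices -/
theorem caseC1 (k s : ℕ) (hs : 1 ≤ s) :
    ∃ (three : ℕ → Prop) (_ : DecidablePred three),
      ((range (2 * k)).filter three).card = 0 ∧
      SpecialSEM (linForest (Sum.elim (fun i : Fin (2 * k) => if three i then 3 else 2)
        (fun _ : Fin s => 1))) := by
  let three : ℕ → Prop := fun _ => False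
  have hT : ((range (2 * k)).filter three).card = 0 := by
    simp [three]
  refine ⟨three, fun _ => instDecidableFalse, hT, ?_⟩
  obtain ⟨A, hA⟩ : ∃ A : ℕ → Bool × ℕ, ∀ i, A i =
      if i < k then (true, i + 1 + k) else (true, i + 1 - k) := ⟨_, fun _ => rfl⟩
  obtain ⟨B, hB⟩ : ∃ B : ℕ → Bool × ℕ, ∀ i, B i =
      if i < k then (false, i + 1) else (false, i + 2) := ⟨_, fun _ => rfl⟩
  refine stars (2 * k) three A B B 0 (2 * k + s - 1) (2 * k + 1) (k + 2) s hT
    (by omega) ?_ (fun i _ h => h.elim) ?_ ?_ (fun i j _ _ h => h.elim) ?_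
    (fun i j _ _ h => h.elim) (fun i j _ _ h => h.elim) ?_ ?_ (fun i _ h => h.elim) ?_
    (fun i _ h => h.elim) ?_ (fun i j _ _ h => h.elim) (fun i j _ _ h => h.elim)
  · intro i hi
    rw [hA, hB]
    split_ifs <;> simp
  · intro i j hi hj h1
    rw [hA, hA] at h1
    split_ifs at h1 <;> simp only [Prod.mk.injEq, true_and, reduceCtorEq, false_and] at h1 <;> omega
  · intro i j hi hj h1
    rw [hB, hB] at h1
    split_ifs at h1 <;> simp only [Prod.mk.injEq, true_and, reduceCtorEq, false_and] at h1 <;> omega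
  · intro i j hi hj h1
    rw [hA, hB] at h1
    split_ifs at h1 <;> simp only [Prod.mk.injEq, reduceCtorEq, false_and] at h1
  · intro i hi
    rw [hA]
    split_ifs <;> simp <;> omega
  · intro i hi
    rw [hB]
    split_ifs <;> simp <;> omega
  · intro i hi
    rw [hA, hB]
    split_ifs <;> simp only [] <;> omega
  · intro i j hi hj h1
    rw [hA, hB, hA, hB] at h1
    split_ifs at h1 <;> simp only [] at h1 <;> omega

/-- one component of order three, `2k - 1` of order two and `s ≥ 1` isolated vertices -/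
theorem caseC2 (k s : ℕ) (hk : 1 ≤ k) (hs : 1 ≤ s) :
    ∃ (three : ℕ → Prop) (_ : DecidablePred three),
      ((range (2 * k)).filter three).card = 1 ∧
      SpecialSEM (linForest (Sum.elim (fun i : Fin (2 * k) => if three i then 3 else 2)
        (fun _ : Fin s => 1))) := by
  let three : ℕ → Prop := fun i => i + 1 = k
  have hdec : DecidablePred three := fun i => by
    unfold three
    infer_instance
  have hT : ((range (2 * k)).filter three).card = 1 := by
    have : (range (2 * k)).filter three = {k - 1} := by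
      ext i
      rw [mem_filter, mem_range, mem_singleton]
      constructor
      · rintro ⟨h3, h4⟩
        have h5 : i + 1 = k := h4
        omega
      · intro h3
        exact ⟨by omega, by change i + 1 = k; omega⟩
    rw [this, card_singleton]
  refine ⟨three, hdec, hT, ?_⟩
  obtain ⟨A, hA⟩ : ∃ A : ℕ → Bool × ℕ, ∀ i, A i =
      if i < k then (true, i + 2 + k) else (true, i + 1 - k) := ⟨_, fun _ => rfl⟩
  obtain ⟨B, hB⟩ : ∃ B : ℕ → Bool × ℕ, ∀ i, B i = (false, i + 1) := ⟨_, fun _ => rfl⟩
  obtain ⟨D, hD⟩ : ∃ D : ℕ → Bool × ℕ, ∀ i, D i = (true, 2 * k + 2) := ⟨_, fun _ => rfl⟩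
  refine stars (2 * k) three A B D 1 (2 * k + 1 + s) (2 * k) (k + 2) s hT
    (by omega) ?_ ?_ ?_ ?_ ?_ ?_ ?_ ?_ ?_ ?_ ?_ ?_ ?_ ?_ ?_ ?_
  · intro i hi
    rw [hA, hB]
    split_ifs <;> simp
  · intro i hi h3
    rw [hB, hD]
    simp
  · intro i j hi hj h1
    rw [hA, hA] at h1
    split_ifs at h1 <;> simp only [Prod.mk.injEq, true_and] at h1 <;> omega
  · intro i j hi hj h1
    rw [hB, hB] at h1
    simp only [Prod.mk.injEq, true_and] at h1
    omega
  · intro i j hi hj h3 h3' h1
    simp only [three] at h3 h3'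
    omega
  · intro i j hi hj h1
    rw [hA, hB] at h1
    split_ifs at h1 <;> simp only [Prod.mk.injEq, reduceCtorEq, false_and] at h1
  · intro i j hi hj h3 h1
    rw [hA, hD] at h1
    split_ifs at h1 <;> simp only [Prod.mk.injEq, true_and] at h1 <;> omega
  · intro i j hi hj h3 h1
    rw [hB, hD] at h1
    simp only [Prod.mk.injEq, reduceCtorEq, false_and] at h1
  · intro i hi
    rw [hA]
    split_ifs <;> simp <;> omega
  · intro i hi
    rw [hB]
    simp
    omega
  · intro i hi h3
    rw [hD]
    simp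
    omega
  · intro i hi
    rw [hA, hB]
    split_ifs <;> simp only [] <;> omega
  · intro i hi h3
    rw [hB, hD]
    simp only [three] at h3
    simp only []
    omega
  · intro i j hi hj h1
    rw [hA, hB, hA, hB] at h1
    split_ifs at h1 <;> simp only [] at h1 <;> omega
  · intro i j hi hj h3 h3' h1
    simp only [three] at h3 h3'
    omega
  · intro i j hi hj h3 h1
    rw [hA, hB, hB, hD] at h1
    simp only [three] at h3
    split_ifs at h1 <;> simp only [] at h1 <;> omega

/-- two components of order three and `s ≥ 1` isolated vertices -/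
theorem caseC3 (s : ℕ) (hs : 1 ≤ s) :
    ∃ (three : ℕ → Prop) (_ : DecidablePred three),
      ((range 2).filter three).card = 2 ∧
      SpecialSEM (linForest (Sum.elim (fun i : Fin 2 => if three i then 3 else 2)
        (fun _ : Fin s => 1))) := by
  let three : ℕ → Prop := fun _ => True
  have hT : ((range 2).filter three).card = 2 := by
    simp [three]
  refine ⟨three, fun _ => instDecidableTrue, hT, ?_⟩
  obtain ⟨A, hA⟩ : ∃ A : ℕ → Bool × ℕ, ∀ i, A i = (true, 3 * i + 1) := ⟨_, fun _ => rfl⟩
  obtain ⟨B, hB⟩ : ∃ B : ℕ → Bool × ℕ, ∀ i, B i = (false, 2 - i) := ⟨_, fun _ => rfl⟩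
  obtain ⟨D, hD⟩ : ∃ D : ℕ → Bool × ℕ, ∀ i, D i = (true, 3 * i + 2) := ⟨_, fun _ => rfl⟩
  refine stars 2 three A B D 2 (4 + s) 2 3 s hT
    (by omega) ?_ ?_ ?_ ?_ ?_ ?_ ?_ ?_ ?_ ?_ ?_ ?_ ?_ ?_ ?_ ?_
  · intro i hi
    simp [hA, hB]
  · intro i hi h3
    simp [hB, hD]
  · intro i j hi hj h1
    simp only [hA, Prod.mk.injEq, true_and] at h1
    omega
  · intro i j hi hj h1
    simp only [hB, Prod.mk.injEq, true_and] at h1
    omega
  · intro i j hi hj h3 h3' h1
    simp only [hD, Prod.mk.injEq, true_and] at h1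
    omega
  · intro i j hi hj
    simp [hA, hB]
  · intro i j hi hj h3
    simp only [hA, hD, ne_eq, Prod.mk.injEq, true_and]
    omega
  · intro i j hi hj h3
    simp [hB, hD]
  · intro i hi
    simp only [hA]
    exact ⟨by omega, fun _ => by omega, fun h => absurd h (by simp)⟩
  · intro i hi
    simp only [hB]
    exact ⟨by omega, fun h => absurd h (by simp), fun _ => by omega⟩
  · intro i hi h3
    simp only [hD]
    exact ⟨by omega, fun _ => by omega, fun h => absurd h (by simp)⟩
  · intro i hi
    simp only [hA, hB]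
    omega
  · intro i hi h3
    simp only [hB, hD]
    omega
  · intro i j hi hj h1
    simp only [hA, hB] at h1
    omega
  · intro i j hi hj h3 h3' h1
    simp only [hB, hD] at h1
    omega
  · intro i j hi hj h3 h1
    simp only [hA, hB, hD] at h1
    omega

end Pool.Agent.H89LinF
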