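import Pool.Agent.H89LinF.Core

/-!
# The chain of the left out lines
-/

set_option autoImplicit false

namespace Pool.Agent.H89LinF

open Finset

section dec

variable {l : ℕ} (nv : Fin (l + 1) → ℕ)

/-- the number of vertices in the components before `i` -/
def base (i : Fin (l + 1)) : ℕ := ∑ a : Fin i.val, nv (Fin.castLE i.2.le a)

/-- the component and the place in it of the element number `x` -/
def dec (x : ℕ) : Fin (l + 1) × ℕ :=
  if h : x < ∑ i, nv i then
    ((finSigmaFinEquiv.symm (⟨x, h⟩ : Fin (∑ i, nv i))).1,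
      ((finSigmaFinEquiv.symm (⟨x, h⟩ : Fin (∑ i, nv i))).2 : ℕ))
  else (Fin.last l, 0)

theorem dec_spec {x : ℕ} (h : x < ∑ i, nv i) :
    (dec nv x).2 < nv (dec nv x).1 ∧ base nv (dec nv x).1 + (dec nv x).2 = x := by
  have h1 := finSigmaFinEquiv_apply (finSigmaFinEquiv.symm (⟨x, h⟩ : Fin (∑ i, nv i)))
  rw [Equiv.apply_symm_apply] at h1
  unfold dec
  rw [dif_pos h]
  exact ⟨(finSigmaFinEquiv.symm (⟨x, h⟩ : Fin (∑ i, nv i))).2.2, h1.symm⟩

theorem dec_base {i : Fin (l + 1)} {j : ℕ} (h : j < nv i) :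
    base nv i + j < ∑ i, nv i ∧ dec nv (base nv i + j) = (i, j) := by
  have h1 := finSigmaFinEquiv_apply (⟨i, ⟨j, h⟩⟩ : (i : Fin (l + 1)) × Fin (nv i))
  have h2 : ((finSigmaFinEquiv (⟨i, ⟨j, h⟩⟩ : (i : Fin (l + 1)) × Fin (nv i)) :
    Fin (∑ i, nv i)) : ℕ) = base nv i + j := h1
  have h3 : base nv i + j < ∑ i, nv i := by
    rw [← h2]
    exact Fin.is_lt _
  refine ⟨h3, ?_⟩
  unfold dec
  rw [dif_pos h3]
  have h4 : (⟨base nv i + j, h3⟩ : Fin (∑ i, nv i)) =
      finSigmaFinEquiv (⟨i, ⟨j, h⟩⟩ : (i : Fin (l + 1)) × Fin (nv i)) := Fin.ext h2.symm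
  rw [h4, Equiv.symm_apply_apply]

theorem base_last (hl : 1 ≤ l) (hmin : nv (Fin.last l) ≤ nv 0) (h : 1 ≤ nv (Fin.last l)) :
    1 ≤ base nv (Fin.last l) := by
  unfold base
  have hl0 : 0 < (Fin.last l).val := by
    rw [Fin.val_last]
    omega
  have h0 : nv (Fin.castLE (Fin.last l).2.le (⟨0, hl0⟩ : Fin (Fin.last l).val)) ≤
      ∑ a : Fin (Fin.last l).val, nv (Fin.castLE (Fin.last l).2.le a) :=
    Finset.single_le_sum (f := fun a => nv (Fin.castLE (Fin.last l).2.le a))
      (fun _ _ => Nat.zero_le _) (Finset.mem_univ _)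
  have h1 : Fin.castLE (Fin.last l).2.le (⟨0, hl0⟩ : Fin (Fin.last l).val) = 0 := by
    ext
    rfl
  rw [h1] at h0
  omega

/-- the kind of the line number `x`: row (`true`) or column -/
def tau : ℕ → Bool
  | 0 => true
  | x + 1 => decide (((dec nv x).2 + 2) / 2 % 2 = 0)

/-- `skip` as a function of the position -/
def skipv (τ : ℕ → Bool) (α x p : ℕ) : ℕ :=
  if τ x = true then 2 * p + cnt τ false x - (α + cnt τ true x + 1)
  else 2 * p + (α + cnt τ true x) - cnt τ false x

theorem skip_eq (τ : ℕ → Bool) (pos : ℕ → ℕ) (α x : ℕ) :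
    skip τ pos α x = skipv τ α x (pos x) := rfl

/-- the positions of the left out lines -/
def pos (z : ℕ) : ℕ → ℕ
  | 0 => z
  | x + 1 => skipv (tau nv) l x (pos z x) -
      (if 2 ≤ (dec nv x).2 then pos z (x - 1)
        else if (dec nv x).1 = Fin.last l then pos z 0 else ((dec nv x).1 : ℕ) + 1)
  termination_by x => x
  decreasing_by all_goals omega

/-- the label of the lower end vertex of the edge number `x` -/
def lab (z x : ℕ) : ℕ :=
  if 2 ≤ (dec nv x).2 then pos nv z (x - 1)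
  else if (dec nv x).1 = Fin.last l then pos nv z 0 else ((dec nv x).1 : ℕ) + 1

theorem pos_zero (z : ℕ) : pos nv z 0 = z := by
  rw [pos]

theorem pos_succ (z x : ℕ) :
    pos nv z (x + 1) = skip (tau nv) (pos nv z) l x - lab nv z x := by
  rw [pos, skip_eq]
  rfl

/-- error bound -/
def er (M x : ℕ) : ℕ := (x + 2) * M

theorem er_succ (M x : ℕ) : er M (x + 1) = er M x + M := by
  unfold er
  ring

theorem er_mono (M : ℕ) {x y : ℕ} (h : x ≤ y) : er M x ≤ er M y := by
  unfold er
  exact Nat.mul_le_mul_right _ (by omega)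

theorem er_zero (M : ℕ) : er M 0 = 2 * M := by
  unfold er
  ring

variable {nv}

theorem growth (hl : 1 ≤ l) (hmin : nv (Fin.last l) ≤ nv 0) {z : ℕ}
    (hz : er ((∑ i, nv i) + l + 2) (∑ i, nv i) ≤ z) (x : ℕ) (hx : x < ∑ i, nv i) :
    z ≤ pos nv z x ∧ (1 ≤ x → 2 * z ≤ pos nv z x + 2 * ((∑ i, nv i) + l + 2)) ∧
      pos nv z x + z ≤ pos nv z (x + 1) + er ((∑ i, nv i) + l + 2) x ∧
      pos nv z (x + 1) + lab nv z x = skip (tau nv) (pos nv z) l x := by
  induction x using Nat.strong_induction_on with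
  | _ x ih =>
    have hM := er_zero ((∑ i, nv i) + l + 2)
    have hm0 := er_mono ((∑ i, nv i) + l + 2) (Nat.zero_le (∑ i, nv i))
    have hmx := er_mono ((∑ i, nv i) + l + 2) hx.le
    have a1 : z ≤ pos nv z x ∧ (1 ≤ x → 2 * z ≤ pos nv z x + 2 * ((∑ i, nv i) + l + 2)) := by
      rcases x with _ | y
      · rw [pos_zero]
        exact ⟨le_refl _, fun h => by omega⟩
      · obtain ⟨b1, b2, b3, -⟩ := ih y (by omega) (by omega)
        have hmy := er_mono ((∑ i, nv i) + l + 2) (show y ≤ ∑ i, nv i by omega)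
        refine ⟨by omega, fun _ => ?_⟩
        rcases Nat.eq_zero_or_pos y with h0 | h0
        · subst h0
          rw [pos_zero] at b3
          omega
        · have := b2 h0
          omega
    obtain ⟨a1, a2⟩ := a1
    refine ⟨a1, a2, ?_⟩
    have ct := cnt_le (tau nv) true x
    have cf := cnt_le (tau nv) false x
    have hs : 2 * pos nv z x ≤ skip (tau nv) (pos nv z) l x + ((∑ i, nv i) + l + 2) := by
      unfold skip
      split_ifs <;> omega
    obtain ⟨d1, d2⟩ := dec_spec nv hx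
    have hp := pos_succ nv z x
    have hl0 : lab nv z x + (pos nv z x + z) ≤
        skip (tau nv) (pos nv z) l x + er ((∑ i, nv i) + l + 2) x := by
      unfold lab
      split_ifs with h1 h2
      · obtain ⟨y, rfl⟩ : ∃ y, x = y + 1 := ⟨x - 1, by omega⟩
        obtain ⟨-, -, b3, -⟩ := ih y (by omega) (by omega)
        rw [er_succ, show y + 1 - 1 = y by omega]
        omega
      · have h3 := base_last nv hl hmin (by rw [h2] at d1; omega)
        rw [h2] at d2
        have h4 := a2 (by omega)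
        have h5 := er_mono ((∑ i, nv i) + l + 2) (show 1 ≤ x by omega)
        rw [er_succ, er_zero] at h5
        rw [pos_zero]
        omega
      · have h6 := (dec nv x).1.2
        have h5 := er_mono ((∑ i, nv i) + l + 2) (Nat.zero_le x)
        omega
    have hle : er ((∑ i, nv i) + l + 2) x ≤ pos nv z x + z := by omega
    constructor
    · rw [hp]
      omega
    · rw [hp]
      omega

theorem pos_gaps (hl : 1 ≤ l) (hmin : nv (Fin.last l) ≤ nv 0) {z G : ℕ}
    (hz : er ((∑ i, nv i) + l + 2) (∑ i, nv i) + G ≤ z) : Gaps (∑ i, nv i) G (pos nv z) := by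
  intro x hx
  obtain ⟨-, -, h, -⟩ := growth hl hmin
    (show er ((∑ i, nv i) + l + 2) (∑ i, nv i) ≤ z by omega) x hx
  have := er_mono ((∑ i, nv i) + l + 2) hx.le
  omega

end dec

end Pool.Agent.H89LinF
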