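import Pool.Agent.H89LinF.Main

/-!
# The positions as affine functions of the free parameter
-/

set_option autoImplicit false

namespace Pool.Agent.H89LinF

open Finset

section

variable {l : ℕ} (nv : Fin (l + 1) → ℕ)

/-- the leading coefficient of the position of the line number `x` -/
def cf : ℕ → ℤ
  | 0 => 1
  | x + 1 => 2 * cf x -
      (if 2 ≤ (dec nv x).2 then cf (x - 1) else if (dec nv x).1 = Fin.last l then 1 else 0)
  termination_by x => x
  decreasing_by all_goals omega

theorem cf_zero : cf nv 0 = 1 := by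
  rw [cf]

theorem cf_succ (x : ℕ) : cf nv (x + 1) = 2 * cf nv x -
    (if 2 ≤ (dec nv x).2 then cf nv (x - 1) else if (dec nv x).1 = Fin.last l then 1 else 0) := by
  rw [cf]

/-- the constant in the skipped sum -/
def kappa (x : ℕ) : ℤ :=
  if tau nv x = true then (cnt (tau nv) false x : ℤ) - (l + cnt (tau nv) true x + 1)
  else (l + cnt (tau nv) true x : ℤ) - cnt (tau nv) false x

variable {nv}

theorem skip_cast {p : ℕ → ℕ} {x : ℕ} (h : x + l + 1 ≤ p x) :
    (skip (tau nv) p l x : ℤ) = 2 * p x + kappa nv x := by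
  have h1 := cnt_le (tau nv) true x
  have h2 := cnt_le (tau nv) false x
  unfold skip kappa
  split_ifs
  · push_cast [show l + cnt (tau nv) true x + 1 ≤ 2 * p x + cnt (tau nv) false x by omega]
    ring
  · push_cast [show cnt (tau nv) false x ≤ 2 * p x + (l + cnt (tau nv) true x) by omega]
    ring

theorem pos_add_one (hl : 1 ≤ l) (hmin : nv (Fin.last l) ≤ nv 0) {z : ℕ}
    (hz : er ((∑ i, nv i) + l + 2) (∑ i, nv i) ≤ z) (x : ℕ) (hx : x ≤ ∑ i, nv i) :
    (pos nv (z + 1) x : ℤ) = pos nv z x + cf nv x := by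
  induction x using Nat.strong_induction_on with
  | _ x ih =>
    rcases x with _ | x
    · rw [pos_zero, pos_zero, cf_zero]
      push_cast
      ring
    · obtain ⟨a1, -, -, a4⟩ := growth hl hmin hz x (by omega)
      obtain ⟨b1, -, -, b4⟩ := growth hl hmin (show er ((∑ i, nv i) + l + 2) (∑ i, nv i) ≤ z + 1 by
        omega) x (by omega)
      have hM := er_zero ((∑ i, nv i) + l + 2)
      have hm0 := er_mono ((∑ i, nv i) + l + 2) (Nat.zero_le (∑ i, nv i))
      have a5 := skip_cast (nv := nv) (p := pos nv z) (x := x) (by omega)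
      have b5 := skip_cast (nv := nv) (p := pos nv (z + 1)) (x := x) (by omega)
      rw [← a4] at a5
      rw [← b4] at b5
      push_cast at a5 b5
      have h1 := ih x (by omega) (by omega)
      have h2 : (lab nv (z + 1) x : ℤ) = lab nv z x +
          (if 2 ≤ (dec nv x).2 then cf nv (x - 1) else
            if (dec nv x).1 = Fin.last l then 1 else 0) := by
        unfold lab
        split_ifs with h3 h4
        · exact ih (x - 1) (by omega) (by omega)
        · rw [pos_zero, pos_zero]
          push_cast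
          ring
        · ring
      rw [cf_succ]
      linarith

theorem pos_add (hl : 1 ≤ l) (hmin : nv (Fin.last l) ≤ nv 0) {z : ℕ}
    (hz : er ((∑ i, nv i) + l + 2) (∑ i, nv i) ≤ z) (x : ℕ) (hx : x ≤ ∑ i, nv i) (k : ℕ) :
    (pos nv (z + k) x : ℤ) = pos nv z x + cf nv x * k := by
  induction k with
  | zero => simp
  | succ k ih =>
    rw [← Nat.add_assoc, pos_add_one hl hmin (by omega) x hx, ih]
    push_cast
    ring

/-- the coefficient in the component `i` -/
theorem cf_base_add (i : Fin (l + 1)) (f : ℕ) (h1 : f + 1 ≤ nv i) :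
    cf nv (base nv i + (f + 1)) = 2 * (f + 1) * cf nv (base nv i) -
      (if i = Fin.last l then 2 * (f : ℤ) + 1 else 0) := by
  induction f using Nat.strong_induction_on with
  | _ f ih =>
    have hd := (dec_base nv (i := i) (j := f) (by omega)).2
    rw [← Nat.add_assoc, cf_succ, hd]
    rcases f with _ | _ | f
    · rw [if_neg (show ¬ 2 ≤ ((i, 0) : Fin (l + 1) × ℕ).2 by simp)]
      push_cast
      simp only [Nat.add_zero]
    · rw [if_neg (show ¬ 2 ≤ ((i, 0 + 1) : Fin (l + 1) × ℕ).2 by simp)]
      have := ih 0 (by omega) (by omega)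
      rw [this]
      simp only
      split_ifs <;> push_cast <;> ring
    · rw [if_pos (show 2 ≤ ((i, f + 1 + 1) : Fin (l + 1) × ℕ).2 by simp)]
      have e1 := ih (f + 1) (by omega) (by omega)
      have e2 := ih f (by omega) (by omega)
      rw [show base nv i + (f + 1 + 1) - 1 = base nv i + (f + 1) by omega, e1, e2]
      split_ifs <;> push_cast <;> ring

theorem base_succ {j : ℕ} (h : j + 1 < l + 1) :
    base nv ⟨j + 1, h⟩ = base nv ⟨j, by omega⟩ + nv ⟨j, by omega⟩ := by
  unfold base
  rw [Fin.sum_univ_castSucc]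
  rfl

theorem cf_base (j : ℕ) (h : j < l + 1) :
    cf nv (base nv ⟨j, h⟩) = ∏ a : Fin j, ((max 1 (2 * nv (Fin.castLE h.le a)) : ℕ) : ℤ) := by
  induction j with
  | zero =>
    have h0 : base nv ⟨0, h⟩ = 0 := by
      unfold base
      simp
    rw [h0, cf_zero]
    simp
  | succ j ih =>
    have h1 := ih (by omega)
    rw [base_succ h, Fin.prod_univ_castSucc]
    have e2 : (∏ a : Fin j, ((max 1 (2 * nv (Fin.castLE h.le a.castSucc)) : ℕ) : ℤ)) =
        cf nv (base nv ⟨j, by omega⟩) := by
      rw [h1]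
      rfl
    rw [e2]
    have e3 : nv (Fin.castLE h.le (Fin.last j)) = nv ⟨j, by omega⟩ := rfl
    rw [e3]
    rcases Nat.eq_zero_or_pos (nv ⟨j, by omega⟩) with h3 | h3
    · rw [h3]
      simp
    · obtain ⟨g, hg⟩ : ∃ g, nv ⟨j, by omega⟩ = g + 1 := ⟨nv ⟨j, by omega⟩ - 1, by omega⟩
      have h4 := cf_base_add (nv := nv) ⟨j, by omega⟩ g (by omega)
      rw [if_neg (by
        intro h5
        have := congrArg Fin.val h5
        simp only [Fin.val_last] at this
        omega)] at h4
      rw [hg, h4, max_eq_right (by omega)]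
      push_cast
      ring

theorem cf_last : 1 ≤ cf nv (∑ i, nv i) ∧
    cf nv (∑ i, nv i) ≤ ((∏ i, max 1 (2 * nv i) : ℕ) : ℤ) := by
  have hb := cf_base (nv := nv) l (by omega)
  have e0 : (⟨l, by omega⟩ : Fin (l + 1)) = Fin.last l := rfl
  rw [e0] at hb
  have e1 : (∑ i, nv i) = base nv (Fin.last l) + nv (Fin.last l) := by
    rw [Fin.sum_univ_castSucc]
    rfl
  have e2 : ((∏ i, max 1 (2 * nv i) : ℕ) : ℤ) =
      cf nv (base nv (Fin.last l)) * ((max 1 (2 * nv (Fin.last l)) : ℕ) : ℤ) := by
    rw [Fin.prod_univ_castSucc, hb]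
    push_cast
    rfl
  have e3 : 1 ≤ cf nv (base nv (Fin.last l)) := by
    rw [hb]
    have : (1 : ℕ) ≤ ∏ a : Fin l, max 1 (2 * nv (Fin.castLE (by omega : l ≤ l + 1) a)) :=
      Finset.one_le_prod' fun _ _ => le_max_left _ _
    exact_mod_cast this
  rw [e1, e2]
  rcases Nat.eq_zero_or_pos (nv (Fin.last l)) with h3 | h3
  · rw [h3]
    simpa using e3
  · obtain ⟨g, hg⟩ : ∃ g, nv (Fin.last l) = g + 1 := ⟨nv (Fin.last l) - 1, by omega⟩
    have h4 := cf_base_add (nv := nv) (Fin.last l) g (by omega)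
    rw [if_pos rfl] at h4
    rw [hg, h4, max_eq_right (by omega)]
    push_cast
    constructor
    · nlinarith
    · nlinarith

end

end Pool.Agent.H89LinF
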