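import Mathlib

/-!
# Rows and columns of the long path

`τ : ℕ → Bool` and `pos : ℕ → ℕ` describe the rows (`τ = true`) and columns (`τ = false`) which are
left out by the long path; `cnt τ b i` counts the left out lines of kind `b` with index `< i`.
-/

set_option autoImplicit false

namespace Pool.Agent.H89LinF

open Finset

/-- the number of `j < i` with `τ j = b` -/
def cnt (τ : ℕ → Bool) (b : Bool) (i : ℕ) : ℕ := ((range i).filter (fun j => τ j = b)).card

theorem cnt_succ (τ : ℕ → Bool) (b : Bool) (i : ℕ) :
    cnt τ b (i + 1) = cnt τ b i + (if τ i = b then 1 else 0) := by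
  unfold cnt
  rw [range_add_one, filter_insert]
  split_ifs with h
  · rw [card_insert_of_notMem (by simp)]
  · rfl

theorem cnt_le (τ : ℕ → Bool) (b : Bool) (i : ℕ) : cnt τ b i ≤ i := by
  unfold cnt
  exact (card_filter_le _ _).trans (by simp)

theorem cnt_mono (τ : ℕ → Bool) (b : Bool) {i j : ℕ} (h : i ≤ j) : cnt τ b i ≤ cnt τ b j := by
  unfold cnt
  exact card_le_card (filter_subset_filter _ (by simpa using h))

theorem cnt_add_le (τ : ℕ → Bool) (b : Bool) (i d : ℕ) : cnt τ b (i + d) ≤ cnt τ b i + d := by
  induction d with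
  | zero => simp
  | succ d ih =>
    rw [← Nat.add_assoc, cnt_succ]
    split_ifs <;> omega

theorem cnt_add (τ : ℕ → Bool) (i : ℕ) : cnt τ true i + cnt τ false i = i := by
  induction i with
  | zero => simp [cnt]
  | succ i ih =>
    rw [cnt_succ, cnt_succ]
    rcases h : τ i <;> simp <;> omega

/-- the `t`-th line (row or column, from `t = 0`) used by the long path -/
def line (K : ℕ) (τ : ℕ → Bool) (pos : ℕ → ℕ) (b : Bool) (off t : ℕ) : ℕ :=
  t + 1 + off + ((range (K + 1)).filter
    (fun j => τ j = b ∧ pos j ≤ t + 1 + off + cnt τ b j)).card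

variable {K : ℕ} {τ : ℕ → Bool} {pos : ℕ → ℕ} {b : Bool} {off : ℕ}

theorem line_strictMono : StrictMono (line K τ pos b off) := by
  refine strictMono_nat_of_lt_succ fun t => ?_
  unfold line
  have : ((range (K + 1)).filter (fun j => τ j = b ∧ pos j ≤ t + 1 + off + cnt τ b j)).card ≤
      ((range (K + 1)).filter (fun j => τ j = b ∧ pos j ≤ t + 1 + 1 + off + cnt τ b j)).card := by
    refine card_le_card fun j hj => ?_
    rw [mem_filter] at hj ⊢
    exact ⟨hj.1, hj.2.1, by omega⟩
  omega

theorem le_line (t : ℕ) : t + 1 + off ≤ line K τ pos b off t := by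
  unfold line
  omega

/-- the value of `line` in a window -/
theorem line_eq {t i : ℕ} (hi : i ≤ K + 1)
    (h1 : ∀ j < i, τ j = b → pos j ≤ t + 1 + off + cnt τ b j)
    (h2 : ∀ j, i ≤ j → j ≤ K → τ j = b → t + 1 + off + cnt τ b j < pos j) :
    line K τ pos b off t = t + 1 + off + cnt τ b i := by
  unfold line
  congr 1
  unfold cnt
  congr 1
  ext j
  rw [mem_filter, mem_filter, mem_range, mem_range]
  constructor
  · rintro ⟨h3, h4, h5⟩
    refine ⟨?_, h4⟩
    by_contra h6
    have h7 := h2 j (by omega) (by omega) h4
    unfold cnt at h7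
    omega
  · rintro ⟨h3, h4⟩
    refine ⟨by omega, h4, ?_⟩
    have := h1 j h3 h4
    unfold cnt at this
    exact this

/-- the gaps between the left out lines are large -/
def Gaps (K G : ℕ) (pos : ℕ → ℕ) : Prop := ∀ x < K, pos x + G ≤ pos (x + 1)

theorem Gaps.lt {G : ℕ} (h : Gaps K G pos) {i d : ℕ} (hd : i + d + 1 ≤ K) :
    pos i + G + d ≤ pos (i + d + 1) ∨ G = 0 := by
  rcases Nat.eq_zero_or_pos G with h0 | h0
  · exact Or.inr h0
  left
  induction d with
  | zero => exact h i (by omega)
  | succ d ih =>
    have h1 := ih (by omega)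
    have h2 := h (i + d + 1) (by omega)
    have h3 : i + (d + 1) + 1 = i + d + 1 + 1 := by omega
    rw [h3]
    omega

theorem Gaps.le {G : ℕ} (h : Gaps K G pos) (hG : 0 < G) {i j : ℕ} (hij : i < j) (hj : j ≤ K) :
    pos i + G + (j - i - 1) ≤ pos j := by
  obtain ⟨d, rfl⟩ : ∃ d, j = i + d + 1 := ⟨j - i - 1, by omega⟩
  rcases h.lt (i := i) (d := d) hj with h1 | h1
  · have : i + d + 1 - i - 1 = d := by omega
    rw [this]
    exact h1
  · omega

/-- the lines of the long path are not left out -/
theorem line_ne {G : ℕ} (h : Gaps K G pos) (hG : K < G) {t j : ℕ} (hj : j ≤ K) (hτ : τ j = b) :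
    line K τ pos b off t ≠ pos j := by
  intro he
  rcases le_or_gt (pos j) (t + 1 + off + cnt τ b j) with h1 | h1
  · have h2 : cnt τ b (j + 1) ≤ ((range (K + 1)).filter
        (fun j => τ j = b ∧ pos j ≤ t + 1 + off + cnt τ b j)).card := by
      refine card_le_card fun i hi => ?_
      rw [mem_filter, mem_range] at hi ⊢
      refine ⟨by omega, hi.2, ?_⟩
      rcases Nat.lt_or_ge i j with h3 | h3
      · have h4 := h.le (by omega) h3 hj
        have h5 := cnt_add_le τ b i (j - i)
        rw [show i + (j - i) = j by omega] at h5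
        omega
      · rw [show i = j by omega]
        exact h1
    rw [cnt_succ, if_pos hτ] at h2
    unfold line at he
    omega
  · have h2 : ((range (K + 1)).filter
        (fun j => τ j = b ∧ pos j ≤ t + 1 + off + cnt τ b j)).card ≤ cnt τ b j := by
      refine card_le_card fun i hi => ?_
      rw [mem_filter, mem_range] at hi ⊢
      refine ⟨?_, hi.2.1⟩
      by_contra h3
      rcases Nat.eq_or_lt_of_not_lt h3 with h4 | h4
      · rw [h4] at hi
        omega
      · have h5 := h.le (by omega) h4 (by omega : i ≤ K)
        have h6 := cnt_add_le τ b j (i - j)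
        rw [show j + (i - j) = i by omega] at h6
        omega
    unfold line at he
    omega

/-- The sum of the edge number `s` of the long path. -/
def hh (K : ℕ) (τ : ℕ → Bool) (pos : ℕ → ℕ) (α s : ℕ) : ℕ :=
  if s % 2 = 0 then line K τ pos true α (s / 2) + line K τ pos false 0 (s / 2)
  else line K τ pos true α (s / 2 + 1) + line K τ pos false 0 (s / 2)

theorem hh_strictMono {α : ℕ} : StrictMono (hh K τ pos α) := by
  refine strictMono_nat_of_lt_succ fun s => ?_
  unfold hh
  rcases Nat.mod_two_eq_zero_or_one s with h | h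
  · rw [if_pos h, if_neg (by omega), show (s + 1) / 2 = s / 2 by omega]
    have := line_strictMono (K := K) (τ := τ) (pos := pos) (b := true) (off := α)
      (Nat.lt_add_one (s / 2))
    omega
  · rw [if_neg (by omega), if_pos (by omega), show (s + 1) / 2 = s / 2 + 1 by omega]
    have := line_strictMono (K := K) (τ := τ) (pos := pos) (b := false) (off := 0)
      (Nat.lt_add_one (s / 2))
    omega

/-- The sum which the long path skips at the left out line `x`. -/
def skip (τ : ℕ → Bool) (pos : ℕ → ℕ) (α x : ℕ) : ℕ :=
  if τ x = true then 2 * pos x + cnt τ false x - (α + cnt τ true x + 1)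
  else 2 * pos x + (α + cnt τ true x) - cnt τ false x

/-- The skipped sum lies strictly between two consecutive sums of the long path. -/
theorem skip_between {G α : ℕ} (h : Gaps K G pos) (hG : K + α + 4 ≤ G) (h0 : G ≤ pos 0) {x : ℕ}
    (hx : x ≤ K) : ∃ s, hh K τ pos α s < skip τ pos α x ∧ skip τ pos α x < hh K τ pos α (s + 1) := by
  have hpx : G ≤ pos x := by
    rcases Nat.eq_zero_or_pos x with h1 | h1
    · rw [h1]
      exact h0
    · have := h.le (by omega) h1 hx
      omega
  have ct := cnt_le τ true x
  have cf := cnt_le τ false x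
  -- facts on the other left out lines
  have lo : ∀ b : Bool, ∀ j < x, pos j + G ≤ pos x ∧ cnt τ b j ≤ cnt τ b x ∧
      cnt τ b x ≤ cnt τ b j + (x - j) := by
    intro b j hj
    have h1 := h.le (by omega) hj hx
    have h2 := cnt_add_le τ b j (x - j)
    rw [show j + (x - j) = x by omega] at h2
    exact ⟨by omega, cnt_mono τ b hj.le, h2⟩
  have hi : ∀ b : Bool, ∀ j, x < j → j ≤ K → pos x + G ≤ pos j ∧ cnt τ b j ≤ K := by
    intro b j hj hjK
    have h1 := h.le (by omega) hj hjK
    exact ⟨by omega, (cnt_le τ b j).trans hjK⟩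
  rcases hτ : τ x with _ | _
  · -- a column
    have hs : skip τ pos α x = 2 * pos x + (α + cnt τ true x) - cnt τ false x := by
      unfold skip
      rw [if_neg (by rw [hτ]; decide)]
    obtain ⟨t, ht⟩ : ∃ t, t + 2 + cnt τ false x = pos x := ⟨pos x - 2 - cnt τ false x, by omega⟩
    have e1 : line K τ pos false 0 t = t + 1 + 0 + cnt τ false x := by
      refine line_eq (by omega) (fun j hj _ => ?_) (fun j hj hjK _ => ?_)
      · have := lo false j hj
        omega
      · rcases Nat.eq_or_lt_of_le hj with h1 | h1
        · rw [← h1]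
          omega
        · have := hi false j h1 hjK
          omega
    have e2 : line K τ pos false 0 (t + 1) = t + 1 + 1 + 0 + cnt τ false (x + 1) := by
      refine line_eq (by omega) (fun j hj _ => ?_) (fun j hj hjK _ => ?_)
      · rcases Nat.eq_or_lt_of_le (Nat.lt_succ_iff.1 hj) with h1 | h1
        · rw [h1]
          omega
        · have := lo false j h1
          omega
      · have := hi false j (by omega) hjK
        omega
    have e3 : line K τ pos true α (t + 1) = t + 1 + 1 + α + cnt τ true x := by
      refine line_eq (by omega) (fun j hj _ => ?_) (fun j hj hjK hj2 => ?_)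
      · have := lo true j hj
        omega
      · rcases Nat.eq_or_lt_of_le hj with h1 | h1
        · rw [← h1, hτ] at hj2
          exact absurd hj2 (by decide)
        · have := hi true j h1 hjK
          omega
    rw [cnt_succ, if_pos hτ] at e2
    refine ⟨2 * t + 1, ?_, ?_⟩
    · unfold hh
      rw [if_neg (by omega), show (2 * t + 1) / 2 = t by omega, e1, e3, hs]
      omega
    · unfold hh
      rw [if_pos (by omega), show (2 * t + 1 + 1) / 2 = t + 1 by omega, e2, e3, hs]
      omega
  · -- a row
    have hs : skip τ pos α x = 2 * pos x + cnt τ false x - (α + cnt τ true x + 1) := by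
      unfold skip
      rw [if_pos hτ]
    obtain ⟨t, ht⟩ : ∃ t, t + 2 + α + cnt τ true x = pos x :=
      ⟨pos x - 2 - α - cnt τ true x, by omega⟩
    have e1 : line K τ pos true α t = t + 1 + α + cnt τ true x := by
      refine line_eq (by omega) (fun j hj _ => ?_) (fun j hj hjK _ => ?_)
      · have := lo true j hj
        omega
      · rcases Nat.eq_or_lt_of_le hj with h1 | h1
        · rw [← h1]
          omega
        · have := hi true j h1 hjK
          omega
    have e2 : line K τ pos true α (t + 1) = t + 1 + 1 + α + cnt τ true (x + 1) := by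
      refine line_eq (by omega) (fun j hj _ => ?_) (fun j hj hjK _ => ?_)
      · rcases Nat.eq_or_lt_of_le (Nat.lt_succ_iff.1 hj) with h1 | h1
        · rw [h1]
          omega
        · have := lo true j h1
          omega
      · have := hi true j (by omega) hjK
        omega
    have e3 : line K τ pos false 0 t = t + 1 + 0 + cnt τ false x := by
      refine line_eq (by omega) (fun j hj _ => ?_) (fun j hj hjK hj2 => ?_)
      · have := lo false j hj
        omega
      · rcases Nat.eq_or_lt_of_le hj with h1 | h1
        · rw [← h1, hτ] at hj2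
          exact absurd hj2 (by decide)
        · have := hi false j h1 hjK
          omega
    rw [cnt_succ, if_pos hτ] at e2
    refine ⟨2 * t, ?_, ?_⟩
    · unfold hh
      rw [if_pos (by omega), show (2 * t) / 2 = t by omega, e1, e3, hs]
      omega
    · unfold hh
      rw [if_neg (by omega), show (2 * t + 1) / 2 = t by omega, e2, e3, hs]
      omega

end Pool.Agent.H89LinF
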