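import Mathlib

/-!
# Linear forests and special super edge-magic labelings
-/

set_option autoImplicit false

namespace Pool.Agent.H89LinF

/-- The linear forest whose components are paths with `n i` vertices, `i : ι`: the vertices are
the pairs `⟨i, j⟩` with `j < n i`, and `⟨i, j⟩` is adjacent to `⟨i, j + 1⟩`. -/
def linForest {ι : Type*} (n : ι → ℕ) : SimpleGraph (Σ i, Fin (n i)) where
  Adj u v := u.1 = v.1 ∧ ((u.2 : ℕ) + 1 = v.2 ∨ (v.2 : ℕ) + 1 = u.2)
  symm := ⟨fun _ _ h => ⟨h.1.symm, h.2.symm⟩⟩
  loopless := ⟨fun _ h => by rcases h.2 with h | h <;> omega⟩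

/-- The sum `f u + f v` of the labels of the end vertices of the edge `uv`. -/
def edgeSum {V : Type*} (f : V → ℕ) (e : Sym2 V) : ℕ :=
  Sym2.lift ⟨fun u v => f u + f v, fun u v => Nat.add_comm (f u) (f v)⟩ e

/-- `f` is a special super edge-magic labeling of `G` with respect to the partition of the vertex
set into `V₁` and its complement: `f` maps the vertices bijectively onto `{1, ..., p}`, the two
parts are stable, `V₁` gets the labels `1, ..., |V₁|`, and `f u + f v`, over the `q` edges `uv`,
takes `q` consecutive values, each of them once. -/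
structure IsSpecialLabeling {V : Type*} [Fintype V] (G : SimpleGraph V) (V₁ : Set V)
    (f : V → ℕ) : Prop where
  bij : Set.BijOn f Set.univ (Set.Icc 1 (Fintype.card V))
  stable : ∀ u v, G.Adj u v → (u ∈ V₁ ↔ v ∉ V₁)
  first : f '' V₁ = Set.Icc 1 V₁.ncard
  sums : ∃ s, Set.BijOn (edgeSum f) G.edgeSet (Set.Ico s (s + G.edgeSet.ncard))

/-- `G` is special super edge-magic. -/
def SpecialSEM {V : Type*} [Fintype V] (G : SimpleGraph V) : Prop :=
  ∃ (V₁ : Set V) (f : V → ℕ), IsSpecialLabeling G V₁ f

end Pool.Agent.H89LinF
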