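import Pool.Agent.H89LinF.Lists

/-!
# Full blocks: Hamiltonian paths of an interval in which every odd sum occurs once
-/

set_option autoImplicit false

namespace Pool.Agent.H89LinF

/-- `L` lists `0, ..., n - 1`, its sums of consecutive entries are `1, 3, ..., 2 n - 3`, it starts
with `e` and ends with `n - 1 - e` -/
structure Full (n e : ℕ) (L : List ℕ) : Prop where
  v : (L : Multiset ℕ) = Iv 0 n
  s : ES L = Od 0 (n - 1)
  h : L.head? = some e
  l : L.getLast? = some (n - 1 - e)

theorem Full.rev {n e : ℕ} {L : List ℕ} (h : Full n e L) (he : e < n) :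
    Full n (n - 1 - e) L.reverse := by
  refine ⟨?_, ?_, ?_, ?_⟩
  · rw [Multiset.coe_reverse]
    exact h.v
  · rw [ES_reverse]
    exact h.s
  · rw [List.head?_reverse]
    exact h.l
  · rw [List.getLast?_reverse, h.h]
    congr 1
    omega

theorem head_append {L₁ L₂ : List ℕ} {a : ℕ} (h : L₁.head? = some a) :
    (L₁ ++ L₂).head? = some a := by
  cases L₁ with
  | nil => simp at h
  | cons b t => simpa using h

theorem last_append {L₁ L₂ : List ℕ} {a : ℕ} (h : L₂.getLast? = some a) :
    (L₁ ++ L₂).getLast? = some a := by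
  rw [List.getLast?_append, h]
  rfl

theorem head_shift {L : List ℕ} {a : ℕ} (c : ℕ) (h : L.head? = some a) :
    (L.map (· + c)).head? = some (a + c) := by
  rw [List.head?_map, h]
  rfl

theorem last_shift {L : List ℕ} {a : ℕ} (c : ℕ) (h : L.getLast? = some a) :
    (L.map (· + c)).getLast? = some (a + c) := by
  rw [List.getLast?_map, h]
  rfl

theorem Full.join {c m e : ℕ} {L₁ L₂ : List ℕ} (h1 : Full c e L₁) (h2 : Full m e L₂)
    (hc : e < c) (hm : e < m) : Full (c + m) e (L₁ ++ L₂.map (· + c)) := by
  refine ⟨?_, ?_, head_append h1.h, ?_⟩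
  · rw [← Multiset.coe_add, ← Multiset.map_coe, h1.v, h2.v, Iv_shift, Iv_add]
  · rw [ES_append L₁ h1.l (head_shift c h2.h), ES_shift, h1.s, h2.s, Od_shift]
    have e1 : c + m - 1 = (c - 1) + (1 + (m - 1)) := by omega
    rw [e1, Od_add, Od_add, Od_one]
    have e2 : c - 1 - e + (e + c) = 2 * (0 + (c - 1)) + 1 := by omega
    have e3 : 0 + (c - 1) + 1 = 0 + c := by omega
    rw [e2, e3, Multiset.singleton_add]
  · rw [last_append (last_shift c h2.l)]
    congr 1
    omega

theorem fill : ∀ n e : ℕ, e < n → (n % 2 = 1 → e % 2 = 0) → (2 * e + 1 ≠ n ∨ n = 1) →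
    ∃ L, Full n e L := by
  intro n
  induction n using Nat.strong_induction_on with
  | _ n ih =>
    intro e he hp hc
    by_cases hn : n = 1
    · subst hn
      obtain rfl : e = 0 := by omega
      exact ⟨[0], by simp [Iv], by simp [ES, Od], by simp, by simp⟩
    · have hlow : ∀ e, 2 * e + 1 < n → (n % 2 = 1 → e % 2 = 0) → ∃ L, Full n e L := by
        intro e he hp
        by_cases h3 : n = 3 * e + 2 ∧ 1 ≤ e
        · obtain ⟨h3, h4⟩ := h3
          obtain ⟨L₁, h1⟩ := ih (e + 2) (by omega) e (by omega) (by omega) (by omega)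
          obtain ⟨L₂, h2⟩ := ih (2 * e) (by omega) e (by omega) (by omega) (by omega)
          have h5 := h1.join h2 (by omega) (by omega)
          rw [show e + 2 + 2 * e = n by omega] at h5
          exact ⟨_, h5⟩
        · obtain ⟨L₁, h1⟩ := ih (e + 1) (by omega) e (by omega) (by omega) (by omega)
          obtain ⟨L₂, h2⟩ := ih (n - (e + 1)) (by omega) e (by omega) (by omega) (by omega)
          have h5 := h1.join h2 (by omega) (by omega)
          rw [show e + 1 + (n - (e + 1)) = n by omega] at h5
          exact ⟨_, h5⟩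
      by_cases h4 : 2 * e + 1 < n
      · exact hlow e h4 hp
      · obtain ⟨L, hL⟩ := hlow (n - 1 - e) (by omega) (by omega)
        have h5 := hL.rev (by omega)
        rw [show n - 1 - (n - 1 - e) = e by omega] at h5
        exact ⟨_, h5⟩

end Pool.Agent.H89LinF
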