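import Pool.Agent.H89LinF.Coef

/-!
# One long path makes every linear forest special super edge-magic
-/

set_option autoImplicit false

namespace Pool.Agent.H89LinF

open Finset

/-- invariance under isomorphism -/
theorem SpecialSEM.iso {V W : Type*} [Fintype V] [Fintype W] {G : SimpleGraph V}
    {H : SimpleGraph W} (e : G ≃g H) (h : SpecialSEM G) : SpecialSEM H := by
  obtain ⟨V₁, f, hb, hs, hf, s, hsum⟩ := h
  have hcard : Fintype.card W = Fintype.card V := (Fintype.card_congr e.toEquiv).symm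
  have hmap : ∀ x : Sym2 W, edgeSum (fun w => f (e.symm w)) x =
      edgeSum f (Sym2.map e.symm x) := by
    intro x
    induction x with
    | _ u v => rfl
  have hedge : Sym2.map e.symm '' H.edgeSet = G.edgeSet := by
    ext x
    constructor
    · rintro ⟨y, hy, rfl⟩
      induction y with
      | _ u v =>
        rw [Sym2.map_mk, SimpleGraph.mem_edgeSet]
        rw [SimpleGraph.mem_edgeSet] at hy
        exact e.symm.map_rel_iff.2 hy
    · intro hx
      induction x with
      | _ u v =>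
        refine ⟨s(e u, e v), ?_, ?_⟩
        · rw [SimpleGraph.mem_edgeSet] at hx ⊢
          exact e.map_rel_iff.2 hx
        · rw [Sym2.map_mk]
          simp
  have hmi : Function.Injective (Sym2.map e.symm : Sym2 W → Sym2 V) :=
    Sym2.map.injective e.symm.injective
  have hnc : H.edgeSet.ncard = G.edgeSet.ncard := by
    rw [← hedge, Set.ncard_image_of_injective _ hmi]
  have himg : (e.symm : W → V) '' (e.symm ⁻¹' V₁) = V₁ :=
    Set.image_preimage_eq _ e.symm.surjective
  have hn1 : ((e.symm : W → V) ⁻¹' V₁).ncard = V₁.ncard := by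
    rw [← Set.ncard_image_of_injective _ e.symm.injective, himg]
  refine ⟨e.symm ⁻¹' V₁, fun w => f (e.symm w), ?_, ?_, ?_, s, ?_⟩
  · rw [hcard]
    refine ⟨fun w _ => hb.mapsTo (Set.mem_univ _), fun u _ v _ huv => ?_, fun t ht => ?_⟩
    · exact e.symm.injective (hb.injOn (Set.mem_univ _) (Set.mem_univ _) huv)
    · obtain ⟨v, -, rfl⟩ := hb.surjOn ht
      exact ⟨e v, Set.mem_univ _, by simp⟩
  · intro u v huv
    exact hs _ _ (e.symm.map_rel_iff.2 huv)
  · rw [hn1, ← hf]
    conv_rhs => rw [← himg]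
    rw [Set.image_image]
  · rw [hnc]
    refine ⟨fun x hx => ?_, fun x hx y hy hxy => ?_, fun t ht => ?_⟩
    · rw [hmap]
      exact hsum.mapsTo (hedge ▸ Set.mem_image_of_mem _ hx)
    · rw [hmap, hmap] at hxy
      exact hmi (hsum.injOn (hedge ▸ Set.mem_image_of_mem _ hx)
        (hedge ▸ Set.mem_image_of_mem _ hy) hxy)
    · obtain ⟨y, hy, rfl⟩ := hsum.surjOn ht
      rw [← hedge] at hy
      obtain ⟨x, hx, rfl⟩ := hy
      exact ⟨x, hx, hmap x⟩

/-- the order of the components does not matter -/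
def permIso {ι : Type*} (n : ι → ℕ) (σ : ι ≃ ι) :
    linForest (fun i => n (σ i)) ≃g linForest n where
  toEquiv := Equiv.sigmaCongrLeft (β := fun i => Fin (n i)) σ
  map_rel_iff' := by
    rintro ⟨i, q⟩ ⟨j, q'⟩
    constructor
    · rintro ⟨h1, h2⟩
      exact ⟨σ.injective h1, h2⟩
    · rintro ⟨h1, h2⟩
      exact ⟨congrArg σ h1, h2⟩

/-- the theorem for the good order -/
theorem main_ordered {l : ℕ} (hl : 1 ≤ l) (n : Fin (l + 1) → ℕ) (hn : ∀ i, 1 ≤ n i)
    (hmin : n (Fin.last l) ≤ n 0) :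
    ∃ r c : ℕ, 1 ≤ r ∧ 1 ≤ c ∧ c ≤ ∏ i, max 1 (2 * (n i - 1)) ∧
      ∀ N k : ℕ, (N = r + 2 * c * k ∨ N = r + 2 * c * k + 1) →
        SpecialSEM (linForest (Fin.cons N n : Fin (l + 2) → ℕ)) := by
  obtain ⟨nv, hnv⟩ : ∃ nv : Fin (l + 1) → ℕ, nv = fun i => n i - 1 := ⟨_, rfl⟩
  have hmin' : nv (Fin.last l) ≤ nv 0 := by
    rw [hnv]
    change n (Fin.last l) - 1 ≤ n 0 - 1
    omega
  have hnv' : ∀ i, n i - 1 = nv i := fun i => by rw [hnv]
  obtain ⟨z, hz⟩ : ∃ z, z = er ((∑ i, nv i) + l + 2) (∑ i, nv i) +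
      (2 * ((∑ i, nv i) + l) + 10) := ⟨_, rfl⟩
  obtain ⟨h1, h2⟩ := cf_last (nv := nv)
  obtain ⟨c, hc⟩ : ∃ c : ℕ, (c : ℤ) = cf nv (∑ i, nv i) :=
    ⟨(cf nv (∑ i, nv i)).toNat, Int.toNat_of_nonneg (by omega)⟩
  have hpos : ∀ k : ℕ, pos nv (z + k) (∑ i, nv i) = pos nv z (∑ i, nv i) + c * k := by
    intro k
    have := pos_add (nv := nv) hl hmin' (z := z) (by omega) (∑ i, nv i) le_rfl k
    rw [← hc] at this
    exact_mod_cast this
  have hlow : z ≤ pos nv z (∑ i, nv i) := by
    rcases Nat.eq_zero_or_pos (∑ i, nv i) with h0 | h0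
    · rw [h0, pos_zero]
    · obtain ⟨x, hx⟩ : ∃ x, (∑ i, nv i) = x + 1 := ⟨(∑ i, nv i) - 1, by omega⟩
      obtain ⟨-, -, a3, -⟩ := growth (nv := nv) hl hmin' (z := z) (by omega) x (by omega)
      obtain ⟨a1, -, -, -⟩ := growth (nv := nv) hl hmin' (z := z) (by omega) x (by omega)
      have hm := er_mono ((∑ i, nv i) + l + 2) (show x ≤ ∑ i, nv i by omega)
      rw [← hx] at a3
      omega
  have cT := cnt_le (tau nv) true (∑ i, nv i)
  have cF := cnt_le (tau nv) false (∑ i, nv i)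
  have hK0 : er ((∑ i, nv i) + l + 2) (∑ i, nv i) + (2 * ((∑ i, nv i) + l) + 10) ≤ z := by omega
  have hfin : ∀ N k : ℕ, Top l (∑ i, nv i) (tau nv) (pos nv (z + k)) N →
      SpecialSEM (linForest (Fin.cons N n : Fin (l + 2) → ℕ)) := by
    intro N k ht
    subst hnv
    exact special_of_top hl n hn hmin (z := z + k) (hK0.trans (Nat.le_add_right z k)) ht
  have hprod : ((∏ i, max 1 (2 * (n i - 1)) : ℕ)) = ∏ i, max 1 (2 * nv i) := by
    simp only [hnv']
  rcases hτ : tau nv (∑ i, nv i) with _ | _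
  · refine ⟨2 * (pos nv z (∑ i, nv i) - cnt (tau nv) false (∑ i, nv i) - 1), c, ?_, ?_, ?_, ?_⟩
    · omega
    · omega
    · rw [hprod]
      have : (c : ℤ) ≤ ((∏ i, max 1 (2 * nv i) : ℕ) : ℤ) := by
        rw [hc]
        exact h2
      exact_mod_cast this
    · intro N k hN
      refine hfin N k (Or.inr ⟨hτ, ?_⟩)
      rw [hpos k]
      have : 2 * c * k = 2 * (c * k) := by ring
      rw [this] at hN
      omega
  · refine ⟨2 * (pos nv z (∑ i, nv i) - l - cnt (tau nv) true (∑ i, nv i) - 1) - 1, c,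
      ?_, ?_, ?_, ?_⟩
    · omega
    · omega
    · rw [hprod]
      have : (c : ℤ) ≤ ((∏ i, max 1 (2 * nv i) : ℕ) : ℤ) := by
        rw [hc]
        exact h2
      exact_mod_cast this
    · intro N k hN
      refine hfin N k (Or.inl ⟨hτ, ?_⟩)
      rw [hpos k]
      have : 2 * c * k = 2 * (c * k) := by ring
      rw [this] at hN
      omega

theorem main {m : ℕ} (hm : 2 ≤ m) (n : Fin m → ℕ) (hn : ∀ i, 1 ≤ n i) :
    ∃ r c : ℕ, 1 ≤ r ∧ 1 ≤ c ∧ c ≤ ∏ i, max 1 (2 * (n i - 1)) ∧
      ∀ N k : ℕ, (N = r + 2 * c * k ∨ N = r + 2 * c * k + 1) →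
        SpecialSEM (linForest (Fin.cons N n : Fin (m + 1) → ℕ)) := by
  obtain ⟨l, rfl⟩ : ∃ l, m = l + 1 := ⟨m - 1, by omega⟩
  obtain ⟨i₀, -, hi₀⟩ := Finset.exists_min_image (univ : Finset (Fin (l + 1))) n ⟨0, mem_univ _⟩
  obtain ⟨σ, hσ⟩ : ∃ σ : Fin (l + 1) ≃ Fin (l + 1), σ = Equiv.swap (Fin.last l) i₀ := ⟨_, rfl⟩
  obtain ⟨r, c, h1, h2, h3, h4⟩ := main_ordered (l := l) (by omega) (fun i => n (σ i))
    (fun i => hn _) (by
      rw [hσ, Equiv.swap_apply_left]
      exact hi₀ _ (mem_univ _))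
  refine ⟨r, c, h1, h2, ?_, fun N k hN => ?_⟩
  · rw [← Equiv.prod_comp σ]
    exact h3
  · have h5 := h4 N k hN
    -- the permutation of all the components
    let ρ : Fin (l + 2) ≃ Fin (l + 2) :=
      { toFun := Fin.cons 0 (fun i => (σ i).succ)
        invFun := Fin.cons 0 (fun i => (σ.symm i).succ)
        left_inv := by
          intro i
          induction i using Fin.cases with
          | zero => rfl
          | succ i => simp
        right_inv := by
          intro i
          induction i using Fin.cases with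
          | zero => rfl
          | succ i => simp }
    have h6 : (Fin.cons N (fun i => n (σ i)) : Fin (l + 2) → ℕ) =
        fun i => (Fin.cons N n : Fin (l + 2) → ℕ) (ρ i) := by
      funext i
      induction i using Fin.cases with
      | zero => rfl
      | succ i =>
        change n (σ i) = (Fin.cons N n : Fin (l + 2) → ℕ) (σ i).succ
        rw [Fin.cons_succ]
    have h7 : ∀ n' : Fin (l + 2) → ℕ, n' = (fun i => (Fin.cons N n : Fin (l + 2) → ℕ) (ρ i)) →
        SpecialSEM (linForest n') →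
        SpecialSEM (linForest (Fin.cons N n : Fin (l + 2) → ℕ)) := by
      rintro n' rfl h
      exact h.iso (permIso _ ρ)
    exact h7 _ h6 h5

end Pool.Agent.H89LinF
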