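import Pool.Agent.H89LinF.Assemble

/-!
# Isolated vertices on the free rows and columns
-/

set_option autoImplicit false

namespace Pool.Agent.H89LinF

open Finset

theorem assemble_iso {ι : Type} [Fintype ι] (n' : ι → ℕ) (s : ℕ) (gg : ι → ℕ → Bool × ℕ)
    (R C s0 : ℕ)
    (hinj : ∀ i j q q', q < n' i → q' < n' j → gg i q = gg j q' → i = j ∧ q = q')
    (hpos : ∀ i q, q < n' i → 1 ≤ (gg i q).2)
    (hR : ∀ i q, q < n' i → (gg i q).1 = true → (gg i q).2 ≤ R)
    (hC : ∀ i q, q < n' i → (gg i q).1 = false → (gg i q).2 ≤ C)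
    (hcard : ∑ i, n' i + s = R + C)
    (hbip : ∀ i q, q + 1 < n' i → (gg i q).1 ≠ (gg i (q + 1)).1)
    (hlo : ∀ i q, q + 1 < n' i → s0 ≤ (gg i q).2 + (gg i (q + 1)).2)
    (hhi : ∀ i q, q + 1 < n' i → (gg i q).2 + (gg i (q + 1)).2 < s0 + ∑ i, (n' i - 1))
    (hsinj : ∀ i j q q', q + 1 < n' i → q' + 1 < n' j →
      (gg i q).2 + (gg i (q + 1)).2 = (gg j q').2 + (gg j (q' + 1)).2 → i = j ∧ q = q') :
    SpecialSEM (linForest (Sum.elim n' (fun _ : Fin s => 1))) := by
  classical
  let g : (Σ i, Fin (n' i)) → Bool × ℕ := fun v => gg v.1 v.2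
  have ginj : Function.Injective g := by
    rintro ⟨i, q⟩ ⟨j, q'⟩ h
    obtain ⟨rfl, h2⟩ := hinj i j q q' q.2 q'.2 h
    have : q = q' := Fin.ext h2
    rw [this]
  let L : Finset (Bool × ℕ) :=
    (Icc 1 R).image (fun t => (true, t)) ∪ (Icc 1 C).image (fun t => (false, t))
  have hL : ∀ x : Bool × ℕ, x ∈ L ↔ 1 ≤ x.2 ∧ (x.1 = true → x.2 ≤ R) ∧ (x.1 = false → x.2 ≤ C) := by
    rintro ⟨b, t⟩
    rw [mem_union, mem_image, mem_image]
    cases b
    · simp
    · simp
  have hLc : L.card = R + C := by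
    rw [card_union_of_disjoint, card_image_of_injective, card_image_of_injective, Nat.card_Icc,
      Nat.card_Icc]
    · omega
    · exact fun a b h => (Prod.ext_iff.1 h).2
    · exact fun a b h => (Prod.ext_iff.1 h).2
    · rw [disjoint_left]
      intro x h1 h2
      rw [mem_image] at h1 h2
      obtain ⟨a, -, rfl⟩ := h1
      obtain ⟨b, -, h3⟩ := h2
      exact absurd (Prod.ext_iff.1 h3).1 (by simp)
  let U : Finset (Bool × ℕ) := univ.image g
  have hUL : U ⊆ L := by
    intro x hx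
    rw [mem_image] at hx
    obtain ⟨⟨i, q⟩, -, rfl⟩ := hx
    rw [hL]
    exact ⟨hpos i q q.2, hR i q q.2, hC i q q.2⟩
  have hUc : U.card = ∑ i, n' i := by
    rw [card_image_of_injective _ ginj, card_univ, Fintype.card_sigma]
    simp only [Fintype.card_fin]
  have hdc : (L \ U).card = s := by
    rw [card_sdiff_of_subset hUL, hLc, hUc]
    omega
  let e : (L \ U : Finset (Bool × ℕ)) ≃ Fin s := Finset.equivFinOfCardEq hdc
  have he : ∀ j : Fin s, ((e.symm j : (L \ U : Finset (Bool × ℕ))) : Bool × ℕ) ∈ L \ U :=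
    fun j => (e.symm j).2
  have hS : ∑ i : ι ⊕ Fin s, ((Sum.elim n' (fun _ : Fin s => 1) : ι ⊕ Fin s → ℕ) i - 1) =
      ∑ i, (n' i - 1) := by
    rw [Fintype.sum_sum_type]
    simp
  refine assemble (Sum.elim n' (fun _ : Fin s => 1))
    (Sum.elim gg (fun j _ => ((e.symm j : (L \ U : Finset (Bool × ℕ))) : Bool × ℕ)))
    R C s0 ?_ ?_ ?_ ?_ ?_ ?_ ?_ ?_ ?_
  · have hne : ∀ (i : ι) (q : ℕ) (j : Fin s), q < n' i →
        gg i q ≠ ((e.symm j : (L \ U : Finset (Bool × ℕ))) : Bool × ℕ) := by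
      intro i q j hq h
      have h1 := he j
      rw [mem_sdiff, ← h] at h1
      exact h1.2 (mem_image.2 ⟨⟨i, ⟨q, hq⟩⟩, mem_univ _, rfl⟩)
    rintro (i | i) (j | j) q q' hq hq' h
    · obtain ⟨rfl, h2⟩ := hinj i j q q' hq hq' h
      exact ⟨rfl, h2⟩
    · exact absurd h (hne i q j hq)
    · exact absurd h.symm (hne j q' i hq')
    · have h1 : e.symm i = e.symm j := Subtype.ext h
      have h2 := e.symm.injective h1
      simp only [Sum.elim_inr] at hq hq'
      exact ⟨by rw [h2], by omega⟩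
  · rintro (i | i) q hq
    · exact hpos i q hq
    · have h1 := he i
      rw [mem_sdiff, hL] at h1
      exact h1.1.1
  · rintro (i | i) q hq h
    · exact hR i q hq h
    · have h1 := he i
      rw [mem_sdiff, hL] at h1
      exact h1.1.2.1 h
  · rintro (i | i) q hq h
    · exact hC i q hq h
    · have h1 := he i
      rw [mem_sdiff, hL] at h1
      exact h1.1.2.2 h
  · rw [Fintype.sum_sum_type]
    simpa using hcard
  · rintro (i | i) q hq
    · exact hbip i q hq
    · simp only [Sum.elim_inr] at hq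
      omega
  · rintro (i | i) q hq
    · exact hlo i q hq
    · simp only [Sum.elim_inr] at hq
      omega
  · rw [hS]
    rintro (i | i) q hq
    · exact hhi i q hq
    · simp only [Sum.elim_inr] at hq
      omega
  · rintro (i | i) (j | j) q q' hq hq' h
    · obtain ⟨rfl, h2⟩ := hsinj i j q q' hq hq' h
      exact ⟨rfl, h2⟩
    · simp only [Sum.elim_inr] at hq'
      omega
    · simp only [Sum.elim_inr] at hq
      omega
    · simp only [Sum.elim_inr] at hq
      omega

end Pool.Agent.H89LinF
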