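import Pool.Agent.H89LinF.Fill

/-!
# A linear forest and one sufficiently long path
-/

set_option autoImplicit false

namespace Pool.Agent.H89LinF

open Finset

/-- a layout of a long path `L`, starting at position `0`, and of the components in `F`, of orders
`ns`, on the positions `0, ..., T - 1`, the sums being `2 k + 1`, `ns.length ≤ k ≤ T - 2` -/
structure St (T : ℕ) (ns : List ℕ) (L : List ℕ) (F : List (List ℕ)) : Prop where
  len : F.map List.length = ns
  v : (L : Multiset ℕ) + (F.flatten : Multiset ℕ) = Iv 0 T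
  s : ES L + (F.map ES).sum = Od ns.length (T - 1 - ns.length)
  h : L.head? = some 0
  r : ns.length + 1 ≤ T

theorem range_v (a n : ℕ) : ((List.range' a n : List ℕ) : Multiset ℕ) = Iv a n := by
  unfold Iv
  rw [← Multiset.coe_range, Multiset.map_coe, List.range'_eq_map_range]

theorem ES_range (a n : ℕ) : ES (List.range' a n) = Od a (n - 1) := by
  rw [ES_eq_range, List.length_range']
  unfold Od
  refine Multiset.map_congr rfl fun x hx => ?_
  rw [Multiset.mem_range] at hx
  rw [List.getD_eq_getElem _ _ (by rw [List.length_range']; omega),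
    List.getD_eq_getElem _ _ (by rw [List.length_range']; omega), List.getElem_range',
    List.getElem_range']
  omega

theorem sum_shift (F : List (List ℕ)) (c : ℕ) :
    ((F.map (List.map (· + c))).map ES).sum = ((F.map ES).sum).map (· + 2 * c) := by
  induction F with
  | nil => rfl
  | cons a t ih =>
    simp only [List.map_cons, List.sum_cons, Multiset.map_add]
    rw [ih, ES_shift]

theorem flat_shift (F : List (List ℕ)) (c : ℕ) :
    ((F.map (List.map (· + c))).flatten : Multiset ℕ) =
      ((F.flatten : List ℕ) : Multiset ℕ).map (· + c) := by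
  rw [Multiset.map_coe, List.map_flatten]

theorem St.step {T n : ℕ} {ns L : List ℕ} {F : List (List ℕ)} (h : St T ns L F) (hn : 1 ≤ n)
    (hT : n ≤ T) : ∃ L' F', St (3 * T + n + 1) (n :: ns) L' F' := by
  have hr := h.r
  obtain ⟨D, hD⟩ := fill (2 * T) (T - n) (by omega) (by omega) (by omega)
  have hDh : (D.map (· + (T + 1 + n))).head? = some (2 * T + 1) := by
    rw [head_shift _ hD.h]
    congr 1
    omega
  have hDl : (D.map (· + (T + 1 + n))).getLast? = some (2 * T + 2 * n) := by
    rw [last_shift _ hD.l]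
    congr 1
    omega
  have hLh : (L.map (· + 1)).head? = some 1 := head_shift 1 h.h
  refine ⟨[0] ++ (D.map (· + (T + 1 + n)) ++ L.map (· + 1)),
    List.range' (T + 1) n :: F.map (List.map (· + 1)), ?_, ?_, ?_, ?_, ?_⟩
  · rw [List.map_cons, List.length_range', List.map_map, ← h.len]
    congr 1
    refine List.map_congr_left fun x _ => ?_
    simp
  · rw [List.flatten_cons, ← Multiset.coe_add, ← Multiset.coe_add, ← Multiset.coe_add, range_v,
      flat_shift, ← Multiset.map_coe, ← Multiset.map_coe, hD.v, Iv_shift]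
    have h1 : (L : Multiset ℕ).map (· + 1) + ((F.flatten : List ℕ) : Multiset ℕ).map (· + 1) =
        Iv 1 T := by
      rw [← Multiset.map_add, h.v, Iv_shift]
    have h2 : 3 * T + n + 1 = 1 + (T + (n + 2 * T)) := by omega
    have h3 : (([0] : List ℕ) : Multiset ℕ) = Iv 0 1 := by
      rw [Iv_one]
      rfl
    rw [h2, Iv_add, Iv_add, Iv_add, h3]
    have h4 : 0 + 1 = 1 := rfl
    have h5 : 0 + (T + 1 + n) = 1 + T + n := by omega
    have h6 : T + 1 = 1 + T := by omega
    rw [h4, h5, h6, ← h1]
    abel
  · rw [ES_append [0] (a := 0) (b := 2 * T + 1) (by simp) (head_append hDh),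
      ES_append _ hDl hLh, ES_shift, ES_shift, hD.s, List.map_cons, List.sum_cons, sum_shift,
      ES_range, Od_shift]
    have h1 : (ES L).map (· + 2 * 1) + ((F.map ES).sum).map (· + 2 * 1) =
        Od (ns.length + 1) (T - 1 - ns.length) := by
      rw [← Multiset.map_add, h.s, Od_shift]
    have h2 : 3 * T + n + 1 - 1 - (n :: ns).length =
        (T - 1 - ns.length) + (1 + ((n - 1) + (1 + (2 * T - 1)))) := by
      rw [List.length_cons]
      omega
    have h3 : ES [0] = 0 := rfl
    rw [h2, List.length_cons, Od_add, Od_add, Od_add, Od_add, Od_one, Od_one, ← h1, h3]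
    have e1 : ns.length + 1 + (T - 1 - ns.length) = T := by omega
    have e2 : T + 1 + (n - 1) = T + n := by omega
    have e3 : 0 + (T + 1 + n) = T + n + 1 := by omega
    have e4 : 2 * T + 2 * n + 1 = 2 * (T + n) + 1 := by omega
    have e5 : 0 + (2 * T + 1) = 2 * T + 1 := by omega
    rw [e1, e2, e3, e4, e5, ← Multiset.singleton_add, ← Multiset.singleton_add]
    abel
  · simp
  · rw [List.length_cons]
    omega

/-- the number of positions -/
def TT (M : ℕ) : List ℕ → ℕ
  | [] => M
  | (n :: ns) => 3 * TT M ns + n + 1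

theorem le_TT (M : ℕ) (ns : List ℕ) : M ≤ TT M ns := by
  induction ns with
  | nil => exact le_rfl
  | cons n ns ih =>
    change M ≤ 3 * TT M ns + n + 1
    omega

theorem TT_par (M : ℕ) (ns : List ℕ) : TT (M + 1) ns % 2 = (TT M ns + 1) % 2 := by
  induction ns with
  | nil => rfl
  | cons n ns ih =>
    change (3 * TT (M + 1) ns + n + 1) % 2 = (3 * TT M ns + n + 1 + 1) % 2
    omega

theorem TT_le {M k : ℕ} (hM : M ≤ k + 1) (ns : List ℕ) (hk : ∀ n ∈ ns, n ≤ k) :
    2 * TT M ns + (k + 1) ≤ 3 ^ (ns.length + 1) * (k + 1) := by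
  induction ns with
  | nil =>
    change 2 * M + (k + 1) ≤ 3 ^ (0 + 1) * (k + 1)
    omega
  | cons n ns ih =>
    have h1 := ih fun x hx => hk x (List.mem_cons_of_mem _ hx)
    have h2 := hk n List.mem_cons_self
    rw [List.length_cons, pow_succ 3 (ns.length + 1)]
    change 2 * (3 * TT M ns + n + 1) + (k + 1) ≤ _
    nlinarith

theorem st_all {M : ℕ} (hM : 1 ≤ M) (ns : List ℕ) (h1 : ∀ n ∈ ns, 1 ≤ n) (h2 : ∀ n ∈ ns, n ≤ M) :
    ∃ L F, St (TT M ns) ns L F := by
  induction ns with
  | nil =>
    refine ⟨List.range' 0 M, [], rfl, ?_, ?_, ?_, ?_⟩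
    · rw [range_v]
      simp [TT]
    · rw [ES_range]
      simp [TT]
    · cases M with
      | zero => omega
      | succ M => simp [List.range'_succ]
    · simpa [TT] using hM
  | cons n ns ih =>
    obtain ⟨L, F, h⟩ := ih (fun x hx => h1 x (List.mem_cons_of_mem _ hx))
      (fun x hx => h2 x (List.mem_cons_of_mem _ hx))
    exact h.step (h1 n List.mem_cons_self)
      ((h2 n List.mem_cons_self).trans (le_TT M ns))

/-- the final layout -/
theorem final {T N : ℕ} {ns L : List ℕ} {F : List (List ℕ)} (h : St T ns L F) (hT : T % 2 = 1)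
    (hN : 3 * T ≤ N + ns.sum) : ∃ L' : List ℕ, L'.length = N ∧
      (L' : Multiset ℕ) + (F.flatten : Multiset ℕ) = Iv 0 (N + ns.sum) ∧
      ES L' + (F.map ES).sum = Od ns.length (N + ns.sum - 1 - ns.length) := by
  have hr := h.r
  have hlen : L.length + ns.sum = T := by
    have h1 := congrArg Multiset.card h.v
    rw [Multiset.card_add, Multiset.coe_card, Multiset.coe_card, List.length_flatten, h.len] at h1
    rw [h1]
    simp [Iv]
  obtain ⟨d, hd⟩ : ∃ d, N = L.length + d := ⟨N - L.length, by omega⟩
  obtain ⟨D, hD⟩ := fill d (T - 1) (by omega) (by omega) (by omega)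
  have hDlen : D.length = d := by
    have h1 := congrArg Multiset.card hD.v
    rw [Multiset.coe_card] at h1
    rw [h1]
    simp [Iv]
  refine ⟨L.reverse ++ D.map (· + T), ?_, ?_, ?_⟩
  · rw [List.length_append, List.length_reverse, List.length_map, hDlen, hd]
  · rw [← Multiset.coe_add, Multiset.coe_reverse, ← Multiset.map_coe, hD.v, Iv_shift]
    rw [show N + ns.sum = T + d by omega, Iv_add, ← h.v]
    abel
  · rw [ES_append L.reverse (a := 0) (b := T - 1 + T) (by rw [List.getLast?_reverse]; exact h.h)
      (head_shift T hD.h), ES_reverse, ES_shift, hD.s, Od_shift]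
    have e1 : N + ns.sum - 1 - ns.length = (T - 1 - ns.length) + (1 + (d - 1)) := by omega
    rw [e1, Od_add, Od_add, Od_one, ← h.s]
    have e2 : ns.length + (T - 1 - ns.length) = T - 1 := by omega
    have e3 : 0 + (T - 1 + T) = 2 * (T - 1) + 1 := by omega
    have e4 : T - 1 + 1 = 0 + T := by omega
    rw [e2, e3, e4, ← Multiset.singleton_add]
    abel

end Pool.Agent.H89LinF
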