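import Pool.Agent.H89LinF.Large

/-!
# A linear forest and one sufficiently long path, final form
-/

set_option autoImplicit false

namespace Pool.Agent.H89LinF

open Finset

theorem coe_flat (G : List (List ℕ)) :
    (List.map (fun l : List ℕ => Multiset.ofList l) G).sum = Multiset.ofList G.flatten := by
  induction G with
  | nil => rfl
  | cons a t ih =>
    rw [List.map_cons, List.sum_cons, ih, List.flatten_cons, Multiset.coe_add]

theorem of_lists (G : List (List ℕ)) (x K s : ℕ)
    (hv : (G.flatten : Multiset ℕ) = Iv 0 (G.map List.length).sum)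
    (he : (G.map ES).sum = Od x K) :
    SpecialSEM (linForest (Sum.elim (fun i : Fin G.length => G[i.1].length)
      (fun _ : Fin s => 1))) := by
  have h1 : ∑ i : Fin G.length, (Multiset.range (G[i.1].length)).map (fun q => G[i.1].getD q 0) =
      (G.flatten : Multiset ℕ) := by
    rw [← coe_flat, ← Fin.sum_univ_fun_getElem]
    exact Finset.sum_congr rfl fun i _ => (coe_eq_range _).symm
  have h2 : ∑ i : Fin G.length, (Multiset.range (G[i.1].length - 1)).map
      (fun q => G[i.1].getD q 0 + G[i.1].getD (q + 1) 0) = (G.map ES).sum := by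
    rw [← Fin.sum_univ_fun_getElem]
    exact Finset.sum_congr rfl fun i _ => (ES_eq_range _).symm
  have h3 : ∑ i : Fin G.length, G[i.1].length = (G.map List.length).sum :=
    Fin.sum_univ_fun_getElem G List.length
  have h4 : ∑ i : Fin G.length, (G[i.1].length - 1) = K := by
    have h5 := congrArg Multiset.card (h2.trans he)
    rw [Multiset.card_sum] at h5
    simpa [Od] using h5
  refine of_layout _ (fun i q => G[i.1].getD q 0) x s ?_ ?_
  · rw [h1, hv, h3]
  · rw [h2, he, h4]

theorem large {r : ℕ} (n : Fin r → ℕ) (hn : ∀ i, 1 ≤ n i) {k : ℕ} (hk1 : 1 ≤ k)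
    (hk : ∀ i, n i ≤ k) {N : ℕ} (hN : 3 ^ (r + 2) * (k + 1) ≤ 2 * N) (s : ℕ) :
    SpecialSEM (linForest (Sum.elim (Fin.cons N n : Fin (r + 1) → ℕ) (fun _ : Fin s => 1))) := by
  obtain ⟨ns, hns⟩ : ∃ ns, ns = List.ofFn n := ⟨_, rfl⟩
  have hlen : ns.length = r := by rw [hns, List.length_ofFn]
  have m1 : ∀ x ∈ ns, 1 ≤ x := by
    intro x hx
    rw [hns, List.mem_ofFn] at hx
    obtain ⟨i, rfl⟩ := hx
    exact hn i
  have m2 : ∀ x ∈ ns, x ≤ k := by
    intro x hx
    rw [hns, List.mem_ofFn] at hx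
    obtain ⟨i, rfl⟩ := hx
    exact hk i
  obtain ⟨M, hM1, hM2, hM3⟩ : ∃ M, k ≤ M ∧ M ≤ k + 1 ∧ TT M ns % 2 = 1 := by
    by_cases h : TT k ns % 2 = 1
    · exact ⟨k, le_rfl, by omega, h⟩
    · refine ⟨k + 1, by omega, le_rfl, ?_⟩
      rw [TT_par]
      omega
  obtain ⟨L, F, hst⟩ := st_all (hk1.trans hM1) ns m1 fun x hx => (m2 x hx).trans hM1
  have hb := TT_le hM2 ns m2
  rw [hlen] at hb
  have hb2 : 3 * TT M ns ≤ N + ns.sum := by
    have e : 3 ^ (r + 2) * (k + 1) = 3 * (3 ^ (r + 1) * (k + 1)) := by ring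
    rw [e] at hN
    generalize 3 ^ (r + 1) * (k + 1) = Z at hb hN
    omega
  obtain ⟨L', hL1, hL2, hL3⟩ := final hst hM3 hb2
  have hsum : ((L' :: F).map List.length).sum = N + ns.sum := by
    rw [List.map_cons, List.sum_cons, hL1, hst.len]
  have key := of_lists (L' :: F) ns.length (N + ns.sum - 1 - ns.length) s
    (by rw [hsum, List.flatten_cons, ← Multiset.coe_add, hL2])
    (by rw [List.map_cons, List.sum_cons, hL3])
  refine of_counts _ _ (fun c => ?_) key
  rw [Fintype.sum_sum_type, Fintype.sum_sum_type]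
  congr 1
  change (∑ i : Fin (L' :: F).length, if ((L' :: F)[i.1]).length = c then 1 else 0) =
    ∑ i : Fin (r + 1), if (Fin.cons N n : Fin (r + 1) → ℕ) i = c then 1 else 0
  rw [Fin.sum_univ_fun_getElem (L' :: F) (fun l => if l.length = c then 1 else 0), Fin.sum_univ_succ,
    List.map_cons, List.sum_cons, hL1]
  simp only [Fin.cons_zero, Fin.cons_succ]
  congr 1
  have h5 : F.map (fun l => if l.length = c then 1 else 0) =
      (F.map List.length).map (fun t => if t = c then 1 else 0) := by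
    rw [List.map_map]
    rfl
  rw [h5, hst.len, hns, List.map_ofFn, List.sum_ofFn]
  rfl

end Pool.Agent.H89LinF
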