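import Pool.Agent.H89LinF.Large2

/-!
# A linear forest and one sufficiently long path, with a better bound for the length
-/

set_option autoImplicit false

namespace Pool.Agent.H89LinF

open Finset

theorem ofFn_rev_succ {r : ℕ} (n : Fin (r + 1) → ℕ) : (List.ofFn n).reverse =
    n (Fin.last r) :: (List.ofFn fun i : Fin r => n i.castSucc).reverse := by
  rw [List.ofFn_succ', List.concat_eq_append, List.reverse_append]
  rfl

theorem TT_formula {r : ℕ} (n : Fin r → ℕ) (M : ℕ) :
    3 * TT M (List.ofFn n).reverse =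
      3 ^ (r + 1) * M + ∑ i : Fin r, 3 ^ (r - (i : ℕ)) * (n i + 1) := by
  induction r with
  | zero => simp [TT]
  | succ r ih =>
    rw [ofFn_rev_succ, Fin.sum_univ_castSucc]
    change 3 * (3 * TT M (List.ofFn fun i : Fin r => n i.castSucc).reverse + n (Fin.last r) + 1) = _
    have h1 := ih fun i => n i.castSucc
    have h2 : ∑ i : Fin r, 3 ^ (r + 1 - (i.castSucc : ℕ)) * (n i.castSucc + 1) =
        3 * ∑ i : Fin r, 3 ^ (r - (i : ℕ)) * (n i.castSucc + 1) := by
      rw [Finset.mul_sum]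
      refine Finset.sum_congr rfl fun i _ => ?_
      have h3 : r + 1 - ((i.castSucc : Fin (r + 1)) : ℕ) = (r - (i : ℕ)) + 1 := by
        have := i.2
        rw [Fin.val_castSucc]
        omega
      rw [h3, pow_succ]
      ring
    have h4 : r + 1 - ((Fin.last r : Fin (r + 1)) : ℕ) = 1 := by
      rw [Fin.val_last]
      omega
    rw [h2, h4, pow_one, pow_succ 3 (r + 1)]
    have h5 : 3 ^ (r + 1) * 3 * M = 3 * (3 ^ (r + 1) * M) := by ring
    rw [h5]
    omega

theorem pow_le_TT {r : ℕ} (n : Fin r → ℕ) (M : ℕ) : 3 ^ r * M ≤ TT M (List.ofFn n).reverse := by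
  have h1 := TT_formula n M
  have h2 : 3 ^ (r + 1) * M = 3 * (3 ^ r * M) := by ring
  rw [h2] at h1
  omega

theorem st_all2 {r : ℕ} (n : Fin r → ℕ) {M M' : ℕ} (hM' : 1 ≤ M') (hMM : M ≤ M')
    (h1 : ∀ i, 1 ≤ n i) (h2 : ∀ i : Fin r, n i ≤ 3 ^ (i : ℕ) * M) :
    ∃ L F, St (TT M' (List.ofFn n).reverse) (List.ofFn n).reverse L F := by
  induction r with
  | zero => exact st_all hM' _ (by simp) (by simp)
  | succ r ih =>
    obtain ⟨L, F, h⟩ := ih (fun i => n i.castSucc) (fun i => h1 _) (fun i => by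
      have := h2 i.castSucc
      rwa [Fin.val_castSucc] at this)
    rw [ofFn_rev_succ]
    refine h.step (h1 _) ?_
    have h3 := h2 (Fin.last r)
    rw [Fin.val_last] at h3
    exact h3.trans ((Nat.mul_le_mul_left _ hMM).trans (pow_le_TT _ _))

theorem large3 {r : ℕ} (n : Fin r → ℕ) (hn : ∀ i, 1 ≤ n i) {M : ℕ}
    (hM : ∀ i : Fin r, n i ≤ 3 ^ (i : ℕ) * M) {N : ℕ}
    (hN : 3 ^ (r + 1) * (M + 1) + ∑ i : Fin r, 3 ^ (r - (i : ℕ)) * (n i + 1) ≤ N) (s : ℕ) :
    SpecialSEM (linForest (Sum.elim (Fin.cons N n : Fin (r + 1) → ℕ) (fun _ : Fin s => 1))) := by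
  obtain ⟨ns, hns⟩ : ∃ ns, ns = (List.ofFn n).reverse := ⟨_, rfl⟩
  obtain ⟨M', h1, h2, h3, h4⟩ : ∃ M', M ≤ M' ∧ M' ≤ M + 1 ∧ TT M' ns % 2 = 1 ∧ 1 ≤ M' := by
    by_cases h : TT M ns % 2 = 1
    · refine ⟨M, le_rfl, by omega, h, ?_⟩
      by_contra h0
      obtain rfl : M = 0 := by omega
      have hr : r = 0 := by
        by_contra hr
        have h5 := hM ⟨0, by omega⟩
        have h6 := hn ⟨0, by omega⟩
        rw [Nat.mul_zero] at h5
        omega
      subst hr
      rw [hns] at h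
      simp [TT] at h
    · refine ⟨M + 1, by omega, le_rfl, ?_, by omega⟩
      rw [TT_par]
      omega
  obtain ⟨L, F, hst⟩ := st_all2 n h4 h1 hn hM
  rw [← hns] at hst
  have hb2 : 3 * TT M' ns ≤ N + ns.sum := by
    have h5 := TT_formula n M'
    rw [← hns] at h5
    have h6 : 3 ^ (r + 1) * M' ≤ 3 ^ (r + 1) * (M + 1) := Nat.mul_le_mul_left _ h2
    omega
  obtain ⟨L', hL1, hL2, hL3⟩ := final hst h3 hb2
  have hsum : ((L' :: F).map List.length).sum = N + ns.sum := by
    rw [List.map_cons, List.sum_cons, hL1, hst.len]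
  have key := of_lists (L' :: F) ns.length (N + ns.sum - 1 - ns.length) s
    (by rw [hsum, List.flatten_cons, ← Multiset.coe_add, hL2])
    (by rw [List.map_cons, List.sum_cons, hL3])
  refine of_counts _ _ (fun c => ?_) key
  rw [Fintype.sum_sum_type, Fintype.sum_sum_type]
  congr 1
  change (∑ i : Fin (L' :: F).length, if ((L' :: F)[i.1]).length = c then 1 else 0) =
    ∑ i : Fin (r + 1), if (Fin.cons N n : Fin (r + 1) → ℕ) i = c then 1 else 0
  rw [Fin.sum_univ_fun_getElem (L' :: F) (fun l => if l.length = c then 1 else 0), Fin.sum_univ_succ,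
    List.map_cons, List.sum_cons, hL1]
  simp only [Fin.cons_zero, Fin.cons_succ]
  congr 1
  have h5 : F.map (fun l => if l.length = c then 1 else 0) =
      (F.map List.length).map (fun t => if t = c then 1 else 0) := by
    rw [List.map_map]
    rfl
  rw [h5, hst.len, hns, List.map_reverse, List.sum_reverse, List.map_ofFn, List.sum_ofFn]
  rfl

end Pool.Agent.H89LinF
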