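import Pool.Agent.H89LinF.Final

/-!
# The order of the components does not matter
-/

set_option autoImplicit false

namespace Pool.Agent.H89LinF

open Finset

theorem of_equiv {ι ι' : Type} [Fintype ι] [Fintype ι'] (n : ι → ℕ) (n' : ι' → ℕ) (e : ι ≃ ι')
    (h : ∀ i, n' (e i) = n i) (hs : SpecialSEM (linForest n)) : SpecialSEM (linForest n') := by
  have h1 : n = fun i => n' (e i) := funext fun i => (h i).symm
  subst h1
  refine hs.iso ⟨Equiv.sigmaCongrLeft (β := fun i => Fin (n' i)) e, ?_⟩
  rintro ⟨i, q⟩ ⟨j, q'⟩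
  constructor
  · rintro ⟨h1, h2⟩
    exact ⟨e.injective h1, h2⟩
  · rintro ⟨h1, h2⟩
    exact ⟨congrArg e h1, h2⟩

/-- two linear forests with the same numbers of components of every order -/
theorem of_counts {ι ι' : Type} [Fintype ι] [Fintype ι'] (n : ι → ℕ) (n' : ι' → ℕ)
    (h : ∀ k, (∑ i, if n i = k then 1 else 0) = ∑ i, if n' i = k then 1 else 0)
    (hs : SpecialSEM (linForest n)) : SpecialSEM (linForest n') := by
  classical
  have hc : ∀ k, Nonempty ({i // n i = k} ≃ {i // n' i = k}) := by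
    intro k
    refine ⟨Fintype.equivOfCardEq ?_⟩
    rw [Fintype.card_subtype, Fintype.card_subtype, card_filter, card_filter]
    exact h k
  let E : ι ≃ ι' := (Equiv.sigmaFiberEquiv n).symm.trans
    ((Equiv.sigmaCongrRight fun k => (hc k).some).trans (Equiv.sigmaFiberEquiv n'))
  refine of_equiv n n' E (fun i => ?_) hs
  have h1 : E i = ((hc (n i)).some ⟨i, rfl⟩ : {j // n' j = n i}).1 := rfl
  rw [h1]
  exact ((hc (n i)).some ⟨i, rfl⟩).2

end Pool.Agent.H89LinF
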