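import Pool.Agent.H89LinF.Iso
import Pool.Agent.H89LinF.Transport

/-!
# Layouts: positions on a line, every odd sum once
-/

set_option autoImplicit false

namespace Pool.Agent.H89LinF

open Finset

/-- the interval `a, ..., a + n - 1` -/
def Iv (a n : ℕ) : Multiset ℕ := (Multiset.range n).map (fun k => a + k)

/-- the `n` consecutive odd numbers from `2 a + 1` on -/
def Od (a n : ℕ) : Multiset ℕ := (Multiset.range n).map (fun k => 2 * (a + k) + 1)

theorem Iv_add (a n m : ℕ) : Iv a (n + m) = Iv a n + Iv (a + n) m := by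
  unfold Iv
  rw [Multiset.range_add, Multiset.map_add, Multiset.map_map]
  congr 1
  refine Multiset.map_congr rfl fun x _ => ?_
  simp only [Function.comp]
  omega

theorem Od_add (a n m : ℕ) : Od a (n + m) = Od a n + Od (a + n) m := by
  unfold Od
  rw [Multiset.range_add, Multiset.map_add, Multiset.map_map]
  congr 1
  refine Multiset.map_congr rfl fun x _ => ?_
  simp only [Function.comp]
  omega

theorem Iv_one (a : ℕ) : Iv a 1 = {a} := by
  simp [Iv]

theorem Od_one (a : ℕ) : Od a 1 = {2 * a + 1} := by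
  simp [Od]

theorem Iv_shift (a n c : ℕ) : (Iv a n).map (· + c) = Iv (a + c) n := by
  unfold Iv
  rw [Multiset.map_map]
  refine Multiset.map_congr rfl fun x _ => ?_
  simp only [Function.comp]
  omega

theorem Od_shift (a n c : ℕ) : (Od a n).map (· + 2 * c) = Od (a + c) n := by
  unfold Od
  rw [Multiset.map_map]
  refine Multiset.map_congr rfl fun x _ => ?_
  simp only [Function.comp]
  omega

/-- sums of consecutive entries -/
def ES : List ℕ → Multiset ℕ
  | [] => 0
  | [_] => 0
  | (a :: b :: t) => (a + b) ::ₘ ES (b :: t)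

theorem ES_append (L₁ : List ℕ) {L₂ : List ℕ} {a b : ℕ} (h1 : L₁.getLast? = some a)
    (h2 : L₂.head? = some b) : ES (L₁ ++ L₂) = ES L₁ + ((a + b) ::ₘ ES L₂) := by
  induction L₁ with
  | nil => simp at h1
  | cons c t ih =>
    cases t with
    | nil =>
      obtain rfl : c = a := by simpa using h1
      cases L₂ with
      | nil => simp at h2
      | cons d u =>
        obtain rfl : d = b := by simpa using h2
        simp [ES]
    | cons d u =>
      have h3 : (d :: u).getLast? = some a := by
        rw [← h1, List.getLast?_cons_cons]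
      have h4 := ih h3
      change (c + d) ::ₘ ES ((d :: u) ++ L₂) = ((c + d) ::ₘ ES (d :: u)) + _
      rw [h4, Multiset.cons_add]

theorem ES_reverse (L : List ℕ) : ES L.reverse = ES L := by
  induction L with
  | nil => rfl
  | cons c t ih =>
    cases t with
    | nil => rfl
    | cons d u =>
      rw [List.reverse_cons]
      rw [ES_append (d :: u).reverse (a := d) (b := c) (by simp) (by simp), ih]
      change ES (d :: u) + ((d + c) ::ₘ 0) = (c + d) ::ₘ ES (d :: u)
      rw [Multiset.add_cons, add_zero, Nat.add_comm d c]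

theorem ES_shift (L : List ℕ) (c : ℕ) : ES (L.map (· + c)) = (ES L).map (· + 2 * c) := by
  induction L with
  | nil => rfl
  | cons d t ih =>
    cases t with
    | nil => rfl
    | cons e u =>
      change (d + c + (e + c)) ::ₘ ES ((e :: u).map (· + c)) =
        ((d + e) ::ₘ ES (e :: u)).map (· + 2 * c)
      rw [ih, Multiset.map_cons]
      congr 1
      omega

theorem coe_eq_range (L : List ℕ) :
    (L : Multiset ℕ) = (Multiset.range L.length).map (fun q => L.getD q 0) := by
  induction L with
  | nil => rfl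
  | cons c t ih =>
    rw [List.length_cons, Nat.add_comm, Multiset.range_add, Multiset.map_add, Multiset.map_map,
      ← Multiset.cons_coe, ih]
    simp [Multiset.range_succ, Nat.add_comm 1]

theorem ES_eq_range (L : List ℕ) :
    ES L = (Multiset.range (L.length - 1)).map (fun q => L.getD q 0 + L.getD (q + 1) 0) := by
  induction L with
  | nil => rfl
  | cons c t ih =>
    cases t with
    | nil => rfl
    | cons d u =>
      change (c + d) ::ₘ ES (d :: u) = _
      rw [ih]
      have : (c :: d :: u).length - 1 = 1 + ((d :: u).length - 1) := by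
        simp
        omega
      rw [this, Multiset.range_add, Multiset.map_add, Multiset.map_map]
      simp [Multiset.range_succ, Nat.add_comm 1]

theorem inj_of_nodup {ι : Type} [Fintype ι] (n : ι → ℕ) (f : ι → ℕ → ℕ)
    (h : (∑ i, (Multiset.range (n i)).map (f i)).Nodup) {i j : ι} {q q' : ℕ} (hq : q < n i)
    (hq' : q' < n j) (he : f i q = f j q') : i = j ∧ q = q' := by
  classical
  have h1 : (Multiset.range (n i)).map (f i) + ∑ j ∈ univ.erase i, (Multiset.range (n j)).map (f j)
      = ∑ i, (Multiset.range (n i)).map (f i) :=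
    Finset.add_sum_erase univ (fun i => (Multiset.range (n i)).map (f i)) (mem_univ i)
  rw [← h1, Multiset.nodup_add] at h
  obtain ⟨h2, -, h4⟩ := h
  by_cases hij : i = j
  · subst hij
    refine ⟨rfl, ?_⟩
    exact Multiset.inj_on_of_nodup_map h2 q (Multiset.mem_range.2 hq) q'
      (Multiset.mem_range.2 hq') he
  · exfalso
    rw [Multiset.disjoint_left] at h4
    refine h4 (Multiset.mem_map.2 ⟨q, Multiset.mem_range.2 hq, rfl⟩) ?_
    rw [Multiset.mem_sum]
    exact ⟨j, mem_erase.2 ⟨fun h => hij h.symm, mem_univ _⟩,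
      Multiset.mem_map.2 ⟨q', Multiset.mem_range.2 hq', he.symm⟩⟩

theorem Iv_nodup (a n : ℕ) : (Iv a n).Nodup := by
  refine Multiset.Nodup.map (fun x y h => ?_) (Multiset.nodup_range n)
  simpa using h

theorem Od_nodup (a n : ℕ) : (Od a n).Nodup := by
  refine Multiset.Nodup.map (fun x y h => ?_) (Multiset.nodup_range n)
  have h2 : 2 * (a + x) + 1 = 2 * (a + y) + 1 := h
  omega

theorem mem_Iv {a n x : ℕ} : x ∈ Iv a n ↔ a ≤ x ∧ x < a + n := by
  unfold Iv
  rw [Multiset.mem_map]
  constructor
  · rintro ⟨k, hk, rfl⟩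
    rw [Multiset.mem_range] at hk
    omega
  · rintro ⟨h1, h2⟩
    exact ⟨x - a, Multiset.mem_range.2 (by omega), by omega⟩

theorem mem_Od {a n x : ℕ} (h : x ∈ Od a n) : ∃ k, a ≤ k ∧ k < a + n ∧ x = 2 * k + 1 := by
  unfold Od at h
  rw [Multiset.mem_map] at h
  obtain ⟨k, hk, rfl⟩ := h
  rw [Multiset.mem_range] at hk
  exact ⟨a + k, by omega, by omega, rfl⟩

theorem of_layout {ι : Type} [Fintype ι] (n : ι → ℕ) (P : ι → ℕ → ℕ) (x s : ℕ)
    (hv : ∑ i, (Multiset.range (n i)).map (P i) = Iv 0 (∑ i, n i))
    (he : ∑ i, (Multiset.range (n i - 1)).map (fun q => P i q + P i (q + 1)) =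
      Od x (∑ i, (n i - 1))) :
    SpecialSEM (linForest (Sum.elim n (fun _ : Fin s => 1))) := by
  classical
  have hlt : ∀ i q, q < n i → P i q < ∑ i, n i := by
    intro i q hq
    have : P i q ∈ Iv 0 (∑ i, n i) := by
      rw [← hv, Multiset.mem_sum]
      exact ⟨i, mem_univ _, Multiset.mem_map.2 ⟨q, Multiset.mem_range.2 hq, rfl⟩⟩
    rw [mem_Iv] at this
    omega
  have hod : ∀ i q, q + 1 < n i → ∃ k, x ≤ k ∧ k < x + ∑ i, (n i - 1) ∧
      P i q + P i (q + 1) = 2 * k + 1 := by
    intro i q hq
    apply mem_Od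
    rw [← he, Multiset.mem_sum]
    exact ⟨i, mem_univ _, Multiset.mem_map.2 ⟨q, Multiset.mem_range.2 (by omega), rfl⟩⟩
  refine assemble_iso n s (fun i q => (decide (P i q % 2 = 0), P i q / 2 + 1))
    ((∑ i, n i + 1) / 2 + s) ((∑ i, n i) / 2) (x + 2) ?_ ?_ ?_ ?_ ?_ ?_ ?_ ?_ ?_
  · intro i j q q' hq hq' h
    rw [Prod.ext_iff] at h
    obtain ⟨h1, h2⟩ := h
    simp only [decide_eq_decide] at h1 h2
    have h3 : P i q = P j q' := by omega
    refine inj_of_nodup n P ?_ hq hq' h3
    rw [hv]
    exact Iv_nodup _ _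
  · intro i q _
    simp
  · intro i q hq h
    simp only [decide_eq_true_eq] at h
    have := hlt i q hq
    simp only
    omega
  · intro i q hq h
    simp only [decide_eq_false_iff_not] at h
    have := hlt i q hq
    simp only
    omega
  · omega
  · intro i q hq h
    obtain ⟨k, -, -, h3⟩ := hod i q hq
    simp only [decide_eq_decide] at h
    omega
  · intro i q hq
    obtain ⟨k, h1, -, h3⟩ := hod i q hq
    simp only
    omega
  · intro i q hq
    obtain ⟨k, -, h1, h3⟩ := hod i q hq
    simp only
    omega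
  · intro i j q q' hq hq' h
    obtain ⟨k, -, -, h3⟩ := hod i q hq
    obtain ⟨k', -, -, h3'⟩ := hod j q' hq'
    simp only at h
    have h4 : P i q + P i (q + 1) = P j q' + P j (q' + 1) := by omega
    refine inj_of_nodup (fun i => n i - 1) (fun i q => P i q + P i (q + 1)) ?_ ?_ ?_ h4
    · rw [he]
      exact Od_nodup _ _
    · omega
    · omega

end Pool.Agent.H89LinF
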