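import Pool.Agent.H89LinF.Assemble
import Pool.Agent.H89LinF.Chain

/-!
# The labeling
-/

set_option autoImplicit false

namespace Pool.Agent.H89LinF

open Finset

/-- the place of the vertex `q` in the chain of its component with center `c` -/
def fold (c q : ℕ) : ℕ := if c < q then 2 * (q - c) - 1 else 2 * (c - q)

/-- the place of the edge `q, q + 1` -/
def efun (c q : ℕ) : ℕ := if c ≤ q then 2 * (q - c) else 2 * (c - q) - 1

theorem fold_inj {c q q' : ℕ} (h : fold c q = fold c q') : q = q' := by
  unfold fold at h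
  split_ifs at h <;> omega

theorem fold_le {v q : ℕ} (h : q ≤ v) : fold (v / 2) q ≤ v := by
  unfold fold
  split_ifs <;> omega

theorem efun_inj {c q q' : ℕ} (h : efun c q = efun c q') : q = q' := by
  unfold efun at h
  split_ifs at h <;> omega

theorem efun_lt {v q : ℕ} (h : q < v) : efun (v / 2) q < v := by
  unfold efun
  split_ifs <;> omega

theorem fold_edge (c q : ℕ) : (fold c q = efun c q - 1 ∧ fold c (q + 1) = efun c q + 1) ∨
    (fold c q = efun c q + 1 ∧ fold c (q + 1) = efun c q - 1) := by
  unfold fold efun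
  split_ifs <;> omega

/-- the kind of the vertex at place `f` -/
def kd (f : ℕ) : Bool := decide ((f + 1) / 2 % 2 = 0)

theorem kd_ne (e : ℕ) : kd (e - 1) ≠ kd (e + 1) := by
  unfold kd
  rcases e with _ | e
  · decide
  · rw [show e + 1 - 1 + 1 = e + 1 by omega, show (e + 1 + 1 + 1) / 2 = (e + 1) / 2 + 1 by omega]
    rcases Nat.mod_two_eq_zero_or_one ((e + 1) / 2) with h | h
    · rw [h, show ((e + 1) / 2 + 1) % 2 = 1 by omega]
      decide
    · rw [h, show ((e + 1) / 2 + 1) % 2 = 0 by omega]
      decide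

section

variable {l : ℕ} {nv : Fin (l + 1) → ℕ} {z : ℕ}

theorem tau_succ (x : ℕ) : tau nv (x + 1) = decide (((dec nv x).2 + 2) / 2 % 2 = 0) := rfl

theorem tau_kd {i : Fin (l + 1)} {f : ℕ} (h0 : 1 ≤ f) (h : f ≤ nv i) :
    tau nv (base nv i + f) = kd f := by
  obtain ⟨g, rfl⟩ : ∃ g, f = g + 1 := ⟨f - 1, by omega⟩
  rw [← Nat.add_assoc, tau_succ, (dec_base nv (i := i) (j := g) (by omega)).2]
  rfl

/-- the label of the vertex at place `f` of the component `i` -/
def lf (nv : Fin (l + 1) → ℕ) (z : ℕ) (i : Fin (l + 1)) (f : ℕ) : ℕ :=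
  if f = 0 then (if i = Fin.last l then pos nv z 0 else (i : ℕ) + 1) else pos nv z (base nv i + f)

theorem lf_pred {i : Fin (l + 1)} {e : ℕ} (h : e < nv i) :
    lf nv z i (e - 1) = lab nv z (base nv i + e) := by
  unfold lf lab
  rw [(dec_base nv h).2]
  rcases e with _ | _ | e
  · rw [if_pos (by omega), if_neg (show ¬ 2 ≤ ((i, 0) : Fin (l + 1) × ℕ).2 by simp)]
  · rw [if_pos (by omega), if_neg (show ¬ 2 ≤ ((i, 0 + 1) : Fin (l + 1) × ℕ).2 by simp)]
  · rw [if_neg (by omega), if_pos (by simp)]
    congr 1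

theorem lf_succ {i : Fin (l + 1)} {e : ℕ} :
    lf nv z i (e + 1) = pos nv z (base nv i + e + 1) := by
  unfold lf
  rw [if_neg (by omega), Nat.add_assoc]

theorem lf_sum (hl : 1 ≤ l) (hmin : nv (Fin.last l) ≤ nv 0)
    (hz : er ((∑ i, nv i) + l + 2) (∑ i, nv i) ≤ z) {i : Fin (l + 1)} {q : ℕ} (h : q < nv i) :
    lf nv z i (fold (nv i / 2) q) + lf nv z i (fold (nv i / 2) (q + 1)) =
      skip (tau nv) (pos nv z) l (base nv i + efun (nv i / 2) q) := by
  have h1 := efun_lt h
  have h2 := (dec_base nv h1).1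
  have h3 := (growth hl hmin hz _ h2).2.2.2
  rw [← h3, ← lf_pred h1, ← lf_succ]
  rcases fold_edge (nv i / 2) q with ⟨h4, h5⟩ | ⟨h4, h5⟩
  · rw [h4, h5, Nat.add_comm]
  · rw [h4, h5]

theorem lf_cases {i : Fin (l + 1)} {f : ℕ} (hf : f ≤ nv i) :
    (f = 0 ∧ i ≠ Fin.last l ∧ lf nv z i f = (i : ℕ) + 1 ∧ (i : ℕ) + 1 ≤ l) ∨
    (f = 0 ∧ i = Fin.last l ∧ lf nv z i f = pos nv z 0) ∨
    (1 ≤ f ∧ lf nv z i f = pos nv z (base nv i + f) ∧ base nv i + f ≤ ∑ i, nv i ∧
      dec nv (base nv i + f - 1) = (i, f - 1)) := by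
  rcases Nat.eq_zero_or_pos f with h | h
  · subst h
    by_cases h2 : i = Fin.last l
    · right; left
      refine ⟨rfl, h2, ?_⟩
      unfold lf
      rw [if_pos rfl, if_pos h2]
    · left
      refine ⟨rfl, h2, ?_, ?_⟩
      · unfold lf
        rw [if_pos rfl, if_neg h2]
      · have h3 := i.2
        have h4 : (i : ℕ) ≠ l := fun h5 => h2 (Fin.ext h5)
        omega
  · right; right
    obtain ⟨g, rfl⟩ : ∃ g, f = g + 1 := ⟨f - 1, by omega⟩
    obtain ⟨h1, h2⟩ := dec_base nv (i := i) (j := g) (by omega)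
    refine ⟨h, ?_, by omega, ?_⟩
    · rw [lf_succ]
      rfl
    · rw [show base nv i + (g + 1) - 1 = base nv i + g by omega, h2]
      rfl

theorem lf_inj {G : ℕ} (hg : Gaps (∑ i, nv i) G (pos nv z)) (hG : l < G)
    (h0 : G ≤ pos nv z 0) {i j : Fin (l + 1)} {f f' : ℕ} (hf : f ≤ nv i) (hf' : f' ≤ nv j)
    (h : lf nv z i f = lf nv z j f') : i = j ∧ f = f' := by
  have inj : ∀ x y, x ≤ ∑ i, nv i → y ≤ ∑ i, nv i → pos nv z x = pos nv z y → x = y := by
    intro x y hx hy hxy
    rcases Nat.lt_trichotomy x y with h1 | h1 | h1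
    · have := hg.le (by omega) h1 hy
      omega
    · exact h1
    · have := hg.le (by omega) h1 hx
      omega
  have low : ∀ x, x ≤ ∑ i, nv i → G ≤ pos nv z x := by
    intro x hx
    rcases Nat.eq_zero_or_pos x with h1 | h1
    · rw [h1]
      exact h0
    · have := hg.le (by omega) h1 hx
      omega
  rcases lf_cases (z := z) hf with ⟨a1, a2, a3, a4⟩ | ⟨a1, a2, a3⟩ | ⟨a1, a2, a3, a4⟩ <;>
    rcases lf_cases (z := z) hf' with ⟨b1, b2, b3, b4⟩ | ⟨b1, b2, b3⟩ | ⟨b1, b2, b3, b4⟩
  · rw [a3, b3] at h
    exact ⟨Fin.ext (by omega), by omega⟩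
  · rw [a3, b3] at h
    omega
  · rw [a3, b2] at h
    have := low _ b3
    omega
  · rw [a3, b3] at h
    omega
  · exact ⟨a2.trans b2.symm, by omega⟩
  · rw [a3, b2] at h
    have := inj _ _ (Nat.zero_le _) b3 h
    omega
  · rw [a2, b3] at h
    have := low _ a3
    omega
  · rw [a2, b3] at h
    have := inj _ _ a3 (Nat.zero_le _) h
    omega
  · rw [a2, b2] at h
    have h1 := inj _ _ a3 b3 h
    rw [h1, b4] at a4
    have h2 := congrArg Prod.fst a4
    have h3 := congrArg Prod.snd a4
    simp only at h2 h3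
    exact ⟨h2.symm, by omega⟩

end

section lines

variable {K : ℕ} {τ : ℕ → Bool} {p : ℕ → ℕ} {b : Bool} {off : ℕ}

theorem line_le (t : ℕ) : line K τ p b off t ≤ t + 1 + off + cnt τ b (K + 1) := by
  have : ((range (K + 1)).filter (fun j => τ j = b ∧ p j ≤ t + 1 + off + cnt τ b j)).card ≤
      cnt τ b (K + 1) := by
    refine card_le_card fun j hj => ?_
    rw [mem_filter] at hj ⊢
    exact ⟨hj.1, hj.2.1⟩
  unfold line
  omega

theorem line_le_of {t : ℕ} (h : τ K = b → t + 1 + off + cnt τ b K < p K) :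
    line K τ p b off t ≤ t + 1 + off + cnt τ b K := by
  have : ((range (K + 1)).filter (fun j => τ j = b ∧ p j ≤ t + 1 + off + cnt τ b j)).card ≤
      cnt τ b K := by
    refine card_le_card fun j hj => ?_
    rw [mem_filter, mem_range] at hj ⊢
    refine ⟨?_, hj.2.1⟩
    by_contra h1
    obtain rfl : j = K := by omega
    have := h hj.2.1
    omega
  unfold line
  omega

/-- the condition on the top of the picture -/
def Top (l K : ℕ) (τ : ℕ → Bool) (p : ℕ → ℕ) (N : ℕ) : Prop :=
  (τ K = true ∧ (N + 1) / 2 + l + cnt τ true K + 1 = p K) ∨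
    (τ K = false ∧ N / 2 + cnt τ false K + 1 = p K)

theorem hh_le {l N s : ℕ} (ht : Top l K τ p N) (hs : s + 1 < N) :
    hh K τ p l s ≤ s + 2 + l + K := by
  have hK := cnt_add τ K
  have r : ∀ t, t + 1 ≤ (N + 1) / 2 → line K τ p true l t ≤ t + 1 + l + cnt τ true K := by
    intro t h1
    refine line_le_of fun h2 => ?_
    rcases ht with ⟨h3, h4⟩ | ⟨h3, h4⟩
    · omega
    · rw [h2] at h3
      exact absurd h3 (by decide)
  have c : ∀ t, t + 1 ≤ N / 2 → line K τ p false 0 t ≤ t + 1 + 0 + cnt τ false K := by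
    intro t h1
    refine line_le_of fun h2 => ?_
    rcases ht with ⟨h3, h4⟩ | ⟨h3, h4⟩
    · rw [h2] at h3
      exact absurd h3 (by decide)
    · omega
  unfold hh
  split_ifs with h
  · have h1 := r (s / 2) (by omega)
    have h2 := c (s / 2) (by omega)
    omega
  · have h1 := r (s / 2 + 1) (by omega)
    have h2 := c (s / 2) (by omega)
    omega

/-- the label of the vertex `s` of the long path -/
def pathLab (l K : ℕ) (τ : ℕ → Bool) (p : ℕ → ℕ) (s : ℕ) : Bool × ℕ :=
  if s % 2 = 0 then (true, line K τ p true l (s / 2)) else (false, line K τ p false 0 (s / 2))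

theorem pathLab_sum (l s : ℕ) :
    (pathLab l K τ p s).2 + (pathLab l K τ p (s + 1)).2 = hh K τ p l s := by
  unfold pathLab hh
  rcases Nat.mod_two_eq_zero_or_one s with h | h
  · rw [if_pos h, if_neg (by omega), if_pos h, show (s + 1) / 2 = s / 2 by omega]
  · rw [if_neg (by omega), if_pos (by omega), if_neg (by omega),
      show (s + 1) / 2 = s / 2 + 1 by omega, Nat.add_comm]

end lines

theorem special_of_top {l : ℕ} (hl : 1 ≤ l) (n : Fin (l + 1) → ℕ) (hn : ∀ i, 1 ≤ n i)
    (hmin : n (Fin.last l) ≤ n 0) {z N : ℕ}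
    (hz : er ((∑ i, (n i - 1)) + l + 2) (∑ i, (n i - 1)) +
      (2 * ((∑ i, (n i - 1)) + l) + 10) ≤ z)
    (ht : Top l (∑ i, (n i - 1)) (tau fun i => n i - 1) (pos (fun i => n i - 1) z) N) :
    SpecialSEM (linForest (Fin.cons N n : Fin (l + 2) → ℕ)) := by
  obtain ⟨nv, hnv⟩ : ∃ nv : Fin (l + 1) → ℕ, nv = fun i => n i - 1 := ⟨_, rfl⟩
  have hmin' : nv (Fin.last l) ≤ nv 0 := by
    rw [hnv]
    change n (Fin.last l) - 1 ≤ n 0 - 1
    omega
  have hnv' : ∀ i, n i - 1 = nv i := fun i => by rw [hnv]
  have hn' : ∀ i, n i = nv i + 1 := fun i => by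
    have := hn i
    rw [hnv]
    change n i = n i - 1 + 1
    omega
  rw [← hnv] at ht
  simp only [hnv'] at hz ht
  obtain ⟨K, hK⟩ : ∃ K, K = ∑ i, nv i := ⟨_, rfl⟩
  obtain ⟨G, hG⟩ : ∃ G, G = 2 * (K + l) + 10 := ⟨_, rfl⟩
  obtain ⟨τ, hτ⟩ : ∃ τ, τ = tau nv := ⟨_, rfl⟩
  obtain ⟨p, hp⟩ : ∃ p, p = pos nv z := ⟨_, rfl⟩
  have hg : Gaps K G p := by
    rw [hK, hp]
    refine pos_gaps hl hmin' ?_
    rw [hG, hK]
    exact hz
  have hz1 : er ((∑ i, nv i) + l + 2) (∑ i, nv i) ≤ z := by omega
  have p0 : p 0 = z := by rw [hp, pos_zero]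
  have hGz : G ≤ p 0 := by
    rw [p0, hG, hK]
    omega
  have plow : ∀ x, x ≤ K → G ≤ p x := by
    intro x hx
    rcases Nat.eq_zero_or_pos x with h1 | h1
    · rw [h1]
      exact hGz
    · have := hg.le (by omega) h1 hx
      omega
  rw [← hK, ← hτ, ← hp] at ht
  have cT := cnt_le τ true K
  have cF := cnt_le τ false K
  have cK := cnt_add τ (K + 1)
  have cK' := cnt_add τ K
  have sT := cnt_succ τ true K
  have sF := cnt_succ τ false K
  -- the sizes
  obtain ⟨R, hR⟩ : ∃ R, R = (N + 1) / 2 + l + cnt τ true (K + 1) := ⟨_, rfl⟩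
  obtain ⟨C, hC⟩ : ∃ C, C = N / 2 + cnt τ false (K + 1) := ⟨_, rfl⟩
  have hsumn : ∑ i, n i = K + (l + 1) := by
    rw [hK]
    simp only [hn']
    rw [sum_add_distrib]
    simp
  -- bounds for the left out lines
  have pK : ∀ x, x < K → p x + G ≤ p K := by
    intro x hx
    have := hg.le (by omega) hx le_rfl
    omega
  have oR : ∀ x, x ≤ K → τ x = true → p x ≤ R := by
    intro x hx h1
    rcases Nat.eq_or_lt_of_le hx with h2 | h2
    · rw [h2] at h1 ⊢
      rcases ht with ⟨h3, h4⟩ | ⟨h3, h4⟩
      · rw [if_pos h3] at sT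
        omega
      · rw [h1] at h3
        exact absurd h3 (by decide)
    · have h5 := pK x h2
      rcases ht with ⟨h3, h4⟩ | ⟨h3, h4⟩ <;> omega
  have oC : ∀ x, x ≤ K → τ x = false → p x ≤ C := by
    intro x hx h1
    rcases Nat.eq_or_lt_of_le hx with h2 | h2
    · rw [h2] at h1 ⊢
      rcases ht with ⟨h3, h4⟩ | ⟨h3, h4⟩
      · rw [h1] at h3
        exact absurd h3 (by decide)
      · rw [if_pos h3] at sF
        omega
    · have h5 := pK x h2
      rcases ht with ⟨h3, h4⟩ | ⟨h3, h4⟩ <;> omega
  have lR : l ≤ R := by omega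
  -- the vertices outside the long path
  have vout : ∀ (i : Fin (l + 1)) (f : ℕ), f ≤ nv i →
      (kd f = true ∧ 1 ≤ lf nv z i f ∧ lf nv z i f ≤ l) ∨
      (∃ x, x ≤ K ∧ lf nv z i f = p x ∧ kd f = τ x) := by
    intro i f hf
    rcases lf_cases (z := z) hf with ⟨a1, a2, a3, a4⟩ | ⟨a1, a2, a3⟩ | ⟨a1, a2, a3, a4⟩
    · left
      rw [a1] at a3 ⊢
      exact ⟨rfl, by omega, by omega⟩
    · right
      refine ⟨0, Nat.zero_le _, ?_, ?_⟩
      · rw [a3, hp]
      · rw [a1, hτ]
        rfl
    · right
      refine ⟨base nv i + f, by omega, ?_, ?_⟩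
      · rw [a2, hp]
      · rw [hτ, tau_kd a1 hf]
  -- the skipped sums
  have sb : ∀ x, x ≤ K → ∃ s, hh K τ p l s < skip τ p l x ∧
      skip τ p l x < hh K τ p l (s + 1) := fun x hx => skip_between hg (by omega) hGz hx
  have hmono : StrictMono (hh K τ p l) := hh_strictMono
  have hh0 : ∀ s, l + 2 ≤ hh K τ p l s := by
    intro s
    refine le_trans ?_ (hmono.monotone (Nat.zero_le s))
    unfold hh
    rw [if_pos rfl]
    have h1 := le_line (K := K) (τ := τ) (pos := p) (b := true) (off := l) (0 / 2)
    have h2 := le_line (K := K) (τ := τ) (pos := p) (b := false) (off := 0) (0 / 2)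
    omega
  have skmono : ∀ x y, x < y → y ≤ K → skip τ p l x < skip τ p l y := by
    intro x y hxy hy
    have h1 := hg.le (by omega) hxy hy
    have h2 := plow x (by omega)
    have h3 := cnt_le τ true x
    have h4 := cnt_le τ false x
    have h5 := cnt_le τ true y
    have h6 := cnt_le τ false y
    unfold skip
    split_ifs <;> omega
  have skinj : ∀ x y, x ≤ K → y ≤ K → skip τ p l x = skip τ p l y → x = y := by
    intro x y hx hy h
    rcases Nat.lt_trichotomy x y with h1 | h1 | h1
    · have := skmono x y h1 hy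
      omega
    · exact h1
    · have := skmono y x h1 hx
      omega
  have skhh : ∀ x s, x ≤ K → skip τ p l x ≠ hh K τ p l s := by
    intro x s hx h
    obtain ⟨s', h1, h2⟩ := sb x hx
    rw [h] at h1 h2
    have h3 := hmono.lt_iff_lt.1 h1
    have h4 := hmono.lt_iff_lt.1 h2
    omega
  have osum : ∀ (i : Fin (l + 1)) (q : ℕ), q + 1 < n i →
      base nv i + efun (nv i / 2) q < K ∧
      lf nv z i (fold (nv i / 2) q) + lf nv z i (fold (nv i / 2) (q + 1)) =
        skip τ p l (base nv i + efun (nv i / 2) q) := by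
    intro i q hq
    have h1 : q < nv i := by
      have := hn' i
      omega
    refine ⟨?_, ?_⟩
    · rw [hK]
      exact (dec_base nv (efun_lt h1)).1
    · rw [lf_sum hl hmin' hz1 h1, hτ, hp]
  have fle : ∀ (i : Fin (l + 1)) (q : ℕ), q < n i → fold (nv i / 2) q ≤ nv i := by
    intro i q hq
    refine fold_le ?_
    have := hn' i
    omega
  -- the assignment
  refine assemble (Fin.cons N n : Fin (l + 2) → ℕ)
    (Fin.cons (α := fun _ => ℕ → Bool × ℕ) (pathLab l K τ p)
      (fun i q => (kd (fold (nv i / 2) q), lf nv z i (fold (nv i / 2) q))))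
    R C (l + 2) ?_ ?_ ?_ ?_ ?_ ?_ ?_ ?_ ?_
  · -- injectivity
    have hpp : ∀ q q', pathLab l K τ p q = pathLab l K τ p q' → q = q' := by
      intro q q' h
      unfold pathLab at h
      split_ifs at h with h1 h2 h2
      · have h3 := line_strictMono.injective (congrArg Prod.snd h)
        omega
      · exact absurd (congrArg Prod.fst h) (by simp)
      · exact absurd (congrArg Prod.fst h) (by simp)
      · have h3 := line_strictMono.injective (congrArg Prod.snd h)
        omega
    have hpo : ∀ q i q', q' < n i → pathLab l K τ p q ≠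
        (kd (fold (nv i / 2) q'), lf nv z i (fold (nv i / 2) q')) := by
      intro q i q' hq' h
      have h1 := congrArg Prod.fst h
      have h2 := congrArg Prod.snd h
      simp only at h1 h2
      rcases vout i _ (fle i q' hq') with ⟨c1, c2, c3⟩ | ⟨x, hx, c1, c2⟩
      · rw [c1] at h1
        unfold pathLab at h1 h2
        split_ifs at h1 h2 with h3
        · have := le_line (K := K) (τ := τ) (pos := p) (b := true) (off := l) (q / 2)
          simp only at h2
          omega
      · rw [c2] at h1
        rw [c1] at h2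
        unfold pathLab at h1 h2
        split_ifs at h1 h2 with h3
        · exact line_ne hg (by omega) hx h1.symm h2
        · exact line_ne hg (by omega) hx h1.symm h2
    intro i j q q' hq hq' h
    induction i using Fin.cases with
    | zero =>
      induction j using Fin.cases with
      | zero =>
        simp only [Fin.cons_zero] at h
        exact ⟨rfl, hpp q q' h⟩
      | succ j =>
        simp only [Fin.cons_zero, Fin.cons_succ] at h hq'
        exact absurd h (hpo q j q' hq')
    | succ i =>
      induction j using Fin.cases with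
      | zero =>
        simp only [Fin.cons_zero, Fin.cons_succ] at h hq
        exact absurd h.symm (hpo q' i q hq)
      | succ j =>
        simp only [Fin.cons_succ] at h hq hq'
        have h2 := congrArg Prod.snd h
        simp only at h2
        obtain ⟨rfl, h4⟩ := lf_inj (hK ▸ hp ▸ hg) (by omega) (hp ▸ hGz) (fle i q hq)
          (fle j q' hq') h2
        exact ⟨rfl, fold_inj h4⟩
  · intro i q hq
    induction i using Fin.cases with
    | zero =>
      simp only [Fin.cons_zero]
      unfold pathLab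
      have h1 := le_line (K := K) (τ := τ) (pos := p) (b := true) (off := l) (q / 2)
      have h2 := le_line (K := K) (τ := τ) (pos := p) (b := false) (off := 0) (q / 2)
      split_ifs
      · change 1 ≤ line K τ p true l (q / 2)
        omega
      · change 1 ≤ line K τ p false 0 (q / 2)
        omega
    | succ i =>
      simp only [Fin.cons_succ] at hq ⊢
      rcases vout i _ (fle i q hq) with ⟨c1, c2, c3⟩ | ⟨x, hx, c1, c2⟩
      · exact c2
      · rw [c1]
        have := plow x hx
        omega
  · intro i q hq h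
    induction i using Fin.cases with
    | zero =>
      simp only [Fin.cons_zero] at hq h ⊢
      unfold pathLab at h ⊢
      split_ifs at h ⊢ with h1
      have h2 := line_le (K := K) (τ := τ) (p := p) (b := true) (off := l) (q / 2)
      change line K τ p true l (q / 2) ≤ R
      omega
    | succ i =>
      simp only [Fin.cons_succ] at hq h ⊢
      rcases vout i _ (fle i q hq) with ⟨c1, c2, c3⟩ | ⟨x, hx, c1, c2⟩
      · omega
      · rw [c1]
        exact oR x hx (c2.symm.trans h)
  · intro i q hq h
    induction i using Fin.cases with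
    | zero =>
      simp only [Fin.cons_zero] at hq h ⊢
      unfold pathLab at h ⊢
      split_ifs at h ⊢ with h1
      have h2 := line_le (K := K) (τ := τ) (p := p) (b := false) (off := 0) (q / 2)
      change line K τ p false 0 (q / 2) ≤ C
      omega
    | succ i =>
      simp only [Fin.cons_succ] at hq h ⊢
      rcases vout i _ (fle i q hq) with ⟨c1, c2, c3⟩ | ⟨x, hx, c1, c2⟩
      · rw [c1] at h
        exact absurd h (by decide)
      · rw [c1]
        exact oC x hx (c2.symm.trans h)
  · rw [Fin.sum_univ_succ]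
    simp only [Fin.cons_zero, Fin.cons_succ]
    rw [hsumn]
    omega
  · intro i q hq
    induction i using Fin.cases with
    | zero =>
      simp only [Fin.cons_zero]
      unfold pathLab
      rcases Nat.mod_two_eq_zero_or_one q with h | h
      · rw [if_pos h, if_neg (by omega)]
        simp
      · rw [if_neg (by omega), if_pos (by omega)]
        simp
    | succ i =>
      simp only [Fin.cons_succ]
      rcases fold_edge (nv i / 2) q with ⟨h4, h5⟩ | ⟨h4, h5⟩
      · rw [h4, h5]
        exact kd_ne _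
      · rw [h4, h5]
        exact (kd_ne _).symm
  · intro i q hq
    induction i using Fin.cases with
    | zero =>
      simp only [Fin.cons_zero]
      rw [pathLab_sum]
      exact hh0 q
    | succ i =>
      simp only [Fin.cons_succ] at hq ⊢
      obtain ⟨h1, h2⟩ := osum i q hq
      rw [h2]
      obtain ⟨s, h3, -⟩ := sb _ h1.le
      have := hh0 s
      omega
  · have hS : ∑ i : Fin (l + 1 + 1), ((Fin.cons N n : Fin (l + 2) → ℕ) i - 1) = N - 1 + K := by
      rw [Fin.sum_univ_succ]
      simp only [Fin.cons_zero, Fin.cons_succ]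
      simp only [hnv']
      rw [hK]
    rw [hS]
    intro i q hq
    induction i using Fin.cases with
    | zero =>
      simp only [Fin.cons_zero] at hq ⊢
      rw [pathLab_sum]
      have := hh_le ht hq
      omega
    | succ i =>
      simp only [Fin.cons_succ] at hq ⊢
      obtain ⟨h1, h2⟩ := osum i q hq
      rw [h2]
      have h3 := pK _ h1
      have h4 := cnt_le τ true (base nv i + efun (nv i / 2) q)
      have h5 := cnt_le τ false (base nv i + efun (nv i / 2) q)
      unfold skip
      rcases ht with ⟨h6, h7⟩ | ⟨h6, h7⟩ <;> split_ifs <;> omega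
  · intro i j q q' hq hq' h
    induction i using Fin.cases with
    | zero =>
      induction j using Fin.cases with
      | zero =>
        simp only [Fin.cons_zero] at h
        rw [pathLab_sum, pathLab_sum] at h
        exact ⟨rfl, hmono.injective h⟩
      | succ j =>
        simp only [Fin.cons_zero, Fin.cons_succ] at h hq'
        obtain ⟨h1, h2⟩ := osum j q' hq'
        rw [pathLab_sum, h2] at h
        exact absurd h.symm (skhh _ _ h1.le)
    | succ i =>
      induction j using Fin.cases with
      | zero =>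
        simp only [Fin.cons_zero, Fin.cons_succ] at h hq
        obtain ⟨h1, h2⟩ := osum i q hq
        rw [pathLab_sum, h2] at h
        exact absurd h (skhh _ _ h1.le)
      | succ j =>
        simp only [Fin.cons_succ] at h hq hq'
        obtain ⟨h1, h2⟩ := osum i q hq
        obtain ⟨h3, h4⟩ := osum j q' hq'
        rw [h2, h4] at h
        have h5 := skinj _ _ h1.le h3.le h
        have e1 : q < nv i := by
          have := hn' i
          omega
        have e2 : q' < nv j := by
          have := hn' j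
          omega
        have h6 := (dec_base nv (efun_lt e1)).2
        have h7 := (dec_base nv (efun_lt e2)).2
        rw [h5, h7] at h6
        have h8 := congrArg Prod.fst h6
        have h9 := congrArg Prod.snd h6
        simp only at h8 h9
        subst h8
        exact ⟨rfl, (efun_inj h9).symm⟩

end Pool.Agent.H89LinF
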