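import Pool.Agent.H89LinF.Iso

/-!
# Linear forests with many isolated vertices and one long path
-/

set_option autoImplicit false

namespace Pool.Agent.H89LinF

open Finset

/-- the number of edges of the component `j` (zero if there is no such component) -/
def nu {m : ℕ} (n : Fin m → ℕ) (j : ℕ) : ℕ := if h : j < m then n ⟨j, h⟩ - 1 else 0

/-- partial sums of `nu` -/
def ns (ν : ℕ → ℕ) (i : ℕ) : ℕ := ∑ j ∈ range i, ν j

/-- partial sums of every second term of `nu` -/
def ex (ν : ℕ → ℕ) : ℕ → ℕ
  | 0 => 0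
  | 1 => ν 0
  | i + 2 => ex ν i + ν (i + 1)

variable {ν : ℕ → ℕ}

theorem ns_succ (i : ℕ) : ns ν (i + 1) = ns ν i + ν i := by
  unfold ns
  rw [sum_range_succ]

theorem ns_zero : ns ν 0 = 0 := by
  unfold ns
  simp

theorem ns_mono {i j : ℕ} (h : i ≤ j) : ns ν i ≤ ns ν j := by
  induction j, h using Nat.le_induction with
  | base => exact le_rfl
  | succ j _ ih =>
    rw [ns_succ]
    omega

theorem ex_add (i : ℕ) : ex ν i + ex ν (i + 1) = ns ν (i + 1) := by
  induction i with
  | zero =>
    rw [ns_succ, ns_zero]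
    rfl
  | succ i ih =>
    rw [ns_succ, ← ih]
    have : ex ν (i + 1 + 1) = ex ν i + ν (i + 1) := rfl
    omega

theorem ex_mono2 (i : ℕ) : ex ν i ≤ ex ν (i + 2) := by
  have : ex ν (i + 2) = ex ν i + ν (i + 1) := rfl
  omega

theorem ex_mono {i k : ℕ} : ex ν i ≤ ex ν (i + 2 * k) := by
  induction k with
  | zero => exact le_rfl
  | succ k ih =>
    have := ex_mono2 (ν := ν) (i + 2 * k)
    rw [show i + 2 * (k + 1) = i + 2 * k + 2 by ring]
    omega

/-- monotonicity of the shifted function within a parity class -/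
theorem ex_shift_mono {t s k : ℕ} : ex ν (s - t) ≤ ex ν (s + 2 * k - t) := by
  induction k with
  | zero => exact le_rfl
  | succ k ih =>
    refine ih.trans ?_
    rcases Nat.lt_or_ge (s + 2 * k) t with h | h
    · rw [show s + 2 * k - t = 0 by omega]
      exact Nat.zero_le _
    · have := ex_mono2 (ν := ν) (s + 2 * k - t)
      rw [show s + 2 * (k + 1) - t = s + 2 * k - t + 2 by omega]
      exact this

/-- the sum at the step `s`, if the first step with a jump is `t` -/
theorem ex_shift_add {t s : ℕ} : ex ν (s - t) + ex ν (s + 1 - t) = ns ν (s + 1 - t) := by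
  rcases Nat.lt_or_ge s t with h | h
  · rw [show s - t = 0 by omega, show s + 1 - t = 0 by omega, ns_zero]
    rfl
  · rw [show s + 1 - t = s - t + 1 by omega, ex_add]

theorem ex_const {M : ℕ} (hν : ∀ j, M ≤ j → ν j = 0) {i k : ℕ} (hi : M ≤ i + 1) :
    ex ν (i + 2 * k) = ex ν i := by
  induction k with
  | zero => rfl
  | succ k ih =>
    have : ex ν (i + 2 * k + 2) = ex ν (i + 2 * k) + ν (i + 2 * k + 1) := rfl
    rw [show i + 2 * (k + 1) = i + 2 * k + 2 by ring, this, hν _ (by omega), ih]
    rfl

theorem ex_le_odd {M : ℕ} (hν : ∀ j, M ≤ j → ν j = 0) {i : ℕ} (hi : i % 2 = 1) :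
    ex ν i ≤ ex ν (2 * M + 1) := by
  rcases le_or_gt i (2 * M + 1) with h | h
  · obtain ⟨k, hk⟩ : ∃ k, 2 * M + 1 = i + 2 * k := ⟨(2 * M + 1 - i) / 2, by omega⟩
    rw [hk]
    exact ex_mono
  · obtain ⟨k, hk⟩ : ∃ k, i = 2 * M + 1 + 2 * k := ⟨(i - (2 * M + 1)) / 2, by omega⟩
    rw [hk, ex_const hν (by omega)]

theorem ex_le_even {M : ℕ} (hν : ∀ j, M ≤ j → ν j = 0) {i : ℕ} (hi : i % 2 = 0) :
    ex ν i ≤ ex ν (2 * M) := by
  rcases le_or_gt i (2 * M) with h | h
  · obtain ⟨k, hk⟩ : ∃ k, 2 * M = i + 2 * k := ⟨(2 * M - i) / 2, by omega⟩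
    rw [hk]
    exact ex_mono
  · obtain ⟨k, hk⟩ : ∃ k, i = 2 * M + 2 * k := ⟨(i - 2 * M) / 2, by omega⟩
    rw [hk, ex_const hν (by omega)]

theorem ns_const {M : ℕ} (hν : ∀ j, M ≤ j → ν j = 0) {i : ℕ} (hi : M ≤ i) :
    ns ν i = ns ν M := by
  induction i, hi using Nat.le_induction with
  | base => rfl
  | succ j hj ih => rw [ns_succ, hν j hj, ih, Nat.add_zero]

theorem ns_le {M : ℕ} (hν : ∀ j, M ≤ j → ν j = 0) (i : ℕ) : ns ν i ≤ ns ν M := by
  rcases le_or_gt i M with h | h
  · exact ns_mono h
  · rw [ns_const hν h.le]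

theorem many {m : ℕ} (n : Fin m → ℕ) (hn : ∀ i, 1 ≤ n i) {N s : ℕ}
    (hN : ∑ i, n i + 3 ≤ N) (hs : ∑ i, (n i - 1) + 1 ≤ s) :
    SpecialSEM (linForest
      (Sum.elim (Fin.cons N n : Fin (m + 1) → ℕ) (fun _ : Fin s => 1))) := by
  obtain ⟨ν, hν⟩ : ∃ ν, ν = nu n := ⟨_, rfl⟩
  have hν0 : ∀ j, m ≤ j → ν j = 0 := by
    intro j hj
    rw [hν]
    unfold nu
    rw [dif_neg (by omega)]
  have hνn : ∀ i : Fin m, n i = ν i + 1 := by
    intro i
    rw [hν]
    unfold nu
    rw [dif_pos i.2]
    have := hn i
    change n i = n i - 1 + 1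
    omega
  obtain ⟨K, hK⟩ : ∃ K, K = ns ν m := ⟨_, rfl⟩
  obtain ⟨P, hP⟩ : ∃ P, P = ∑ i, n i := ⟨_, rfl⟩
  have hKs : ∑ i, (n i - 1) = K := by
    rw [hK]
    unfold ns
    rw [← Fin.sum_univ_eq_sum_range]
    refine Finset.sum_congr rfl fun i _ => ?_
    rw [hνn i]
    rfl
  have hPs : P = K + m := by
    rw [hP, ← hKs]
    have : ∀ i : Fin m, n i = (n i - 1) + 1 := fun i => by
      have := hn i
      omega
    rw [Finset.sum_congr rfl (fun i _ => this i), sum_add_distrib]
    simp
  rw [hKs] at hs
  rw [← hP] at hN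
  obtain ⟨e1, he1⟩ : ∃ e1, e1 = ex ν (2 * m + 1) := ⟨_, rfl⟩
  obtain ⟨e0, he0⟩ : ∃ e0, e0 = ex ν (2 * m) := ⟨_, rfl⟩
  have he : e0 + e1 = K := by
    rw [he0, he1, ex_add, hK]
    exact ns_const hν0 (by omega)
  -- the parameters
  obtain ⟨d, hd⟩ : ∃ d, d = (N / 2 + e1 - (P + 1) / 2) % 2 := ⟨_, rfl⟩
  obtain ⟨t, ht⟩ : ∃ t, t + ((P + 1) / 2 + d) = N / 2 + e1 :=
    ⟨N / 2 + e1 - ((P + 1) / 2 + d), by omega⟩
  have ht2 : t % 2 = 0 := by omega
  obtain ⟨e, hes⟩ : ∃ e, s = K + d + e := ⟨s - K - d, by omega⟩
  obtain ⟨off, hoff⟩ : ∃ off, off = e + (P + 1) / 2 + d := ⟨_, rfl⟩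
  -- the labels of the long path
  obtain ⟨la, hla⟩ : ∃ la : ℕ → Bool × ℕ, la = fun q =>
      if q % 2 = 0 then (true, q / 2 + 1 + off + ex ν (q - t))
      else (false, q / 2 + 1 + ex ν (q - t)) := ⟨_, rfl⟩
  have la0 : ∀ q, q % 2 = 0 → la q = (true, q / 2 + 1 + off + ex ν (q - t)) := by
    intro q hq
    rw [hla]
    exact if_pos hq
  have la1 : ∀ q, q % 2 = 1 → la q = (false, q / 2 + 1 + ex ν (q - t)) := by
    intro q hq
    rw [hla]
    exact if_neg (by omega)
  -- the labels of the other components
  obtain ⟨v, hv⟩ : ∃ v : ℕ → Bool × ℕ, v = fun k =>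
      if k % 2 = 0 then (true, e + k / 2 + 1) else (false, N / 2 + e1 + 1 + k / 2) := ⟨_, rfl⟩
  have v0 : ∀ q, q % 2 = 0 → v q = (true, e + q / 2 + 1) := by
    intro q hq
    rw [hv]
    exact if_pos hq
  have v1 : ∀ q, q % 2 = 1 → v q = (false, N / 2 + e1 + 1 + q / 2) := by
    intro q hq
    rw [hv]
    exact if_neg (by omega)
  obtain ⟨bs, hbs⟩ : ∃ bs : ℕ → ℕ, bs = fun i => ns ν i + i := ⟨_, rfl⟩
  have bs_succ : ∀ i, bs (i + 1) = bs i + ν i + 1 := by
    intro i
    rw [hbs]
    simp only
    rw [ns_succ]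
    omega
  have bs_mono : ∀ i j, i ≤ j → bs i ≤ bs j := by
    intro i j h
    have := ns_mono (ν := ν) h
    rw [hbs]
    simp only
    omega
  have bsm : bs m = P := by
    rw [hbs, hPs, hK]
  have bs_lt : ∀ (i : Fin m) (q : ℕ), q < n i → bs i + q < P := by
    intro i q hq
    have h1 := bs_succ i
    have h2 := bs_mono (i + 1) m (by omega)
    rw [hνn i] at hq
    omega
  have bs_inj : ∀ (i j : Fin m) (q q' : ℕ), q < n i → q' < n j → bs i + q = bs j + q' →
      i = j ∧ q = q' := by
    intro i j q q' hq hq' h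
    rw [hνn i] at hq
    rw [hνn j] at hq'
    have h1 := bs_succ i
    have h2 := bs_succ j
    rcases Nat.lt_trichotomy (i : ℕ) (j : ℕ) with h3 | h3 | h3
    · have := bs_mono (i + 1) j h3
      omega
    · obtain rfl := Fin.ext h3
      exact ⟨rfl, by omega⟩
    · have := bs_mono (j + 1) i h3
      omega
  -- sums
  have lsum : ∀ q, (la q).2 + (la (q + 1)).2 = q + 2 + off + ns ν (q + 1 - t) := by
    intro q
    rw [← ex_shift_add]
    rcases Nat.mod_two_eq_zero_or_one q with h | h
    · rw [la0 q h, la1 (q + 1) (by omega)]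
      simp only
      omega
    · rw [la1 q h, la0 (q + 1) (by omega)]
      simp only
      omega
  have vsum : ∀ k, (v k).2 + (v (k + 1)).2 = t + 2 + off + k := by
    intro k
    rcases Nat.mod_two_eq_zero_or_one k with h | h
    · rw [v0 k h, v1 (k + 1) (by omega)]
      simp only
      omega
    · rw [v1 k h, v0 (k + 1) (by omega)]
      simp only
      omega
  -- bounds for the labels of the long path
  have b0 : ∀ q, q % 2 = 0 → ex ν (q - t) ≤ e0 := by
    intro q hq
    rw [he0]
    exact ex_le_even hν0 (by omega)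
  have b1 : ∀ q, q % 2 = 1 → ex ν (q - t) ≤ e1 := by
    intro q hq
    rcases Nat.lt_or_ge q t with h | h
    · rw [show q - t = 0 by omega]
      exact Nat.zero_le _
    · rw [he1]
      exact ex_le_odd hν0 (by omega)
  have lmono : ∀ q q', q < q' → q % 2 = q' % 2 → (la q).2 < (la q').2 := by
    intro q q' h h2
    obtain ⟨k, rfl⟩ : ∃ k, q' = q + 2 * k := ⟨(q' - q) / 2, by omega⟩
    have h3 := ex_shift_mono (ν := ν) (t := t) (s := q) (k := k)
    rcases Nat.mod_two_eq_zero_or_one q with h4 | h4
    · rw [la0 q h4, la0 (q + 2 * k) (by omega)]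
      simp only
      omega
    · rw [la1 q h4, la1 (q + 2 * k) (by omega)]
      simp only
      omega
  have lkind : ∀ q, (la q).1 = decide (q % 2 = 0) := by
    intro q
    rcases Nat.mod_two_eq_zero_or_one q with h | h
    · rw [la0 q h, h]
      rfl
    · rw [la1 q h, h]
      rfl
  have linj : ∀ q q', la q = la q' → q = q' := by
    intro q q' h
    have h1 := congrArg Prod.fst h
    rw [lkind, lkind] at h1
    have h2 : q % 2 = q' % 2 := by
      rcases Nat.mod_two_eq_zero_or_one q with h3 | h3 <;>
        rcases Nat.mod_two_eq_zero_or_one q' with h4 | h4 <;> rw [h3, h4] at h1 ⊢ <;> simp at h1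
    rcases Nat.lt_trichotomy q q' with h3 | h3 | h3
    · have := lmono q q' h3 h2
      rw [h] at this
      omega
    · exact h3
    · have := lmono q' q h3 h2.symm
      rw [h] at this
      omega
  have vinj : ∀ k k', v k = v k' → k = k' := by
    intro k k' h
    rcases Nat.mod_two_eq_zero_or_one k with h3 | h3 <;>
      rcases Nat.mod_two_eq_zero_or_one k' with h4 | h4
    · rw [v0 k h3, v0 k' h4] at h
      have := congrArg Prod.snd h
      simp only at this
      omega
    · rw [v0 k h3, v1 k' h4] at h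
      exact absurd (congrArg Prod.fst h) (by simp)
    · rw [v1 k h3, v0 k' h4] at h
      exact absurd (congrArg Prod.fst h) (by simp)
    · rw [v1 k h3, v1 k' h4] at h
      have := congrArg Prod.snd h
      simp only at this
      omega
  have lv : ∀ q k, q < N → k < P → la q ≠ v k := by
    intro q k hq hk h
    rcases Nat.mod_two_eq_zero_or_one q with h3 | h3 <;>
      rcases Nat.mod_two_eq_zero_or_one k with h4 | h4
    · rw [la0 q h3, v0 k h4] at h
      have := congrArg Prod.snd h
      simp only at this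
      omega
    · rw [la0 q h3, v1 k h4] at h
      exact absurd (congrArg Prod.fst h) (by simp)
    · rw [la1 q h3, v0 k h4] at h
      exact absurd (congrArg Prod.fst h) (by simp)
    · rw [la1 q h3, v1 k h4] at h
      have h5 := congrArg Prod.snd h
      simp only at h5
      have := b1 q h3
      omega
  have nsK : ∀ i, ns ν i ≤ K := by
    intro i
    rw [hK]
    exact ns_le hν0 i
  have sne : ∀ (q : ℕ) (i : Fin m) (q' : ℕ), q' + 1 < n i →
      q + 2 + off + ns ν (q + 1 - t) ≠ t + 2 + off + (bs i + q') := by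
    intro q i q' hq' h
    rw [hνn i] at hq'
    rcases Nat.lt_or_ge q t with h1 | h1
    · rw [show q + 1 - t = 0 by omega, ns_zero] at h
      omega
    · obtain ⟨j, rfl⟩ : ∃ j, q = t + j := ⟨q - t, by omega⟩
      rw [show t + j + 1 - t = j + 1 by omega] at h
      have h2 : bs (j + 1) = bs i + q' + 1 := by
        have : bs (j + 1) = ns ν (j + 1) + (j + 1) := by rw [hbs]
        omega
      have h3 := bs_succ i
      rcases Nat.lt_or_ge j i with h4 | h4
      · have := bs_mono (j + 1) i h4
        omega
      · have := bs_mono (i + 1) (j + 1) (by omega)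
        omega
  refine assemble_iso (Fin.cons N n : Fin (m + 1) → ℕ) s
    (Fin.cons (α := fun _ => ℕ → Bool × ℕ) la (fun i q => v (bs i + q)))
    (off + (N + 1) / 2 + e0) (N / 2 + e1 + P / 2) (off + 2) ?_ ?_ ?_ ?_ ?_ ?_ ?_ ?_ ?_
  · intro i j q q' hq hq' h
    induction i using Fin.cases with
    | zero =>
      induction j using Fin.cases with
      | zero =>
        simp only [Fin.cons_zero] at h
        exact ⟨rfl, linj q q' h⟩
      | succ j =>
        simp only [Fin.cons_zero, Fin.cons_succ] at h hq hq'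
        exact absurd h (lv q _ hq (bs_lt j q' hq'))
    | succ i =>
      induction j using Fin.cases with
      | zero =>
        simp only [Fin.cons_zero, Fin.cons_succ] at h hq hq'
        exact absurd h.symm (lv q' _ hq' (bs_lt i q hq))
      | succ j =>
        simp only [Fin.cons_succ] at h hq hq'
        obtain ⟨rfl, h2⟩ := bs_inj i j q q' hq hq' (vinj _ _ h)
        exact ⟨rfl, h2⟩
  · intro i q hq
    induction i using Fin.cases with
    | zero =>
      simp only [Fin.cons_zero]
      rcases Nat.mod_two_eq_zero_or_one q with h | h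
      · rw [la0 q h]
        simp only
        omega
      · rw [la1 q h]
        simp only
        omega
    | succ i =>
      simp only [Fin.cons_succ]
      rcases Nat.mod_two_eq_zero_or_one (bs i + q) with h | h
      · rw [v0 _ h]
        simp only
        omega
      · rw [v1 _ h]
        simp only
        omega
  · intro i q hq h
    induction i using Fin.cases with
    | zero =>
      simp only [Fin.cons_zero] at hq h ⊢
      rcases Nat.mod_two_eq_zero_or_one q with h1 | h1
      · rw [la0 q h1]
        simp only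
        have := b0 q h1
        omega
      · rw [la1 q h1] at h
        exact absurd h (by simp)
    | succ i =>
      simp only [Fin.cons_succ] at hq h ⊢
      have h2 := bs_lt i q hq
      rcases Nat.mod_two_eq_zero_or_one (bs i + q) with h1 | h1
      · rw [v0 _ h1]
        simp only
        omega
      · rw [v1 _ h1] at h
        exact absurd h (by simp)
  · intro i q hq h
    induction i using Fin.cases with
    | zero =>
      simp only [Fin.cons_zero] at hq h ⊢
      rcases Nat.mod_two_eq_zero_or_one q with h1 | h1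
      · rw [la0 q h1] at h
        exact absurd h (by simp)
      · rw [la1 q h1]
        simp only
        have := b1 q h1
        omega
    | succ i =>
      simp only [Fin.cons_succ] at hq h ⊢
      have h2 := bs_lt i q hq
      rcases Nat.mod_two_eq_zero_or_one (bs i + q) with h1 | h1
      · rw [v0 _ h1] at h
        exact absurd h (by simp)
      · rw [v1 _ h1]
        simp only
        omega
  · rw [Fin.sum_univ_succ]
    simp only [Fin.cons_zero, Fin.cons_succ]
    rw [← hP]
    omega
  · intro i q hq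
    induction i using Fin.cases with
    | zero =>
      simp only [Fin.cons_zero]
      rcases Nat.mod_two_eq_zero_or_one q with h | h
      · rw [la0 q h, la1 (q + 1) (by omega)]
        simp
      · rw [la1 q h, la0 (q + 1) (by omega)]
        simp
    | succ i =>
      simp only [Fin.cons_succ]
      rcases Nat.mod_two_eq_zero_or_one (bs i + q) with h | h
      · rw [v0 _ h, v1 (bs i + (q + 1)) (by omega)]
        simp
      · rw [v1 _ h, v0 (bs i + (q + 1)) (by omega)]
        simp
  · intro i q hq
    induction i using Fin.cases with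
    | zero =>
      simp only [Fin.cons_zero]
      rw [lsum]
      omega
    | succ i =>
      simp only [Fin.cons_succ]
      rw [← Nat.add_assoc (bs i) q 1, vsum]
      omega
  · have hS : ∑ i : Fin (m + 1), ((Fin.cons N n : Fin (m + 1) → ℕ) i - 1) = N - 1 + K := by
      rw [Fin.sum_univ_succ]
      simp only [Fin.cons_zero, Fin.cons_succ]
      rw [hKs]
    rw [hS]
    intro i q hq
    induction i using Fin.cases with
    | zero =>
      simp only [Fin.cons_zero] at hq ⊢
      rw [lsum]
      have := nsK (q + 1 - t)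
      omega
    | succ i =>
      simp only [Fin.cons_succ] at hq ⊢
      rw [← Nat.add_assoc (bs i) q 1, vsum]
      have h2 := bs_lt i (q + 1) hq
      omega
  · intro i j q q' hq hq' h
    induction i using Fin.cases with
    | zero =>
      induction j using Fin.cases with
      | zero =>
        simp only [Fin.cons_zero] at h
        rw [lsum, lsum] at h
        refine ⟨rfl, ?_⟩
        rcases Nat.lt_trichotomy q q' with h3 | h3 | h3
        · have := ns_mono (ν := ν) (show q + 1 - t ≤ q' + 1 - t by omega)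
          omega
        · exact h3
        · have := ns_mono (ν := ν) (show q' + 1 - t ≤ q + 1 - t by omega)
          omega
      | succ j =>
        simp only [Fin.cons_zero, Fin.cons_succ] at h hq'
        rw [lsum, ← Nat.add_assoc (bs j) q' 1, vsum] at h
        exact absurd h (sne q j q' hq')
    | succ i =>
      induction j using Fin.cases with
      | zero =>
        simp only [Fin.cons_zero, Fin.cons_succ] at h hq
        rw [lsum, ← Nat.add_assoc (bs i) q 1, vsum] at h
        exact absurd h.symm (sne q' i q hq)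
      | succ j =>
        simp only [Fin.cons_succ] at h hq hq'
        rw [← Nat.add_assoc (bs j) q' 1, vsum, ← Nat.add_assoc (bs i) q 1, vsum] at h
        obtain ⟨rfl, h2⟩ := bs_inj i j q q' (by omega) (by omega) (by omega)
        exact ⟨rfl, h2⟩

end Pool.Agent.H89LinF
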