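import Pool.Agent.H89LinF.Iso
import Pool.Agent.H89LinF.Transport

/-!
# An odd number of components of nearly equal orders
-/

set_option autoImplicit false

namespace Pool.Agent.H89LinF

open Finset

theorem nf {m a b x y : ℕ} (hx : x < m) (hy : y < m) (h : a * m + x = b * m + y) :
    a = b ∧ x = y := by
  rcases Nat.lt_trichotomy a b with h1 | h1 | h1
  · have := Nat.mul_le_mul_right m (show a + 1 ≤ b from h1)
    rw [Nat.add_mul] at this
    omega
  · subst h1
    exact ⟨rfl, by omega⟩
  · have := Nat.mul_le_mul_right m (show b + 1 ≤ a from h1)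
    rw [Nat.add_mul] at this
    omega

/-- the position of the component `i` at the level `q` -/
def pp (h i q : ℕ) : ℕ := (i + q * h) % (2 * h + 1)

theorem pp_lt (h i q : ℕ) : pp h i q < 2 * h + 1 := Nat.mod_lt _ (by omega)

theorem pp_succ (h i q : ℕ) :
    pp h i (q + 1) = if pp h i q ≤ h then pp h i q + h else pp h i q - h - 1 := by
  have h0 := pp_lt h i q
  have h1 : pp h i (q + 1) = (pp h i q + h) % (2 * h + 1) := by
    unfold pp
    rw [Nat.mod_add_mod, Nat.add_mul, Nat.one_mul, Nat.add_assoc]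
  rw [h1]
  split_ifs with h2
  · exact Nat.mod_eq_of_lt (by omega)
  · rw [show pp h i q + h = (pp h i q - h - 1) + (2 * h + 1) by omega, Nat.add_mod_right]
    exact Nat.mod_eq_of_lt (by omega)

theorem pp_inj {h i j q : ℕ} (hi : i < 2 * h + 1) (hj : j < 2 * h + 1)
    (hij : pp h i q = pp h j q) : i = j := by
  have h1 : i ≡ j [MOD (2 * h + 1)] := Nat.ModEq.add_right_cancel' (q * h) hij
  have h2 : i % (2 * h + 1) = j % (2 * h + 1) := h1
  rwa [Nat.mod_eq_of_lt hi, Nat.mod_eq_of_lt hj] at h2

/-- the centered block of `w` positions -/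
def blk (h w x : ℕ) : Prop := h ≤ x + w / 2 ∧ x ≤ h + w / 2 ∧ (x ≠ h ∨ w % 2 = 1)

instance (h w : ℕ) : DecidablePred (blk h w) := fun x => by
  unfold blk
  infer_instance

theorem blk_card {h w : ℕ} (hw : w ≤ 2 * h + 1) :
    ((range (2 * h + 1)).filter (blk h w)).card = w := by
  rcases Nat.mod_two_eq_zero_or_one w with h2 | h2
  · have : (range (2 * h + 1)).filter (blk h w) = (Icc (h - w / 2) (h + w / 2)).erase h := by
      ext i
      rw [mem_filter, mem_range, mem_erase, mem_Icc]
      constructor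
      · rintro ⟨h3, h4, h5, h6⟩
        omega
      · rintro ⟨h3, h4⟩
        refine ⟨by omega, by omega, by omega, by omega⟩
    rw [this, card_erase_of_mem (by rw [mem_Icc]; omega), Nat.card_Icc]
    omega
  · have : (range (2 * h + 1)).filter (blk h w) = Icc (h - w / 2) (h + w / 2) := by
      ext i
      rw [mem_filter, mem_range, mem_Icc]
      constructor
      · rintro ⟨h3, h4, h5, h6⟩
        omega
      · rintro ⟨h3, h4⟩
        refine ⟨by omega, by omega, by omega, by omega⟩
    rw [this, Nat.card_Icc]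
    omega

theorem blk_sum {h w : ℕ} (hw : w ≤ 2 * h + 1) (q : ℕ) :
    (∑ i : Fin (2 * h + 1), if blk h w (pp h i q) then 1 else 0) = w := by
  let e : Fin (2 * h + 1) → Fin (2 * h + 1) := fun i => ⟨pp h i q, pp_lt h i q⟩
  have he : Function.Injective e := by
    intro i j hij
    have h1 : pp h i q = pp h j q := congrArg Fin.val hij
    exact Fin.ext (pp_inj i.2 j.2 h1)
  have hb : Function.Bijective e := Finite.injective_iff_bijective.1 he
  have h1 := hb.sum_comp (fun x : Fin (2 * h + 1) => if blk h w x then 1 else 0)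
  have h2 : (∑ i : Fin (2 * h + 1), if blk h w (pp h i q) then 1 else 0) =
      ∑ i, (fun x : Fin (2 * h + 1) => if blk h w x then 1 else 0) (e i) := rfl
  rw [h2, h1]
  change (∑ x : Fin (2 * h + 1), if blk h w x then 1 else 0) = w
  rw [Fin.sum_univ_eq_sum_range (fun x => if blk h w x then 1 else 0), ← card_filter]
  exact blk_card hw

/-- the new position -/
def nx (h w p : ℕ) : ℕ := if h ≤ p then p - h + w % 2 else p + w + 1 - h

theorem nx_spec {h w p : ℕ} (hp : blk h w p) : 1 ≤ nx h w p ∧ nx h w p ≤ w ∧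
    h + 2 ≤ p + nx h w p + 1 ∧ p + nx h w p ≤ h + w := by
  obtain ⟨h1, h2, h3⟩ := hp
  unfold nx
  split_ifs <;> omega

theorem nx_inj {h w p p' : ℕ} (hp : blk h w p) (hp' : blk h w p')
    (he : nx h w p = nx h w p') : p = p' := by
  obtain ⟨h1, h2, h3⟩ := hp
  obtain ⟨h1', h2', h3'⟩ := hp'
  unfold nx at he
  split_ifs at he <;> omega

theorem nx_inj2 {h w p p' : ℕ} (hp : blk h w p) (hp' : blk h w p')
    (he : p + nx h w p = p' + nx h w p') : p = p' := by
  obtain ⟨h1, h2, h3⟩ := hp
  obtain ⟨h1', h2', h3'⟩ := hp'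
  unfold nx at he
  split_ifs at he <;> omega

/-- `2h + 1` components of orders `n` and `n + 1` -/
theorem near_model (h w n s : ℕ) (hw : w ≤ 2 * h + 1) (hn : 1 ≤ n) :
    SpecialSEM (linForest (Sum.elim
      (fun i : Fin (2 * h + 1) => if blk h w (pp h i (n - 1)) then n + 1 else n)
      (fun _ : Fin s => 1))) := by
  obtain ⟨m, hm⟩ : ∃ m, m = 2 * h + 1 := ⟨_, rfl⟩
  -- positions
  obtain ⟨P, hP⟩ : ∃ P : ℕ → ℕ → ℕ, ∀ i q, P i q =
      if q < n then pp h i q else nx h w (pp h i (n - 1)) - 1 := ⟨_, fun _ _ => rfl⟩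
  have hcase : ∀ (i : Fin (2 * h + 1)) (q : ℕ),
      q < (if blk h w (pp h i (n - 1)) then n + 1 else n) →
      q < n ∨ (q = n ∧ blk h w (pp h i (n - 1))) := by
    intro i q hq
    split_ifs at hq with h1
    · rcases Nat.lt_or_ge q n with h2 | h2
      · exact Or.inl h2
      · exact Or.inr ⟨by omega, h1⟩
    · exact Or.inl hq
  have P0 : ∀ i q, q < n → P i q = pp h i q := fun i q hq => by rw [hP, if_pos hq]
  have Pn : ∀ i, P i n = nx h w (pp h i (n - 1)) - 1 := fun i => by rw [hP, if_neg (by omega)]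
  have Plt : ∀ (i : Fin (2 * h + 1)) (q : ℕ),
      q < (if blk h w (pp h i (n - 1)) then n + 1 else n) → P i q < m := by
    intro i q hq
    rcases hcase i q hq with h1 | ⟨h1, h2⟩
    · rw [P0 _ _ h1, hm]
      exact pp_lt h i q
    · rw [h1, Pn]
      have := nx_spec h2
      omega
  have Pinj : ∀ (i j : Fin (2 * h + 1)) (q : ℕ),
      q < (if blk h w (pp h i (n - 1)) then n + 1 else n) →
      q < (if blk h w (pp h j (n - 1)) then n + 1 else n) → P i q = P j q → i = j := by
    intro i j q hi hj h0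
    rcases hcase i q hi with h1 | ⟨h1, h2⟩
    · rw [P0 _ _ h1, P0 _ _ h1] at h0
      exact Fin.ext (pp_inj i.2 j.2 h0)
    · rcases hcase j q hj with h1' | ⟨h1', h2'⟩
      · omega
      · rw [h1, Pn, Pn] at h0
        have e1 := nx_spec h2
        have e2 := nx_spec h2'
        have h3 := nx_inj h2 h2' (by omega)
        exact Fin.ext (pp_inj i.2 j.2 h3)
  -- the edge sums
  have Ssum : ∀ (i : Fin (2 * h + 1)) (q : ℕ),
      q + 1 < (if blk h w (pp h i (n - 1)) then n + 1 else n) →
      h + 2 ≤ P i q + P i (q + 1) + 2 ∧ P i q + P i (q + 1) + 2 ≤ 3 * h + 2 ∧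
      (q + 1 = n → P i q + P i (q + 1) + 2 ≤ h + 1 + w) := by
    intro i q hq
    rcases hcase i (q + 1) hq with h1 | ⟨h1, h2⟩
    · rw [P0 _ _ h1, P0 _ _ (by omega), pp_succ]
      have := pp_lt h i q
      split_ifs <;> omega
    · rw [h1, Pn, P0 _ _ (by omega), show q = n - 1 by omega]
      have := nx_spec h2
      omega
  have Sinj : ∀ (i j : Fin (2 * h + 1)) (q : ℕ),
      q + 1 < (if blk h w (pp h i (n - 1)) then n + 1 else n) →
      q + 1 < (if blk h w (pp h j (n - 1)) then n + 1 else n) →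
      P i q + P i (q + 1) = P j q + P j (q + 1) → i = j := by
    intro i j q hi hj h0
    rcases hcase i (q + 1) hi with h1 | ⟨h1, h2⟩
    · rw [P0 _ _ h1, P0 _ _ (by omega : q < n), pp_succ, P0 _ _ h1, P0 _ _ (by omega : q < n),
        pp_succ] at h0
      have e1 := pp_lt h i q
      have e2 := pp_lt h j q
      refine Fin.ext (pp_inj (q := q) i.2 j.2 ?_)
      split_ifs at h0 <;> omega
    · rcases hcase j (q + 1) hj with h1' | ⟨h1', h2'⟩
      · omega
      · rw [h1, Pn, Pn, P0 _ _ (by omega : q < n), P0 _ _ (by omega : q < n),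
          show q = n - 1 by omega] at h0
        have e1 := nx_spec h2
        have e2 := nx_spec h2'
        have h3 := nx_inj2 h2 h2' (by omega)
        exact Fin.ext (pp_inj i.2 j.2 h3)
  -- labels
  obtain ⟨gg, hgg⟩ : ∃ gg : Fin (2 * h + 1) → ℕ → Bool × ℕ, ∀ i q, gg i q =
      (decide (q % 2 = 0), q / 2 * m + P i q + 1) := ⟨_, fun _ _ => rfl⟩
  have gsum : ∀ (i : Fin (2 * h + 1)) (q : ℕ), (gg i q).2 + (gg i (q + 1)).2 =
      q * m + (P i q + P i (q + 1) + 2) := by
    intro i q
    rw [hgg, hgg]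
    simp only
    have : q / 2 * m + (q + 1) / 2 * m = q * m := by
      rw [← Nat.add_mul]
      congr 1
      omega
    omega
  have hsumn : ∑ i : Fin (2 * h + 1), (if blk h w (pp h i (n - 1)) then n + 1 else n) =
      n * m + w := by
    have : ∀ i : Fin (2 * h + 1), (if blk h w (pp h i (n - 1)) then n + 1 else n) =
        n + (if blk h w (pp h i (n - 1)) then 1 else 0) := fun i => by split_ifs <;> rfl
    rw [Finset.sum_congr rfl (fun i _ => this i), sum_add_distrib, blk_sum hw, hm]
    simp [Nat.mul_comm]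
  have hsume : ∑ i : Fin (2 * h + 1), ((if blk h w (pp h i (n - 1)) then n + 1 else n) - 1) =
      (n - 1) * m + w := by
    have : ∀ i : Fin (2 * h + 1), ((if blk h w (pp h i (n - 1)) then n + 1 else n) - 1) =
        (n - 1) + (if blk h w (pp h i (n - 1)) then 1 else 0) := fun i => by
      split_ifs <;> omega
    rw [Finset.sum_congr rfl (fun i _ => this i), sum_add_distrib, blk_sum hw, hm]
    simp [Nat.mul_comm]
  have hRC : (n + 1) / 2 * m + n / 2 * m = n * m := by
    rw [← Nat.add_mul]
    congr 1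
    omega
  refine assemble_iso (fun i : Fin (2 * h + 1) => if blk h w (pp h i (n - 1)) then n + 1 else n) s
    gg ((n + 1) / 2 * m + (if n % 2 = 0 then w else 0) + s)
    (n / 2 * m + (if n % 2 = 0 then 0 else w)) (h + 2) ?_ ?_ ?_ ?_ ?_ ?_ ?_ ?_ ?_
  · intro i j q q' hq hq' h0
    rw [hgg, hgg] at h0
    have h1 := congrArg Prod.fst h0
    have h2 := congrArg Prod.snd h0
    simp only at h1 h2
    have h3 := nf (Plt i q hq) (Plt j q' hq') (show q / 2 * m + P i q = q' / 2 * m + P j q' by
      omega)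
    have h4 : q % 2 = q' % 2 := by
      rcases Nat.mod_two_eq_zero_or_one q with h5 | h5 <;>
        rcases Nat.mod_two_eq_zero_or_one q' with h6 | h6 <;> rw [h5, h6] at h1 ⊢ <;> simp at h1
    have h5 : q = q' := by omega
    subst h5
    exact ⟨Pinj i j q hq hq' h3.2, rfl⟩
  · intro i q hq
    rw [hgg]
    simp only
    omega
  · intro i q hq h0
    rw [hgg] at h0 ⊢
    simp only [decide_eq_true_eq] at h0
    simp only
    have h1 := Plt i q hq
    rcases hcase i q hq with h2 | ⟨h2, h3⟩
    · have := Nat.mul_le_mul_right m (show q / 2 + 1 ≤ (n + 1) / 2 by omega)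
      rw [Nat.add_mul] at this
      omega
    · rw [h2] at h0 ⊢
      rw [Pn, if_pos h0]
      have e1 := nx_spec h3
      have : (n + 1) / 2 = n / 2 := by omega
      rw [this]
      omega
  · intro i q hq h0
    rw [hgg] at h0 ⊢
    simp only [decide_eq_false_iff_not] at h0
    simp only
    have h1 := Plt i q hq
    rcases hcase i q hq with h2 | ⟨h2, h3⟩
    · have := Nat.mul_le_mul_right m (show q / 2 + 1 ≤ n / 2 by omega)
      rw [Nat.add_mul] at this
      omega
    · rw [h2] at h0 ⊢
      rw [Pn, if_neg h0]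
      have e1 := nx_spec h3
      omega
  · rw [hsumn]
    split_ifs <;> omega
  · intro i q hq
    rw [hgg, hgg]
    simp only [ne_eq, decide_eq_decide]
    omega
  · intro i q hq
    rw [gsum]
    have := (Ssum i q hq).1
    omega
  · rw [hsume]
    intro i q hq
    rw [gsum]
    obtain ⟨h1, h2, h3⟩ := Ssum i q hq
    rcases hcase i (q + 1) hq with h4 | ⟨h4, -⟩
    · have := Nat.mul_le_mul_right m (show q + 1 ≤ n - 1 by omega)
      rw [Nat.add_mul] at this
      omega
    · have h5 := h3 h4
      rw [show q = n - 1 by omega] at h5 ⊢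
      omega
  · intro i j q q' hq hq' h0
    rw [gsum, gsum] at h0
    obtain ⟨h1, h2, -⟩ := Ssum i q hq
    obtain ⟨h1', h2', -⟩ := Ssum j q' hq'
    have h3 := nf (m := m) (a := q) (b := q') (x := P i q + P i (q + 1) + 2 - (h + 2))
      (y := P j q' + P j (q' + 1) + 2 - (h + 2)) (by omega) (by omega) (by omega)
    obtain ⟨rfl, h4⟩ := h3
    exact ⟨Sinj i j q hq hq' (by omega), rfl⟩

end Pool.Agent.H89LinF
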