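import Pool.Agent.H89LinF.Near

/-!
# An odd number of components of nearly equal orders, final form
-/

set_option autoImplicit false

namespace Pool.Agent.H89LinF

open Finset

theorem two_counts {M k : ℕ} (f : Fin M → ℕ) (hf : ∀ i, f i = k ∨ f i = k + 1) (k' : ℕ) :
    (∑ i, if f i = k' then 1 else 0) =
      if k' = k + 1 then (∑ i, if f i = k + 1 then 1 else 0)
      else if k' = k then M - (∑ i, if f i = k + 1 then 1 else 0) else 0 := by
  by_cases h1 : k' = k + 1
  · rw [if_pos h1, h1]
  · rw [if_neg h1]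
    by_cases h2 : k' = k
    · rw [if_pos h2, h2]
      have : (∑ i, if f i = k then 1 else 0) + (∑ i, if f i = k + 1 then 1 else 0) = M := by
        rw [← sum_add_distrib]
        have : ∀ i, ((if f i = k then 1 else 0) + if f i = k + 1 then 1 else 0) = 1 := by
          intro i
          rcases hf i with h3 | h3 <;> simp [h3]
        rw [Finset.sum_congr rfl (fun i _ => this i)]
        simp
      omega
    · rw [if_neg h2]
      refine Finset.sum_eq_zero fun i _ => ?_
      rw [if_neg]
      rcases hf i with h3 | h3 <;> rw [h3] <;> omega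

theorem near {m : ℕ} (hm : Odd m) (k : ℕ) (hk : 1 ≤ k) (n : Fin m → ℕ)
    (hn : ∀ i, n i = k ∨ n i = k + 1) (s : ℕ) :
    SpecialSEM (linForest (Sum.elim n (fun _ : Fin s => 1))) := by
  obtain ⟨h, rfl⟩ := hm
  obtain ⟨w, hw⟩ : ∃ w, w = ∑ i, if n i = k + 1 then 1 else 0 := ⟨_, rfl⟩
  have hw2 : w ≤ 2 * h + 1 := by
    rw [hw]
    refine (Finset.sum_le_card_nsmul univ _ 1 fun i _ => ?_).trans ?_
    · split_ifs <;> omega
    · simp
  refine of_counts _ _ (fun k' => ?_) (near_model h w k s hw2 hk)
  rw [Fintype.sum_sum_type, Fintype.sum_sum_type]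
  congr 1
  change (∑ i : Fin (2 * h + 1), if (if blk h w (pp h i (k - 1)) then k + 1 else k) = k' then 1
    else 0) = ∑ i, if n i = k' then 1 else 0
  rw [two_counts n hn, two_counts (k := k)
    (fun i : Fin (2 * h + 1) => if blk h w (pp h i (k - 1)) then k + 1 else k)
    (fun i => by split_ifs; exacts [Or.inr rfl, Or.inl rfl])]
  have : (∑ i : Fin (2 * h + 1), if (if blk h w (pp h i (k - 1)) then k + 1 else k) = k + 1 then 1
      else 0) = w := by
    have h1 : ∀ i : Fin (2 * h + 1), (if (if blk h w (pp h i (k - 1)) then k + 1 else k) = k + 1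
        then 1 else 0) = if blk h w (pp h i (k - 1)) then 1 else 0 := by
      intro i
      by_cases hb : (blk h w (pp h i (k - 1)) : Prop)
      · rw [if_pos hb, if_pos rfl, if_pos hb]
      · rw [if_neg hb, if_neg (by omega), if_neg hb]
    rw [Finset.sum_congr rfl (fun i _ => h1 i), blk_sum hw2]
  rw [this, ← hw]

end Pool.Agent.H89LinF
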