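import Pool.Agent.H89LinF.Defs

/-!
# Forests which are not special super edge-magic
-/

set_option autoImplicit false

namespace Pool.Agent.H89LinF

open Finset

theorem sum_Ico_two (s q : ℕ) : (∑ t ∈ Finset.Ico s (s + q), t) * 2 = 2 * q * s + q * (q - 1) := by
  rw [Finset.sum_Ico_eq_sum_range, show s + q - s = q by omega, sum_add_distrib, sum_const,
    card_range, add_mul, Finset.sum_range_id_mul_two]
  simp only [smul_eq_mul]
  ring

/-- the sum of all labels -/
theorem sum_labels {V : Type*} [Fintype V] {f : V → ℕ}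
    (hf : Set.BijOn f Set.univ (Set.Icc 1 (Fintype.card V))) :
    (∑ v, f v) * 2 = Fintype.card V * (Fintype.card V + 1) := by
  have h1 : ∑ v, f v = ∑ t ∈ Finset.Ico 1 (1 + Fintype.card V), t := by
    refine Finset.sum_bij (fun v _ => f v) ?_ ?_ ?_ ?_
    · intro v _
      have := hf.mapsTo (Set.mem_univ v)
      rw [Set.mem_Icc] at this
      rw [Finset.mem_Ico]
      omega
    · intro u _ v _ h
      exact hf.injOn (Set.mem_univ u) (Set.mem_univ v) h
    · intro t ht
      rw [Finset.mem_Ico] at ht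
      obtain ⟨v, -, hv⟩ := hf.surjOn (show t ∈ Set.Icc 1 (Fintype.card V) by
        rw [Set.mem_Icc]
        omega)
      exact ⟨v, mem_univ _, hv⟩
    · intro v _
      rfl
  rw [h1, sum_Ico_two]
  rcases Nat.eq_zero_or_pos (Fintype.card V) with h0 | h0
  · rw [h0]
  · obtain ⟨c, hc⟩ : ∃ c, Fintype.card V = c + 1 := ⟨Fintype.card V - 1, by omega⟩
    rw [hc, Nat.add_sub_cancel]
    ring

section

variable {ι : Type} [Fintype ι] (n : ι → ℕ)

/-- the edges of the linear forest -/
def edg (p : Σ i, Fin (n i - 1)) : Sym2 (Σ i, Fin (n i)) :=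
  s(⟨p.1, ⟨p.2, by have := p.2.2; omega⟩⟩, ⟨p.1, ⟨p.2 + 1, by have := p.2.2; omega⟩⟩)

theorem edg_inj : Function.Injective (edg n) := by
  rintro ⟨i, q⟩ ⟨j, q'⟩ h
  have h1 := Sym2.eq_iff.1 h
  rcases h1 with ⟨h2, h3⟩ | ⟨h2, h3⟩
  · have h4 : i = j := congrArg Sigma.fst h2
    subst h4
    have h5 := eq_of_heq (Sigma.mk.inj_iff.1 h2).2
    have h6 := congrArg Fin.val h5
    simp only at h6
    rw [Fin.ext h6]
  · have h4 : i = j := congrArg Sigma.fst h2
    subst h4
    have h5 := congrArg Fin.val (eq_of_heq (Sigma.mk.inj_iff.1 h2).2)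
    have h6 := congrArg Fin.val (eq_of_heq (Sigma.mk.inj_iff.1 h3).2)
    simp only at h5 h6
    omega

theorem edg_range : (linForest n).edgeSet = Set.range (edg n) := by
  ext x
  induction x with
  | _ u v =>
    rw [SimpleGraph.mem_edgeSet]
    constructor
    · rintro ⟨h1, h2⟩
      obtain ⟨i, q, hq⟩ := u
      obtain ⟨j, q', hq'⟩ := v
      obtain rfl : i = j := h1
      rcases h2 with h2 | h2
      · change q + 1 = q' at h2
        subst h2
        exact ⟨⟨i, ⟨q, by omega⟩⟩, rfl⟩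
      · change q' + 1 = q at h2
        subst h2
        exact ⟨⟨i, ⟨q', by omega⟩⟩, Sym2.eq_swap⟩
    · rintro ⟨p, hp⟩
      have h3 := Sym2.eq_iff.1 hp
      rcases h3 with ⟨rfl, rfl⟩ | ⟨rfl, rfl⟩
      · exact ⟨rfl, Or.inl rfl⟩
      · exact ⟨rfl, Or.inr rfl⟩

theorem edg_ncard : (linForest n).edgeSet.ncard = ∑ i, (n i - 1) := by
  classical
  rw [edg_range, ← Set.image_univ, Set.ncard_image_of_injective _ (edg_inj n), Set.ncard_univ,
    Nat.card_eq_fintype_card, Fintype.card_sigma]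
  simp only [Fintype.card_fin]

/-- the sum of the edge sums -/
theorem sum_edges {f : (Σ i, Fin (n i)) → ℕ} {s : ℕ}
    (h : Set.BijOn (edgeSum f) (linForest n).edgeSet
      (Set.Ico s (s + (linForest n).edgeSet.ncard))) :
    (∑ p, edgeSum f (edg n p)) * 2 =
      2 * (∑ i, (n i - 1)) * s + (∑ i, (n i - 1)) * ((∑ i, (n i - 1)) - 1) := by
  rw [edg_ncard] at h
  rw [← sum_Ico_two]
  congr 1
  refine Finset.sum_bij (fun p _ => edgeSum f (edg n p)) ?_ ?_ ?_ ?_
  · intro p _
    have := h.mapsTo (show edg n p ∈ (linForest n).edgeSet by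
      rw [edg_range]
      exact ⟨p, rfl⟩)
    simpa using this
  · intro p _ p' _ hpp
    refine edg_inj n (h.injOn ?_ ?_ hpp)
    · rw [edg_range]
      exact ⟨p, rfl⟩
    · rw [edg_range]
      exact ⟨p', rfl⟩
  · intro t ht
    obtain ⟨x, hx, rfl⟩ := h.surjOn (show t ∈ Set.Ico s (s + ∑ i, (n i - 1)) by simpa using ht)
    rw [edg_range] at hx
    obtain ⟨p, rfl⟩ := hx
    exact ⟨p, mem_univ _, rfl⟩
  · intro p _
    rfl

end

end Pool.Agent.H89LinF
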