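import Pool.Agent.H89LinF.Nonex

/-!
# The exceptional forests
-/

set_option autoImplicit false

namespace Pool.Agent.H89LinF

open Finset

theorem ncard_sum {V : Type*} [Fintype V] (V₁ : Set V) [DecidablePred (· ∈ V₁)] :
    V₁.ncard = ∑ v, if v ∈ V₁ then 1 else 0 := by
  rw [Set.ncard_eq_toFinset_card', ← card_filter]
  congr 1
  ext v
  simp

/-- an even number of components of order two -/
theorem nonex1 (b : ℕ) (hb : b % 2 = 0) (hb2 : 2 ≤ b) :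
    ¬ SpecialSEM (linForest (fun _ : Fin b => 2)) := by
  rintro ⟨V₁, f, hbij, -, -, s, hs⟩
  have h1 := sum_labels hbij
  have h2 := sum_edges _ hs
  have h3 : ∑ p, edgeSum f (edg (fun _ : Fin b => 2) p) =
      ∑ v : (Σ _ : Fin b, Fin 2), f v := by
    rw [Fintype.sum_sigma, Fintype.sum_sigma]
    refine sum_congr rfl fun i _ => ?_
    rw [Fin.sum_univ_two]
    exact Fin.sum_univ_one _
  have h4 : Fintype.card (Σ _ : Fin b, Fin 2) = 2 * b := by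
    rw [Fintype.card_sigma]
    simp [Nat.mul_comm]
  have h5 : ∑ i : Fin b, (2 - 1) = b := by simp
  rw [h3] at h2
  rw [h4] at h1
  rw [h5] at h2
  obtain ⟨c, rfl⟩ : ∃ c, b = 2 * c := ⟨b / 2, by omega⟩
  obtain ⟨d, rfl⟩ : ∃ d, c = d + 1 := ⟨c - 1, by omega⟩
  have h6 : 2 * (2 * (d + 1)) * (2 * (2 * (d + 1)) + 1) =
      2 * (2 * (d + 1)) * s + 2 * (d + 1) * (2 * (d + 1) - 1) := h1.symm.trans h2
  rw [show 2 * (d + 1) - 1 = 2 * d + 1 by omega] at h6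
  have h7 : (2 * (d + 1)) * (2 * (2 * (2 * (d + 1)) + 1)) = (2 * (d + 1)) * (2 * s + (2 * d + 1)) := by
    rw [show (2 * (d + 1)) * (2 * s + (2 * d + 1)) =
      2 * (2 * (d + 1)) * s + 2 * (d + 1) * (2 * d + 1) by ring, ← h6]
    ring
  have h8 := Nat.eq_of_mul_eq_mul_left (by omega) h7
  omega

/-- one component of order three and an odd number of components of order two -/
theorem nonex2 (b : ℕ) (hb : b % 2 = 1) :
    ¬ SpecialSEM (linForest (Sum.elim (fun _ : Fin 1 => 3) (fun _ : Fin b => 2))) := by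
  classical
  rintro ⟨V₁, f, hbij, hst, hf1, s, hs⟩
  have h1 := sum_labels hbij
  have h2 := sum_edges _ hs
  obtain ⟨n, hn⟩ : ∃ n : Fin 1 ⊕ Fin b → ℕ, n = Sum.elim (fun _ : Fin 1 => 3) (fun _ : Fin b => 2) :=
    ⟨_, rfl⟩
  let x0 : Σ i, Fin (Sum.elim (fun _ : Fin 1 => 3) (fun _ : Fin b => 2) i) :=
    ⟨Sum.inl 0, (0 : Fin 3)⟩
  let x1 : Σ i, Fin (Sum.elim (fun _ : Fin 1 => 3) (fun _ : Fin b => 2) i) :=
    ⟨Sum.inl 0, (1 : Fin 3)⟩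
  let x2 : Σ i, Fin (Sum.elim (fun _ : Fin 1 => 3) (fun _ : Fin b => 2) i) :=
    ⟨Sum.inl 0, (2 : Fin 3)⟩
  let y0 : Fin b → Σ i, Fin (Sum.elim (fun _ : Fin 1 => 3) (fun _ : Fin b => 2) i) :=
    fun j => ⟨Sum.inr j, (0 : Fin 2)⟩
  let y1 : Fin b → Σ i, Fin (Sum.elim (fun _ : Fin 1 => 3) (fun _ : Fin b => 2) i) :=
    fun j => ⟨Sum.inr j, (1 : Fin 2)⟩
  have hV : ∀ g : (Σ i, Fin (Sum.elim (fun _ : Fin 1 => 3) (fun _ : Fin b => 2) i)) → ℕ,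
      ∑ v, g v = (g x0 + g x1 + g x2) + ∑ j, (g (y0 j) + g (y1 j)) := by
    intro g
    rw [Fintype.sum_sigma, Fintype.sum_sum_type]
    refine congrArg₂ (· + ·) ?_ ?_
    · rw [Fintype.sum_unique]
      exact Fin.sum_univ_three _
    · exact sum_congr rfl fun j _ => Fin.sum_univ_two _
  have hE : ∑ p, edgeSum f (edg (Sum.elim (fun _ : Fin 1 => 3) (fun _ : Fin b => 2)) p) =
      ((f x0 + f x1) + (f x1 + f x2)) + ∑ j, (f (y0 j) + f (y1 j)) := by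
    rw [Fintype.sum_sigma, Fintype.sum_sum_type]
    refine congrArg₂ (· + ·) ?_ ?_
    · rw [Fintype.sum_unique]
      exact Fin.sum_univ_two _
    · exact sum_congr rfl fun j _ => Fin.sum_univ_one _
  have hp : Fintype.card (Σ i, Fin (Sum.elim (fun _ : Fin 1 => 3) (fun _ : Fin b => 2) i)) =
      3 + 2 * b := by
    have h3 : ∑ i : Fin 1 ⊕ Fin b,
        Fintype.card (Fin (Sum.elim (fun _ : Fin 1 => 3) (fun _ : Fin b => 2) i)) =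
        ∑ i : Fin 1 ⊕ Fin b, Sum.elim (fun _ : Fin 1 => 3) (fun _ : Fin b => 2) i :=
      sum_congr rfl fun i _ => Fintype.card_fin _
    rw [Fintype.card_sigma, h3, Fintype.sum_sum_type]
    simp [Nat.mul_comm]
  have hq : ∑ i, (Sum.elim (fun _ : Fin 1 => 3) (fun _ : Fin b => 2) i - 1) = 2 + b := by
    rw [Fintype.sum_sum_type]
    simp
  have hfV := hV f
  rw [hE, hq] at h2
  rw [hp] at h1 hbij
  -- the number of the elements of the first part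
  have hnc : V₁.ncard = (if x1 ∈ V₁ then 1 else 2) + b := by
    rw [ncard_sum, hV]
    have e0 : x0 ∈ V₁ ↔ x1 ∉ V₁ := hst x0 x1 ⟨rfl, Or.inl rfl⟩
    have e2 : x1 ∈ V₁ ↔ x2 ∉ V₁ := hst x1 x2 ⟨rfl, Or.inl rfl⟩
    have e3 : ∀ j, ((if y0 j ∈ V₁ then 1 else 0) + if y1 j ∈ V₁ then 1 else 0) = 1 := by
      intro j
      have e4 : y0 j ∈ V₁ ↔ y1 j ∉ V₁ := hst (y0 j) (y1 j) ⟨rfl, Or.inl rfl⟩
      by_cases h : y1 j ∈ V₁
      · rw [if_neg (fun h' => e4.1 h' h), if_pos h]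
      · rw [if_pos (e4.2 h), if_neg h]
    rw [sum_congr rfl fun j _ => e3 j]
    by_cases h : x1 ∈ V₁
    · rw [if_neg (fun h' => e0.1 h' h), if_pos h, if_neg (e2.1 h), if_pos h]
      simp
    · rw [if_pos (e0.2 h), if_neg h, if_neg h]
      by_cases h' : x2 ∈ V₁
      · rw [if_pos h']
        simp
      · exact absurd (e2.2 h') h
  -- the label of the center
  have hc1 := hbij.mapsTo (Set.mem_univ x1)
  rw [Set.mem_Icc] at hc1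
  have hx1 : f x1 ≠ b + 2 := by
    intro hx
    by_cases h : x1 ∈ V₁
    · rw [if_pos h] at hnc
      have h5 : f x1 ∈ Set.Icc 1 V₁.ncard := by
        rw [← hf1]
        exact ⟨x1, h, rfl⟩
      rw [Set.mem_Icc] at h5
      omega
    · rw [if_neg h] at hnc
      have h5 : f x1 ∈ f '' V₁ := by
        rw [hf1, Set.mem_Icc]
        omega
      obtain ⟨v, hv, hv2⟩ := h5
      have h6 := hbij.injOn (Set.mem_univ v) (Set.mem_univ x1) hv2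
      rw [h6] at hv
      exact h hv
  -- the identity
  have h9 : (f x1 : ℤ) * 2 = (b + 2) * (2 * s - 3 * b - 5) := by
    rw [hfV] at h1
    have h7 : (((f x0 + f x1 + (f x1 + f x2) + ∑ j, (f (y0 j) + f (y1 j))) * 2 : ℕ) : ℤ) =
        ((2 * (2 + b) * s + (2 + b) * (2 + b - 1) : ℕ) : ℤ) := by rw [h2]
    have h8 : (((f x0 + f x1 + f x2 + ∑ j, (f (y0 j) + f (y1 j))) * 2 : ℕ) : ℤ) =
        (((3 + 2 * b) * (3 + 2 * b + 1) : ℕ) : ℤ) := by rw [h1]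
    rw [show 2 + b - 1 = b + 1 by omega] at h7
    push_cast at h7 h8
    linarith
  obtain ⟨c, rfl⟩ : ∃ c, b = 2 * c + 1 := ⟨b / 2, by omega⟩
  have h10 : (f x1 : ℤ) = (2 * c + 3) * (s - 3 * c - 4) := by
    push_cast at h9
    linarith
  have h11 : (1 : ℤ) ≤ f x1 := by exact_mod_cast hc1.1
  have h12 : (f x1 : ℤ) ≤ 3 + 2 * (2 * c + 1) := by exact_mod_cast hc1.2
  have h13 : ((s : ℤ) - 3 * c - 4) = 1 := by
    rcases lt_trichotomy ((s : ℤ) - 3 * c - 4) 1 with h | h | h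
    · have : ((s : ℤ) - 3 * c - 4) ≤ 0 := by omega
      nlinarith
    · exact h
    · have : 2 ≤ ((s : ℤ) - 3 * c - 4) := by omega
      nlinarith
  rw [h13, mul_one] at h10
  exact hx1 (by omega)

/-- two components of order three -/
theorem nonex3 : ¬ SpecialSEM (linForest (fun _ : Fin 2 => 3)) := by
  classical
  rintro ⟨V₁, f, hbij, hst, hf1, s, hs⟩
  have h1 := sum_labels hbij
  have h2 := sum_edges _ hs
  have hV : ∀ g : (Σ _ : Fin 2, Fin 3) → ℕ, ∑ v, g v = (g ⟨0, 0⟩ + g ⟨0, 1⟩ + g ⟨0, 2⟩) +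
      (g ⟨1, 0⟩ + g ⟨1, 1⟩ + g ⟨1, 2⟩) := by
    intro g
    rw [Fintype.sum_sigma, Fin.sum_univ_two, Fin.sum_univ_three, Fin.sum_univ_three]
  have hE : ∑ p, edgeSum f (edg (fun _ : Fin 2 => 3) p) =
      ((f ⟨0, 0⟩ + f ⟨0, 1⟩) + (f ⟨0, 1⟩ + f ⟨0, 2⟩)) +
        ((f ⟨1, 0⟩ + f ⟨1, 1⟩) + (f ⟨1, 1⟩ + f ⟨1, 2⟩)) := by
    rw [Fintype.sum_sigma, Fin.sum_univ_two]
    refine congrArg₂ (· + ·) ?_ ?_
    · exact Fin.sum_univ_two _
    · exact Fin.sum_univ_two _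
  have hp : Fintype.card (Σ _ : Fin 2, Fin 3) = 6 := by simp
  have hq : ∑ i : Fin 2, (3 - 1) = 4 := by simp
  rw [hV] at h1
  rw [hE, hq] at h2
  rw [hp] at h1
  have hlab : ∀ v, 1 ≤ f v ∧ f v ≤ 6 := by
    intro v
    have := hbij.mapsTo (Set.mem_univ v)
    rw [Set.mem_Icc, hp] at this
    exact this
  have hinj : ∀ u v, u ≠ v → f u ≠ f v := fun u v huv h =>
    huv (hbij.injOn (Set.mem_univ u) (Set.mem_univ v) h)
  have hnc : V₁.ncard = (if (⟨0, 1⟩ : Σ _ : Fin 2, Fin 3) ∈ V₁ then 1 else 2) +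
      (if (⟨1, 1⟩ : Σ _ : Fin 2, Fin 3) ∈ V₁ then 1 else 2) := by
    rw [ncard_sum, hV]
    have e : ∀ i : Fin 2, (((if (⟨i, 0⟩ : Σ _ : Fin 2, Fin 3) ∈ V₁ then 1 else 0) +
        if (⟨i, 1⟩ : Σ _ : Fin 2, Fin 3) ∈ V₁ then 1 else 0) +
        if (⟨i, 2⟩ : Σ _ : Fin 2, Fin 3) ∈ V₁ then 1 else 0) =
        if (⟨i, 1⟩ : Σ _ : Fin 2, Fin 3) ∈ V₁ then 1 else 2 := by
      intro i
      have e0 : (⟨i, 0⟩ : Σ _ : Fin 2, Fin 3) ∈ V₁ ↔ (⟨i, 1⟩ : Σ _ : Fin 2, Fin 3) ∉ V₁ :=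
        hst _ _ ⟨rfl, Or.inl rfl⟩
      have e2 : (⟨i, 1⟩ : Σ _ : Fin 2, Fin 3) ∈ V₁ ↔ (⟨i, 2⟩ : Σ _ : Fin 2, Fin 3) ∉ V₁ :=
        hst _ _ ⟨rfl, Or.inl rfl⟩
      by_cases h : (⟨i, 1⟩ : Σ _ : Fin 2, Fin 3) ∈ V₁
      · rw [if_neg (fun h' => e0.1 h' h), if_pos h, if_neg (e2.1 h), if_pos h]
      · rw [if_pos (e0.2 h), if_neg h]
        by_cases h' : (⟨i, 2⟩ : Σ _ : Fin 2, Fin 3) ∈ V₁
        · rw [if_pos h', if_neg h]
        · exact absurd (e2.2 h') h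
    rw [e 0, e 1]
  -- labels in the first part are small, the others are large
  have hin : ∀ v, v ∈ V₁ → f v ≤ V₁.ncard := by
    intro v hv
    have h5 : f v ∈ Set.Icc 1 V₁.ncard := by
      rw [← hf1]
      exact ⟨v, hv, rfl⟩
    rw [Set.mem_Icc] at h5
    exact h5.2
  have hout : ∀ v, v ∉ V₁ → V₁.ncard < f v := by
    intro v hv
    by_contra hcon
    have h5 : f v ∈ f '' V₁ := by
      rw [hf1, Set.mem_Icc]
      have := (hlab v).1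
      omega
    obtain ⟨w, hw, hw2⟩ := h5
    have h6 := hbij.injOn (Set.mem_univ w) (Set.mem_univ v) hw2
    rw [h6] at hw
    exact hv hw
  have i0 : ∀ i : Fin 2, (⟨i, 0⟩ : Σ _ : Fin 2, Fin 3) ∈ V₁ ↔
      (⟨i, 1⟩ : Σ _ : Fin 2, Fin 3) ∉ V₁ := fun i => hst _ _ ⟨rfl, Or.inl rfl⟩
  have i2 : ∀ i : Fin 2, (⟨i, 1⟩ : Σ _ : Fin 2, Fin 3) ∈ V₁ ↔
      (⟨i, 2⟩ : Σ _ : Fin 2, Fin 3) ∉ V₁ := fun i => hst _ _ ⟨rfl, Or.inl rfl⟩
  -- the edge sums are different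
  have hes : ∀ i j : Fin 2, ∀ q q' : Fin 2,
      (⟨i, q⟩ : Σ _ : Fin 2, Fin 2) ≠ ⟨j, q'⟩ →
      edgeSum f (edg (fun _ : Fin 2 => 3) ⟨i, q⟩) ≠ edgeSum f (edg (fun _ : Fin 2 => 3) ⟨j, q'⟩) := by
    intro i j q q' hne heq
    have h5 := hs.injOn (show edg (fun _ : Fin 2 => 3) ⟨i, q⟩ ∈ (linForest _).edgeSet by
        rw [edg_range]
        exact ⟨_, rfl⟩) (show edg (fun _ : Fin 2 => 3) ⟨j, q'⟩ ∈ (linForest _).edgeSet by
        rw [edg_range]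
        exact ⟨_, rfl⟩) heq
    exact hne (edg_inj _ h5)
  have s1 : f ⟨0, 0⟩ + f ⟨0, 1⟩ ≠ f ⟨1, 0⟩ + f ⟨1, 1⟩ := hes 0 1 0 0 (by decide)
  have s2 : f ⟨0, 0⟩ + f ⟨0, 1⟩ ≠ f ⟨1, 1⟩ + f ⟨1, 2⟩ := hes 0 1 0 1 (by decide)
  have s3 : f ⟨0, 1⟩ + f ⟨0, 2⟩ ≠ f ⟨1, 0⟩ + f ⟨1, 1⟩ := hes 0 1 1 0 (by decide)
  have s4 : f ⟨0, 1⟩ + f ⟨0, 2⟩ ≠ f ⟨1, 1⟩ + f ⟨1, 2⟩ := hes 0 1 1 1 (by decide)
  have d1 : f ⟨0, 0⟩ ≠ f ⟨0, 1⟩ := hinj _ _ (by decide)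
  have d2 : f ⟨0, 0⟩ ≠ f ⟨0, 2⟩ := hinj _ _ (by decide)
  have d3 : f ⟨0, 1⟩ ≠ f ⟨0, 2⟩ := hinj _ _ (by decide)
  have d4 : f ⟨1, 0⟩ ≠ f ⟨1, 1⟩ := hinj _ _ (by decide)
  have d5 : f ⟨1, 0⟩ ≠ f ⟨1, 2⟩ := hinj _ _ (by decide)
  have d6 : f ⟨1, 1⟩ ≠ f ⟨1, 2⟩ := hinj _ _ (by decide)
  have d7 : f ⟨0, 1⟩ ≠ f ⟨1, 1⟩ := hinj _ _ (by decide)
  have l1 := hlab ⟨0, 0⟩
  have l2 := hlab ⟨0, 1⟩
  have l3 := hlab ⟨0, 2⟩
  have l4 := hlab ⟨1, 0⟩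
  have l5 := hlab ⟨1, 1⟩
  have l6 := hlab ⟨1, 2⟩
  by_cases h : (⟨0, 1⟩ : Σ _ : Fin 2, Fin 3) ∈ V₁ <;>
    by_cases h' : (⟨1, 1⟩ : Σ _ : Fin 2, Fin 3) ∈ V₁
  · rw [if_pos h, if_pos h'] at hnc
    have := hin _ h
    have := hin _ h'
    omega
  · rw [if_pos h, if_neg h'] at hnc
    have := hin _ h
    have := hout _ h'
    have := hin _ ((i0 1).2 h')
    have := hin (⟨1, 2⟩ : Σ _ : Fin 2, Fin 3) (by
      by_contra h3
      exact h' ((i2 1).2 h3))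
    have := hout _ (fun h3 => (i0 0).1 h3 h)
    have := hout _ ((i2 0).1 h)
    omega
  · rw [if_neg h, if_pos h'] at hnc
    have := hin _ h'
    have := hout _ h
    have := hin _ ((i0 0).2 h)
    have := hin (⟨0, 2⟩ : Σ _ : Fin 2, Fin 3) (by
      by_contra h3
      exact h ((i2 0).2 h3))
    have := hout _ (fun h3 => (i0 1).1 h3 h')
    have := hout _ ((i2 1).1 h')
    omega
  · rw [if_neg h, if_neg h'] at hnc
    have := hout _ h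
    have := hout _ h'
    omega

end Pool.Agent.H89LinF
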