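import Pool.Agent.H89LinF.Iso

/-!
# Forests with components of order at most three
-/

set_option autoImplicit false

namespace Pool.Agent.H89LinF

open Finset

theorem sum_three {M : ℕ} (three : ℕ → Prop) [DecidablePred three] :
    ∑ i : Fin M, (if three i then 3 else 2) = 2 * M + ((range M).filter three).card := by
  rw [Fin.sum_univ_eq_sum_range (fun i => if three i then 3 else 2) M]
  have : ∀ i ∈ range M, (if three i then 3 else 2) = 2 + (if three i then 1 else 0) := by
    intro i _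
    split_ifs <;> rfl
  rw [sum_congr rfl this, sum_add_distrib, sum_const, card_range, ← card_filter]
  ring

theorem sum_three' {M : ℕ} (three : ℕ → Prop) [DecidablePred three] :
    ∑ i : Fin M, ((if three i then 3 else 2) - 1) = M + ((range M).filter three).card := by
  rw [Fin.sum_univ_eq_sum_range (fun i => (if three i then 3 else 2) - 1) M]
  have : ∀ i ∈ range M, (if three i then 3 else 2) - 1 = 1 + (if three i then 1 else 0) := by
    intro i _
    split_ifs <;> rfl
  rw [sum_congr rfl this, sum_add_distrib, sum_const, card_range, ← card_filter]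
  ring

/-- `M` components: the path `A i, B i` or `A i, B i, D i`. -/
theorem stars (M : ℕ) (three : ℕ → Prop) [DecidablePred three] (A B D : ℕ → Bool × ℕ)
    (T R C s0 s : ℕ) (hT : ((range M).filter three).card = T)
    (hcard : 2 * M + T + s = R + C)
    (kAB : ∀ i, i < M → (A i).1 ≠ (B i).1)
    (kBD : ∀ i, i < M → three i → (B i).1 ≠ (D i).1)
    (iAA : ∀ i j, i < M → j < M → A i = A j → i = j)
    (iBB : ∀ i j, i < M → j < M → B i = B j → i = j)
    (iDD : ∀ i j, i < M → j < M → three i → three j → D i = D j → i = j)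
    (iAB : ∀ i j, i < M → j < M → A i ≠ B j)
    (iAD : ∀ i j, i < M → j < M → three j → A i ≠ D j)
    (iBD : ∀ i j, i < M → j < M → three j → B i ≠ D j)
    (rA : ∀ i, i < M → 1 ≤ (A i).2 ∧ ((A i).1 = true → (A i).2 ≤ R) ∧
      ((A i).1 = false → (A i).2 ≤ C))
    (rB : ∀ i, i < M → 1 ≤ (B i).2 ∧ ((B i).1 = true → (B i).2 ≤ R) ∧
      ((B i).1 = false → (B i).2 ≤ C))
    (rD : ∀ i, i < M → three i → 1 ≤ (D i).2 ∧ ((D i).1 = true → (D i).2 ≤ R) ∧
      ((D i).1 = false → (D i).2 ≤ C))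
    (sP : ∀ i, i < M → s0 ≤ (A i).2 + (B i).2 ∧ (A i).2 + (B i).2 < s0 + (M + T))
    (sQ : ∀ i, i < M → three i → s0 ≤ (B i).2 + (D i).2 ∧ (B i).2 + (D i).2 < s0 + (M + T))
    (sPP : ∀ i j, i < M → j < M → (A i).2 + (B i).2 = (A j).2 + (B j).2 → i = j)
    (sQQ : ∀ i j, i < M → j < M → three i → three j →
      (B i).2 + (D i).2 = (B j).2 + (D j).2 → i = j)
    (sPQ : ∀ i j, i < M → j < M → three j → (A i).2 + (B i).2 ≠ (B j).2 + (D j).2) :
    SpecialSEM (linForest (Sum.elim (fun i : Fin M => if three i then 3 else 2)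
      (fun _ : Fin s => 1))) := by
  have c3 : ∀ (i : Fin M) (q : ℕ), q < (if three i then 3 else 2) →
      q = 0 ∨ q = 1 ∨ (q = 2 ∧ three i) := by
    intro i q hq
    split_ifs at hq with h
    · rcases Nat.lt_or_ge q 2 with h2 | h2
      · omega
      · exact Or.inr (Or.inr ⟨by omega, h⟩)
    · omega
  have c2 : ∀ (i : Fin M) (q : ℕ), q + 1 < (if three i then 3 else 2) →
      q = 0 ∨ (q = 1 ∧ three i) := by
    intro i q hq
    rcases c3 i (q + 1) hq with h | h | ⟨h, h3⟩
    · omega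
    · left
      omega
    · exact Or.inr ⟨by omega, h3⟩
  let gg : Fin M → ℕ → Bool × ℕ := fun i q => if q = 0 then A i else if q = 1 then B i else D i
  have g0 : ∀ i : Fin M, gg i 0 = A i := fun i => rfl
  have g1 : ∀ i : Fin M, gg i 1 = B i := fun i => rfl
  have g2 : ∀ i : Fin M, gg i 2 = D i := fun i => rfl
  refine assemble_iso (fun i : Fin M => if three i then 3 else 2) s gg R C s0
    ?_ ?_ ?_ ?_ ?_ ?_ ?_ ?_ ?_
  · intro i j q q' hq hq' h
    rcases c3 i q hq with rfl | rfl | ⟨rfl, h3⟩ <;>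
      rcases c3 j q' hq' with rfl | rfl | ⟨rfl, h3'⟩
    · exact ⟨Fin.ext (iAA i j i.2 j.2 h), rfl⟩
    · exact absurd h (iAB i j i.2 j.2)
    · exact absurd h (iAD i j i.2 j.2 h3')
    · exact absurd h.symm (iAB j i j.2 i.2)
    · exact ⟨Fin.ext (iBB i j i.2 j.2 h), rfl⟩
    · exact absurd h (iBD i j i.2 j.2 h3')
    · exact absurd h.symm (iAD j i j.2 i.2 h3)
    · exact absurd h.symm (iBD j i j.2 i.2 h3)
    · exact ⟨Fin.ext (iDD i j i.2 j.2 h3 h3' h), rfl⟩
  · intro i q hq
    rcases c3 i q hq with rfl | rfl | ⟨rfl, h3⟩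
    · exact (rA i i.2).1
    · exact (rB i i.2).1
    · exact (rD i i.2 h3).1
  · intro i q hq h
    rcases c3 i q hq with rfl | rfl | ⟨rfl, h3⟩
    · exact (rA i i.2).2.1 h
    · exact (rB i i.2).2.1 h
    · exact (rD i i.2 h3).2.1 h
  · intro i q hq h
    rcases c3 i q hq with rfl | rfl | ⟨rfl, h3⟩
    · exact (rA i i.2).2.2 h
    · exact (rB i i.2).2.2 h
    · exact (rD i i.2 h3).2.2 h
  · rw [sum_three, hT]
    exact hcard
  · intro i q hq
    rcases c2 i q hq with rfl | ⟨rfl, h3⟩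
    · exact kAB i i.2
    · exact kBD i i.2 h3
  · intro i q hq
    rcases c2 i q hq with rfl | ⟨rfl, h3⟩
    · exact (sP i i.2).1
    · exact (sQ i i.2 h3).1
  · rw [sum_three', hT]
    intro i q hq
    rcases c2 i q hq with rfl | ⟨rfl, h3⟩
    · exact (sP i i.2).2
    · exact (sQ i i.2 h3).2
  · intro i j q q' hq hq' h
    rcases c2 i q hq with rfl | ⟨rfl, h3⟩ <;> rcases c2 j q' hq' with rfl | ⟨rfl, h3'⟩
    · exact ⟨Fin.ext (sPP i j i.2 j.2 h), rfl⟩
    · exact absurd h (sPQ i j i.2 j.2 h3')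
    · exact absurd h.symm (sPQ j i j.2 i.2 h3)
    · exact ⟨Fin.ext (sQQ i j i.2 j.2 h3 h3' h), rfl⟩

end Pool.Agent.H89LinF
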