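import Pool.Agent.H89LinF.CaseA
import Pool.Agent.H89LinF.CaseB
import Pool.Agent.H89LinF.CaseB2
import Pool.Agent.H89LinF.CaseC
import Pool.Agent.H89LinF.Nonex2
import Pool.Agent.H89LinF.Transport

/-!
# All linear forests with components of order at most three
-/

set_option autoImplicit false

namespace Pool.Agent.H89LinF

open Finset

/-- the number of components with `k` vertices -/
def num {m : ℕ} (n : Fin m → ℕ) (k : ℕ) : ℕ := (univ.filter fun i => n i = k).card

theorem num_eq {m : ℕ} (n : Fin m → ℕ) (k : ℕ) :
    (∑ i, if n i = k then 1 else 0) = num n k := by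
  unfold num
  rw [card_filter]

theorem model_counts {M s T : ℕ} (three : ℕ → Prop) [DecidablePred three]
    (hT : ((range M).filter three).card = T) (k : ℕ) :
    (∑ i : Fin M ⊕ Fin s, if Sum.elim (fun i : Fin M => if three i then 3 else 2)
      (fun _ : Fin s => 1) i = k then 1 else 0) =
      (if k = 3 then T else 0) + (if k = 2 then M - T else 0) + (if k = 1 then s else 0) := by
  have e0 : (∑ i : Fin M ⊕ Fin s, if Sum.elim (fun i : Fin M => if three i then 3 else 2)
      (fun _ : Fin s => 1) i = k then 1 else 0) =
      (∑ i : Fin M, if (if three i then 3 else 2) = k then 1 else 0) +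
        ∑ _ : Fin s, if 1 = k then 1 else 0 := by
    rw [Fintype.sum_sum_type]
    rfl
  rw [e0, Fin.sum_univ_eq_sum_range (fun i => if (if three i then 3 else 2) = k then 1 else 0) M]
  have h3 : (∑ i ∈ range M, if three i then 1 else 0) = T := by
    rw [← card_filter]
    exact hT
  have h2 : (∑ i ∈ range M, if three i then 0 else 1) = M - T := by
    have : (∑ i ∈ range M, if three i then 1 else 0) +
        (∑ i ∈ range M, if three i then 0 else 1) = M := by
      rw [← sum_add_distrib]
      have : ∀ i ∈ range M, ((if three i then 1 else 0) + if three i then 0 else 1) = 1 := by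
        intro i _
        split_ifs <;> rfl
      rw [sum_congr rfl this]
      simp
    omega
  by_cases k3 : k = 3
  · subst k3
    have : ∀ i ∈ range M, (if (if three i then 3 else 2) = 3 then 1 else 0) =
        if three i then 1 else 0 := by
      intro i _
      split_ifs <;> simp_all
    rw [sum_congr rfl this, h3]
    simp
  · by_cases k2 : k = 2
    · subst k2
      have : ∀ i ∈ range M, (if (if three i then 3 else 2) = 2 then 1 else 0) =
          if three i then 0 else 1 := by
        intro i _
        split_ifs <;> simp_all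
      rw [sum_congr rfl this, h2]
      simp
    · have : ∀ i ∈ range M, (if (if three i then 3 else 2) = k then 1 else 0) = 0 := by
        intro i _
        rw [if_neg]
        split_ifs
        · exact fun h => k3 h.symm
        · exact fun h => k2 h.symm
      rw [sum_congr rfl this, if_neg k3, if_neg k2]
      by_cases k1 : k = 1
      · subst k1
        simp
      · rw [if_neg k1]
        have : (1 : ℕ) ≠ k := fun h => k1 h.symm
        simp [this]

theorem num_other {m : ℕ} (n : Fin m → ℕ) (hn : ∀ i, 1 ≤ n i ∧ n i ≤ 3) (k : ℕ) :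
    num n k = (if k = 3 then num n 3 else 0) + (if k = 2 then num n 2 else 0) +
      (if k = 1 then num n 1 else 0) := by
  by_cases k3 : k = 3
  · subst k3
    simp
  · by_cases k2 : k = 2
    · subst k2
      simp
    · by_cases k1 : k = 1
      · subst k1
        simp
      · rw [if_neg k3, if_neg k2, if_neg k1]
        unfold num
        rw [card_eq_zero, filter_eq_empty_iff]
        intro i _ h
        have := hn i
        omega

theorem of_model {m M s T : ℕ} (n : Fin m → ℕ) (hn : ∀ i, 1 ≤ n i ∧ n i ≤ 3)
    (h3 : num n 3 = T) (h2 : num n 2 = M - T) (h1 : num n 1 = s)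
    (h : ∃ (three : ℕ → Prop) (_ : DecidablePred three),
      ((range M).filter three).card = T ∧
      SpecialSEM (linForest (Sum.elim (fun i : Fin M => if three i then 3 else 2)
        (fun _ : Fin s => 1)))) : SpecialSEM (linForest n) := by
  obtain ⟨three, hdec, hT, hS⟩ := h
  refine of_counts _ n (fun k => ?_) hS
  rw [model_counts three hT k, num_eq, num_other n hn k, h3, h2, h1]

theorem empty_case (s : ℕ) :
    ∃ (three : ℕ → Prop) (_ : DecidablePred three),
      ((range 0).filter three).card = 0 ∧
      SpecialSEM (linForest (Sum.elim (fun i : Fin 0 => if three i then 3 else 2)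
        (fun _ : Fin s => 1))) := by
  let three : ℕ → Prop := fun _ => False
  have hT : ((range 0).filter three).card = 0 := by
    simp [three]
  refine ⟨three, fun _ => instDecidableFalse, hT, ?_⟩
  refine stars 0 three (fun _ => (true, 1)) (fun _ => (true, 1)) (fun _ => (true, 1)) 0 s 0 2 s
    hT (by omega) ?_ ?_ ?_ ?_ ?_ ?_ ?_ ?_ ?_ ?_ ?_ ?_ ?_ ?_ ?_ ?_ <;>
  · intro i
    intros
    omega

theorem three_main {m : ℕ} (n : Fin m → ℕ) (hn : ∀ i, 1 ≤ n i ∧ n i ≤ 3) :
    SpecialSEM (linForest n) ↔
      ¬ (num n 1 = 0 ∧ ((num n 3 = 0 ∧ 2 ≤ num n 2 ∧ Even (num n 2)) ∨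
        (num n 3 = 1 ∧ Odd (num n 2)) ∨ (num n 3 = 2 ∧ num n 2 = 0))) := by
  constructor
  · rintro hS ⟨h1, ⟨h3, h2, he⟩ | ⟨h3, ho⟩ | ⟨h3, h2⟩⟩
    · refine nonex1 (num n 2) (Nat.even_iff.1 he) h2 (of_counts n _ (fun k => ?_) hS)
      rw [num_eq, num_other n hn k, h1, h3]
      by_cases k2 : k = 2
      · subst k2
        simp
      · have : (2 : ℕ) ≠ k := fun h => k2 h.symm
        simp [k2, this]
    · refine nonex2 (num n 2) (Nat.odd_iff.1 ho) (of_counts n _ (fun k => ?_) hS)
      rw [num_eq, num_other n hn k, h1, h3, Fintype.sum_sum_type]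
      simp only [Sum.elim_inl, Sum.elim_inr]
      by_cases k3 : k = 3
      · subst k3
        simp
      · by_cases k2 : k = 2
        · subst k2
          simp
        · have e2 : (2 : ℕ) ≠ k := fun h => k2 h.symm
          have e3 : (3 : ℕ) ≠ k := fun h => k3 h.symm
          simp [k2, k3, e2, e3]
    · refine nonex3 (of_counts n _ (fun k => ?_) hS)
      rw [num_eq, num_other n hn k, h1, h3, h2]
      by_cases k3 : k = 3
      · subst k3
        simp
      · have e3 : (3 : ℕ) ≠ k := fun h => k3 h.symm
        simp [k3, e3]
  · intro hne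
    obtain ⟨t3, ht3⟩ : ∃ t, t = num n 3 := ⟨_, rfl⟩
    obtain ⟨t2, ht2⟩ : ∃ t, t = num n 2 := ⟨_, rfl⟩
    obtain ⟨t1, ht1⟩ : ∃ t, t = num n 1 := ⟨_, rfl⟩
    rw [← ht3, ← ht2, ← ht1] at hne
    rcases Nat.mod_two_eq_zero_or_one (t3 + t2) with hp | hp
    · -- an even number of components of orders two and three
      rcases Nat.lt_or_ge t3 3 with h3 | h3
      · rcases Nat.eq_zero_or_pos t3 with h0 | h0
        · -- no component of order three
          rcases Nat.eq_zero_or_pos t2 with h2 | h2
          · exact of_model (M := 0) (T := 0) (s := t1) n hn (by omega) (by omega) (by omega)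
              (empty_case t1)
          · have : 1 ≤ t1 := by
              by_contra h1
              exact hne ⟨by omega, Or.inl ⟨h0, by omega, Nat.even_iff.2 (by omega)⟩⟩
            exact of_model (M := 2 * (t2 / 2)) (T := 0) (s := t1) n hn (by omega) (by omega)
              (by omega) (caseC1 (t2 / 2) t1 this)
        · rcases Nat.lt_or_ge t3 2 with h4 | h4
          · -- one component of order three
            have : 1 ≤ t1 := by
              by_contra h1
              exact hne ⟨by omega, Or.inr (Or.inl ⟨by omega, Nat.odd_iff.2 (by omega)⟩)⟩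
            exact of_model (M := 2 * ((t2 + 1) / 2)) (T := 1) (s := t1) n hn (by omega) (by omega)
              (by omega) (caseC2 ((t2 + 1) / 2) t1 (by omega) this)
          · -- two components of order three
            rcases Nat.eq_zero_or_pos t2 with h2 | h2
            · have : 1 ≤ t1 := by
                by_contra h1
                exact hne ⟨by omega, Or.inr (Or.inr ⟨by omega, h2⟩)⟩
              exact of_model (M := 2) (T := 2) (s := t1) n hn (by omega) (by omega)
                (by omega) (caseC3 t1 this)
            · exact of_model (M := 2 * ((t3 + t2) / 2)) (T := 0 + 2) (s := t1) n hn (by omega)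
                (by omega) (by omega) (caseB2 ((t3 + t2) / 2) 0 t1 (by omega) (by omega) (by omega))
      · rcases Nat.mod_two_eq_zero_or_one t3 with h4 | h4
        · exact of_model (M := 2 * ((t3 + t2) / 2)) (T := (t3 - 2) + 2) (s := t1) n hn (by omega)
            (by omega) (by omega) (caseB2 ((t3 + t2) / 2) (t3 - 2) t1 (by omega) (by omega)
              (by omega))
        · exact of_model (M := 2 * ((t3 + t2) / 2)) (T := (t3 - 2) + 2) (s := t1) n hn (by omega)
            (by omega) (by omega) (caseB1 ((t3 + t2) / 2) (t3 - 2) t1 (by omega) (by omega))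
    · exact of_model (M := 2 * ((t3 + t2) / 2) + 1) (T := t3) (s := t1) n hn (by omega)
        (by omega) (by omega) (caseA ((t3 + t2) / 2) t3 t1 (by omega))

end Pool.Agent.H89LinF
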